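import Mathlib

set_option autoImplicit false

namespace Pool.Agent.Lib.helper32.AugZar

open Finset

/-- A cell of the `m × n` grid. -/
abbrev Cell (m n : ℕ) := Fin m × Fin n

/-- An augmented graph: 1-edges, 2-edges (2-element sets of cells), 3-edges (3-element sets). -/
structure AugGraph (m n : ℕ) where
  E1 : Finset (Cell m n)
  E2 : Finset (Finset (Cell m n))
  E3 : Finset (Finset (Cell m n))
  card2 : ∀ e ∈ E2, e.card = 2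
  card3 : ∀ e ∈ E3, e.card = 3

variable {m n : ℕ}

/-- The cell lies in some edge. -/
def Occupied (G : AugGraph m n) (x : Cell m n) : Prop :=
  x ∈ G.E1 ∨ (∃ e ∈ G.E2, x ∈ e) ∨ (∃ e ∈ G.E3, x ∈ e)

/-- The cell lies in `E1` or in a 2-edge. -/
def Occupied12 (G : AugGraph m n) (x : Cell m n) : Prop :=
  x ∈ G.E1 ∨ (∃ e ∈ G.E2, x ∈ e)

/-- No cell lies in more than one edge. -/
def Simple (G : AugGraph m n) : Prop :=
  (∀ x ∈ G.E1, ∀ e ∈ G.E2 ∪ G.E3, x ∉ e) ∧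
  (∀ e ∈ G.E2 ∪ G.E3, ∀ f ∈ G.E2 ∪ G.E3, e ≠ f → Disjoint e f)

/-- Condition 1: a `C4` in the set of cells `E`. -/
def HasC4 (E : Finset (Cell m n)) : Prop :=
  ∃ (i k : Fin m) (j l : Fin n), i ≠ k ∧ j ≠ l ∧ (i, j) ∈ E ∧ (i, l) ∈ E ∧ (k, j) ∈ E ∧ (k, l) ∈ E

/-- Condition 2. -/
def Cond2 (G : AugGraph m n) : Prop :=
  ∃ (i k : Fin m) (j l : Fin n), i ≠ k ∧ j ≠ l ∧
    Occupied G (i, j) ∧ Occupied G (i, l) ∧ Occupied G (k, j) ∧ Occupied G (k, l) ∧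
    ∃ e ∈ G.E2 ∪ G.E3, ∃ f ∈ G.E2 ∪ G.E3, e ≠ f ∧
      ({(i, j), (i, l), (k, j), (k, l)} : Finset (Cell m n)) ⊆ e ∪ f ∧
      (e ∩ {(i, j), (i, l), (k, j), (k, l)}).card = 2 ∧
      (f ∩ {(i, j), (i, l), (k, j), (k, l)}).card = 2

/-- Condition 3. -/
def Cond3 (G : AugGraph m n) : Prop :=
  ∃ (i p k : Fin m) (j q l : Fin n), ({(i, j), (p, q)} : Finset (Cell m n)) ∈ G.E2 ∧
    k ≠ i ∧ k ≠ p ∧ l ≠ j ∧ l ≠ q ∧
    Occupied12 G (k, j) ∧ Occupied12 G (k, l) ∧ Occupied12 G (k, q) ∧ Occupied12 G (i, l) ∧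
    Occupied12 G (p, l) ∧
    (i ≠ p ∧ j ≠ q → [(k, j), (k, l), (k, q), (i, l), (p, l)].Nodup)

/-- Condition 4. -/
def Cond4 (G : AugGraph m n) : Prop :=
  ∃ (i p u k : Fin m) (j q v l : Fin n),
    ({(i, j), (p, q), (u, v)} : Finset (Cell m n)) ∈ G.E3 ∧
    k ≠ i ∧ k ≠ p ∧ k ≠ u ∧ l ≠ j ∧ l ≠ q ∧ l ≠ v ∧
    Occupied G (k, j) ∧ Occupied G (k, l) ∧ Occupied G (k, q) ∧ Occupied G (k, v) ∧
    Occupied G (i, l) ∧ Occupied G (p, l) ∧ Occupied G (u, l) ∧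
    ([i, p, u].Nodup ∧ [j, q, v].Nodup →
      [(k, j), (k, l), (k, q), (k, v), (i, l), (p, l), (u, l)].Nodup)

/-- Generalized cycle-free: none of the conditions 1 to 4 occurs. -/
def CycleFree (G : AugGraph m n) : Prop :=
  ¬ HasC4 G.E1 ∧ ¬ Cond2 G ∧ ¬ Cond3 G ∧ ¬ Cond4 G

/-- The Zarankiewicz number `z(m,n)`. -/
noncomputable def z (m n : ℕ) : ℕ :=
  sSup {N : ℕ | ∃ E : Finset (Cell m n), ¬ HasC4 E ∧ N = E.card}

/-- The number `z_{3A}(m,n)`. -/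
noncomputable def z3A (m n : ℕ) : ℕ :=
  sSup {N : ℕ | ∃ G : AugGraph m n, Simple G ∧ CycleFree G ∧
    N = G.E1.card + G.E2.card + G.E3.card}

/-- The number `z_{3L}(m,n)`. -/
noncomputable def z3L (m n : ℕ) : ℕ :=
  sSup {N : ℕ | ∃ G : AugGraph m n, Simple G ∧ CycleFree G ∧ G.E1.card = z m n ∧
    N = G.E1.card + G.E2.card + G.E3.card}

end Pool.Agent.Lib.helper32.AugZar
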