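import Pool.Agent.Lib.helper32.AugZar

set_option autoImplicit false

namespace Pool.Agent.Lib.helper32.AugZar

open Finset

variable {m n : ℕ}

lemma c4free_bound (E : Finset (Cell m n)) (hE : ¬ HasC4 E) : E.card ≤ n + m.choose 2 := by
  let col : Fin n → Finset (Fin m) := fun j => univ.filter (fun i => (i, j) ∈ E)
  have h1 : E.card = ∑ j, (col j).card := by
    rw [card_eq_sum_card_fiberwise (f := Prod.snd) (t := univ) (fun _ _ => mem_coe.2 (mem_univ _))]
    refine sum_congr rfl fun j _ => ?_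
    refine card_bij (fun x _ => x.1) ?_ ?_ ?_
    · intro x hx
      rw [mem_filter] at hx
      simp only [col, mem_filter, mem_univ, true_and]
      rw [← hx.2]; exact hx.1
    · intro x hx y hy h
      exact Prod.ext h ((mem_filter.1 hx).2.trans (mem_filter.1 hy).2.symm)
    · intro i hi
      exact ⟨(i, j), mem_filter.2 ⟨(mem_filter.1 hi).2, rfl⟩, rfl⟩
  have h2 : ∑ j, ((col j).powersetCard 2).card ≤ m.choose 2 := by
    rw [← card_biUnion]
    · have : (univ.biUnion fun j => (col j).powersetCard 2)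
          ⊆ (univ : Finset (Fin m)).powersetCard 2 := by
        intro s hs
        obtain ⟨j, -, hj⟩ := mem_biUnion.1 hs
        exact mem_powersetCard.2 ⟨subset_univ _, (mem_powersetCard.1 hj).2⟩
      simpa using card_le_card this
    · intro j _ l _ hjl
      rw [Function.onFun, disjoint_left]
      intro s hs hs'
      obtain ⟨hs1, hs2⟩ := mem_powersetCard.1 hs
      obtain ⟨hs3, -⟩ := mem_powersetCard.1 hs'
      obtain ⟨i, k, hik, rfl⟩ := card_eq_two.1 hs2
      refine hE ⟨i, k, j, l, hik, hjl, ?_, ?_, ?_, ?_⟩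
      · exact (mem_filter.1 (hs1 (by simp))).2
      · exact (mem_filter.1 (hs3 (by simp))).2
      · exact (mem_filter.1 (hs1 (by simp))).2
      · exact (mem_filter.1 (hs3 (by simp))).2
  have h3 : ∀ d : ℕ, d ≤ 1 + d.choose 2 := by
    intro d
    rcases d with _ | d
    · simp
    · rw [Nat.choose_succ_succ]; simp; omega
  calc E.card = ∑ j, (col j).card := h1
    _ ≤ ∑ j, (1 + ((col j).powersetCard 2).card) :=
        sum_le_sum fun j _ => by rw [card_powersetCard]; exact h3 _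
    _ ≤ _ := by rw [sum_add_distrib]; simp only [sum_const, card_univ, Fintype.card_fin,
        smul_eq_mul, mul_one]; omega

lemma z_eq (E : Finset (Cell m n)) (hE : ¬ HasC4 E) (h : E.card = n + m.choose 2) :
    E.card = z m n := by
  symm
  apply IsGreatest.csSup_eq
  refine ⟨⟨E, hE, rfl⟩, ?_⟩
  rintro N ⟨F, hF, rfl⟩
  rw [h]; exact c4free_bound F hF

lemma construction (a b : ℕ) (r : Fin m ≃ Bool × Fin (a + 1))
    (c : Fin n ≃ {s : Finset (Fin m) // s.card = 2} ⊕ (Bool × Fin b)) :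
    ∃ G : AugGraph m n, Simple G ∧ CycleFree G ∧ G.E1.card = z m n ∧ a * b ≤ G.E2.card := by
  let col : {s : Finset (Fin m) // s.card = 2} ⊕ (Bool × Fin b) → Finset (Fin m) :=
    Sum.elim (fun s => s.1) (fun t => {r.symm (t.1, 0)})
  let E1 : Finset (Cell m n) := univ.filter (fun x => x.1 ∈ col (c x.2))
  let g : Bool → Fin a × Fin b → Cell m n := fun t u => (r.symm (t, u.1.succ), c.symm (Sum.inr (t, u.2)))
  have hg : ∀ t u t' u', g t u = g t' u' → t = t' ∧ u = u' := by
    intro t u t' u' h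
    simp only [g, Prod.mk.injEq, EmbeddingLike.apply_eq_iff_eq, Fin.succ_inj, Sum.inr.injEq] at h
    exact ⟨h.1.1, Prod.ext h.1.2 h.2.2⟩
  let e2 : Fin a × Fin b → Finset (Cell m n) := fun u => {g false u, g true u}
  have hmem : ∀ u x, x ∈ e2 u ↔ ∃ t, x = g t u := by
    intro u x; simp [e2]
  have he2 : Function.Injective e2 := by
    intro u v h
    have : g false u ∈ e2 v := by rw [← h]; exact (hmem _ _).2 ⟨_, rfl⟩
    obtain ⟨t, ht⟩ := (hmem _ _).1 this
    exact (hg _ _ _ _ ht).2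
  let G : AugGraph m n := ⟨E1, univ.image e2, ∅, by
    intro e he
    obtain ⟨u, -, rfl⟩ := mem_image.1 he
    exact card_pair (fun h => by simpa using (hg _ _ _ _ h).1), by simp⟩
  have hE1 : ∀ x : Cell m n, x ∈ E1 ↔ x.1 ∈ col (c x.2) := by intro x; simp [E1]
  have hE2 : ∀ e, e ∈ G.E2 ∪ G.E3 ↔ ∃ u, e = e2 u := by
    intro e; simp [G, eq_comm]
  have hE2' : ∀ e, e ∈ G.E2 ↔ ∃ u, e = e2 u := by
    intro e; simp [G, eq_comm]
  have hocc : ∀ (i : Fin m) (t : Bool) (y : Fin b),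
      Occupied12 G (i, c.symm (Sum.inr (t, y))) → (r i).1 = t := by
    rintro i t y (h | ⟨e, he, h⟩)
    · have := (hE1 _).1 h
      simp only [Equiv.apply_symm_apply, col, Sum.elim_inr, mem_singleton] at this
      rw [this]; simp
    · obtain ⟨u, rfl⟩ := (hE2' e).1 he
      obtain ⟨t', ht'⟩ := (hmem _ _).1 h
      simp only [g, Prod.mk.injEq, EmbeddingLike.apply_eq_iff_eq, Sum.inr.injEq] at ht'
      rw [ht'.1, ht'.2.1]; simp
  have hocc' : ∀ x, Occupied G x → Occupied12 G x := by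
    rintro x (h | h | ⟨e, he, -⟩)
    · exact Or.inl h
    · exact Or.inr h
    · simp [G] at he
  have hC4 : ¬ HasC4 E1 := by
    rintro ⟨i, k, j, l, hik, hjl, h1, h2, h3, h4⟩
    rw [hE1] at h1 h2 h3 h4
    have key : ∀ w, i ∈ col w → k ∈ col w → w = Sum.inl ⟨{i, k}, card_pair hik⟩ := by
      rintro (s | t) hi hk
      · congr 1
        refine Subtype.ext (eq_of_subset_of_card_le ?_ ?_).symm
        · intro x hx
          rcases mem_insert.1 hx with rfl | hx
          · exact hi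
          · rw [mem_singleton.1 hx]; exact hk
        · rw [s.2, card_pair hik]
      · simp only [col, Sum.elim_inr, mem_singleton] at hi hk
        exact absurd (hi.trans hk.symm) hik
    exact hjl (c.injective ((key _ h1 h3).trans (key _ h2 h4).symm))
  refine ⟨G, ⟨?_, ?_⟩, ⟨hC4, ?_, ?_, ?_⟩, z_eq E1 hC4 ?_, ?_⟩
  · intro x hx e he hxe
    obtain ⟨u, rfl⟩ := (hE2 e).1 he
    obtain ⟨t, rfl⟩ := (hmem _ _).1 hxe
    have := (hE1 _).1 hx
    simp [g, col] at this
  · intro e he f hf hef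
    obtain ⟨u, rfl⟩ := (hE2 e).1 he
    obtain ⟨v, rfl⟩ := (hE2 f).1 hf
    rw [disjoint_left]
    intro x hx hx'
    obtain ⟨t, rfl⟩ := (hmem _ _).1 hx
    obtain ⟨t', h⟩ := (hmem _ _).1 hx'
    exact hef (by rw [(hg _ _ _ _ h).2])
  · rintro ⟨i, k, j, l, -, -, h1, h2, h3, h4, e, he, f, -, -, -, hc, -⟩
    obtain ⟨u, rfl⟩ := (hE2 e).1 he
    have hsub : e2 u ⊆ {(i, j), (i, l), (k, j), (k, l)} := by
      rw [← inter_eq_left]
      refine eq_of_subset_of_card_le inter_subset_left ?_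
      rw [hc]; exact card_le_two
    have hall : ∀ x ∈ ({(i, j), (i, l), (k, j), (k, l)} : Finset (Cell m n)),
        ∀ y ∈ ({(i, j), (i, l), (k, j), (k, l)} : Finset (Cell m n)), Occupied G (x.1, y.2) := by
      intro x hx y hy
      simp only [mem_insert, mem_singleton] at hx hy
      rcases hx with rfl | rfl | rfl | rfl <;> rcases hy with rfl | rfl | rfl | rfl <;> assumption
    have := hocc _ _ _ (hocc' _ (hall _ (hsub ((hmem u _).2 ⟨false, rfl⟩)) _
      (hsub ((hmem u _).2 ⟨true, rfl⟩))))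
    simp [g] at this
  · rintro ⟨i, p, k, j, q, l, he, -, -, -, -, h1, -, h2, -⟩
    obtain ⟨u, hu⟩ := (hE2' _).1 he
    have hall : ∀ y ∈ ({(i, j), (p, q)} : Finset (Cell m n)), Occupied12 G (k, y.2) := by
      intro y hy
      simp only [mem_insert, mem_singleton] at hy
      rcases hy with rfl | rfl <;> assumption
    rw [hu] at hall
    have h3 := hocc _ _ _ (hall _ ((hmem u _).2 ⟨false, rfl⟩))
    have h4 := hocc _ _ _ (hall _ ((hmem u _).2 ⟨true, rfl⟩))
    simp [h3] at h4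
  · rintro ⟨i, p, u, k, j, q, v, l, he, -⟩
    simp [G] at he
  · have h1 : E1.card = ∑ j, (col (c j)).card := by
      simp only [E1, card_filter]
      rw [Fintype.sum_prod_type_right]
      refine sum_congr rfl fun j _ => ?_
      simp
    have h2 := Fintype.card_congr c
    rw [h1, Equiv.sum_comp c (fun w => (col w).card), Fintype.sum_sum_type]
    have h3 : ∑ s : {s : Finset (Fin m) // s.card = 2}, (col (Sum.inl s)).card
        = ∑ s : {s : Finset (Fin m) // s.card = 2}, 2 := sum_congr rfl fun s _ => s.2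
    rw [h3]
    simp [col] at h2 ⊢
    omega
  · change a * b ≤ (univ.image e2).card
    rw [card_image_of_injective _ he2]; simp

lemma exists_graph (a b : ℕ) : ∃ G : AugGraph (2 * (a + 1)) ((2 * (a + 1)).choose 2 + 2 * b),
    Simple G ∧ CycleFree G ∧ G.E1.card = z (2 * (a + 1)) ((2 * (a + 1)).choose 2 + 2 * b) ∧
      a * b ≤ G.E2.card :=
  construction a b (Fintype.equivOfCardEq (by simp)) (Fintype.equivOfCardEq (by simp))

lemma total_le (G : AugGraph m n) : G.E1.card + G.E2.card + G.E3.card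
    ≤ Fintype.card (Cell m n) + Fintype.card (Finset (Cell m n))
      + Fintype.card (Finset (Cell m n)) :=
  add_le_add (add_le_add (card_le_univ _) (card_le_univ _)) (card_le_univ _)

lemma z3L_lower (a b : ℕ) : a * b ≤ z3L (2 * (a + 1)) ((2 * (a + 1)).choose 2 + 2 * b) := by
  obtain ⟨G, h1, h2, h3, h4⟩ := exists_graph a b
  refine le_trans (by omega : a * b ≤ G.E1.card + G.E2.card + G.E3.card)
    (le_csSup ?_ ⟨G, h1, h2, h3, rfl⟩)
  exact ⟨_, by rintro N ⟨G, -, -, -, rfl⟩; exact total_le G⟩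

lemma z3A_lower (a b : ℕ) : a * b ≤ z3A (2 * (a + 1)) ((2 * (a + 1)).choose 2 + 2 * b) := by
  obtain ⟨G, h1, h2, h3, h4⟩ := exists_graph a b
  refine le_trans (by omega : a * b ≤ G.E1.card + G.E2.card + G.E3.card)
    (le_csSup ?_ ⟨G, h1, h2, rfl⟩)
  exact ⟨_, by rintro N ⟨G, -, -, rfl⟩; exact total_le G⟩

lemma unbounded (w : ℕ → ℕ → ℕ)
    (hw : ∀ a b, a * b ≤ w (2 * (a + 1)) ((2 * (a + 1)).choose 2 + 2 * b)) :
    ¬ ∃ C : ℝ, ∀ m n : ℕ, 2 ≤ m → 2 ≤ n → (w m n : ℝ) ≤ C * (m * Real.sqrt n + n) := by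
  rintro ⟨C, hC⟩
  obtain ⟨a, ha⟩ := exists_nat_gt (max (8 * C) 1)
  have ha1 : (1 : ℝ) < a := (le_max_right _ _).trans_lt ha
  have ha2 : 8 * C < a := (le_max_left _ _).trans_lt ha
  have hn : (2 * (a + 1)).choose 2 + 2 * ((a + 1) * (a + 1)) ≤ 4 * ((a + 1) * (a + 1)) := by
    rw [Nat.choose_two_right]
    have : 2 * (a + 1) * (2 * (a + 1) - 1) / 2 ≤ 2 * ((a + 1) * (a + 1)) := by
      apply Nat.div_le_of_le_mul
      have : 2 * (a + 1) - 1 ≤ 2 * (a + 1) := Nat.sub_le _ _
      nlinarith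
    omega
  have h1 := hC (2 * (a + 1)) ((2 * (a + 1)).choose 2 + 2 * ((a + 1) * (a + 1))) (by omega)
    (by nlinarith [Nat.zero_le ((2 * (a + 1)).choose 2)])
  have h2 : ((a * ((a + 1) * (a + 1)) : ℕ) : ℝ) ≤ _ := Nat.cast_le.2 (hw a ((a + 1) * (a + 1)))
  generalize (2 * (a + 1)).choose 2 + 2 * ((a + 1) * (a + 1)) = N at h1 h2 hn
  have hn' : (N : ℝ) ≤ 4 * ((a + 1) * (a + 1)) := by exact_mod_cast hn
  have h3 : Real.sqrt N ≤ 2 * (a + 1) := by
    rw [Real.sqrt_le_left (by positivity)]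
    nlinarith
  have h4 := Real.sqrt_nonneg (N : ℝ)
  have h5 : (0 : ℝ) ≤ N := by positivity
  generalize Real.sqrt (N : ℝ) = s at h1 h3 h4
  push_cast at h1 h2
  have h6 : 2 * ((a : ℝ) + 1) * s + N ≤ 8 * ((a + 1) * (a + 1)) := by nlinarith
  have h7 : 0 ≤ 2 * ((a : ℝ) + 1) * s + N := by positivity
  have h8 : (0 : ℝ) < (a + 1) * (a + 1) := by positivity
  rcases le_or_gt C 0 with h | h
  · nlinarith
  · nlinarith

end Pool.Agent.Lib.helper32.AugZar
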