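import Mathlib

set_option autoImplicit false

namespace Pool.Agent.Lib.helper32.Coset

open Set Filter Topology BoundedContinuousFunction

def E : Type := ℕ →ᵇ ℝ
noncomputable instance : NormedAddCommGroup E := inferInstanceAs (NormedAddCommGroup (ℕ →ᵇ ℝ))
noncomputable instance : NormedSpace ℝ E := inferInstanceAs (NormedSpace ℝ (ℕ →ᵇ ℝ))
noncomputable instance : Module ℚ E := inferInstanceAs (Module ℚ (ℕ →ᵇ ℝ))
instance : CompleteSpace E := inferInstanceAs (CompleteSpace (ℕ →ᵇ ℝ))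
def E.fn (x : E) : ℕ → ℝ := DFunLike.coe (F := ℕ →ᵇ ℝ) x
instance : CoeFun E fun _ => ℕ → ℝ := ⟨E.fn⟩
@[simp] lemma add_ap (x y : E) (i : ℕ) : (x + y) i = x i + y i := rfl
@[simp] lemma sub_ap (x y : E) (i : ℕ) : (x - y) i = x i - y i := rfl
@[simp] lemma smul_ap (c : ℝ) (y : E) (i : ℕ) : (c • y) i = c * y i := rfl
@[simp] lemma qsmul_ap (c : ℚ) (y : E) (i : ℕ) : (c • y) i = c • y i := rfl
@[simp] lemma neg_ap (y : E) (i : ℕ) : (-y) i = -y i := rfl
@[simp] lemma zero_ap (i : ℕ) : (0 : E) i = 0 := rfl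
lemma E.ext {x y : E} (h : ∀ i, x i = y i) : x = y := BoundedContinuousFunction.ext h
lemma norm_le' {x : E} {C : ℝ} (h0 : 0 ≤ C) (h : ∀ i, |x i| ≤ C) : ‖x‖ ≤ C := (norm_le h0).2 h

noncomputable def mkE (f : ℕ → ℝ) (C : ℝ) (h : ∀ i, |f i| ≤ C) : E := ofNormedAddCommGroupDiscrete f C h

@[simp] lemma mkE_apply (f : ℕ → ℝ) (C : ℝ) (h : ∀ i, |f i| ≤ C) (i : ℕ) : mkE f C h i = f i := rfl

noncomputable def e (i : ℕ) : E := mkE (fun j => if j = i then 1 else 0) 1 fun j => by split_ifs <;> simp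

lemma e_apply (i j : ℕ) : e i j = if j = i then 1 else 0 := rfl

noncomputable def ev (i : ℕ) : E →L[ℝ] ℝ := evalCLM ℝ i

@[simp] lemma ev_apply (i : ℕ) (x : E) : ev i x = x i := rfl

lemma abs_ap (x : E) (i : ℕ) : |x i| ≤ ‖x‖ := norm_coe_le_norm x i

lemma norm_ev (i : ℕ) : ‖ev i‖ ≤ 1 := ContinuousLinearMap.opNorm_le_bound _ zero_le_one fun x => by
  simpa using abs_ap x i

noncomputable def V : Submodule ℚ E := Submodule.span ℚ (range e)

lemma e_V (i : ℕ) : e i ∈ V := Submodule.subset_span ⟨i, rfl⟩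

lemma smul_V (q : ℚ) {x : E} (h : x ∈ V) : (q : ℝ) • x ∈ V := by
  rw [Rat.cast_smul_eq_qsmul]; exact V.smul_mem q h

lemma supp_ind {P : E → Prop} (h0 : P 0) (h1 : ∀ x N, (∀ i, N < i → x i = 0) → P (x - x N • e N) → P x)
    (N : ℕ) : ∀ x : E, (∀ i, N ≤ i → x i = 0) → P x := by
  induction N with
  | zero => intro x h; rw [show x = 0 from E.ext fun i => h i i.zero_le]; exact h0
  | succ N ih =>
    refine fun x h => h1 x N h (ih _ fun i hi => ?_)
    rcases hi.eq_or_lt with rfl | hi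
    · simp [e_apply]
    · simp [e_apply, h i hi, hi.ne']

lemma mem_V {x : E} : x ∈ V ↔ (∀ i, ∃ q : ℚ, x i = q) ∧ ∃ N, ∀ i, N ≤ i → x i = 0 := by
  constructor
  · intro h
    induction h using Submodule.span_induction with
    | mem x h =>
      obtain ⟨i, rfl⟩ := h
      exact ⟨fun j => ⟨if j = i then 1 else 0, by rw [e_apply]; split_ifs <;> simp⟩, i + 1,
        fun j hj => if_neg (by omega)⟩
    | zero => exact ⟨fun _ => ⟨0, by simp⟩, 0, fun _ _ => rfl⟩
    | add x y _ _ hx hy =>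
      obtain ⟨N, hN⟩ := hx.2
      obtain ⟨M, hM⟩ := hy.2
      refine ⟨fun i => ?_, N + M, fun i hi => by simp [hN i (by omega), hM i (by omega)]⟩
      obtain ⟨q, hq⟩ := hx.1 i
      obtain ⟨r, hr⟩ := hy.1 i
      exact ⟨q + r, by simp [hq, hr]⟩
    | smul a x _ hx =>
      obtain ⟨N, hN⟩ := hx.2
      refine ⟨fun i => ?_, N, fun i hi => by simp [hN i hi]⟩
      obtain ⟨q, hq⟩ := hx.1 i
      exact ⟨a * q, by simp [hq, Rat.smul_def]⟩
  · rintro ⟨h1, N, h2⟩
    refine supp_ind (P := fun x => (∀ i, ∃ q : ℚ, x i = q) → x ∈ V) (fun _ => V.zero_mem)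
      (fun x N _ ih h => ?_) N x h2 h1
    obtain ⟨q, hq⟩ := h N
    have h3 : x N • e N ∈ V := hq ▸ smul_V q (e_V N)
    refine (V.sub_mem_iff_left h3).1 (ih fun i => ?_)
    obtain ⟨r, hr⟩ := h i
    exact ⟨r - if i = N then q else 0, by split_ifs with c <;> simp [e_apply, c, hq, ← hr]⟩

lemma closed_tendsto {X : Type} [NormedAddCommGroup X] [NormedSpace ℝ X] {F : Type} [NormedAddCommGroup F]
    [NormedSpace ℝ F] (f : ℕ → X →L[ℝ] F) (C : ℝ) (h : ∀ n, ‖f n‖ ≤ C) :
    IsClosed {x | Tendsto (fun n => f n x) atTop (𝓝 0)} :=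
  (LipschitzWith.uniformEquicontinuous (fun n => f n) ⟨C, (norm_nonneg _).trans (h 0)⟩ fun n =>
    (f n).lipschitz.weaken (h n)).equicontinuous.isClosed_setOf_tendsto continuous_const

def C0 : Submodule ℝ E where
  carrier := {x | x 0 = 0 ∧ x 1 = 0 ∧ Tendsto (fun i => x i) atTop (𝓝 0)}
  add_mem' := fun a b => ⟨by simp [a.1, b.1], by simp [a.2.1, b.2.1], by simpa using a.2.2.add b.2.2⟩
  zero_mem' := ⟨rfl, rfl, tendsto_const_nhds⟩
  smul_mem' := fun c x a => ⟨by simp [a.1], by simp [a.2.1], by simpa using a.2.2.const_mul c⟩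

lemma C0_closed : IsClosed (C0 : Set E) := (isClosed_eq (ev 0).continuous continuous_const).inter
  ((isClosed_eq (ev 1).continuous continuous_const).inter (closed_tendsto ev 1 norm_ev))

lemma C0_of {x : E} (h0 : x 0 = 0) (h1 : x 1 = 0) {N : ℕ} (h : ∀ i, N ≤ i → x i = 0) : x ∈ C0 :=
  ⟨h0, h1, tendsto_const_nhds.congr' ((eventually_ge_atTop N).mono fun i hi => (h i hi).symm)⟩

lemma e_C0 {i : ℕ} (h : 2 ≤ i) : e i ∈ C0 :=
  C0_of (if_neg (by omega)) (if_neg (by omega)) (N := i + 1) fun j hj => if_neg (by omega)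

lemma approx {d : E} (hd : d ∈ C0) {ε : ℝ} (h : 0 < ε) (i : ℕ) :
    ∃ u ∈ V, u ∈ C0 ∧ ‖u - d‖ ≤ ε ∧ 1 + u i ≠ 0 := by
  obtain ⟨N, hN⟩ := eventually_atTop.1 (hd.2.2.abs.eventually (gt_mem_nhds (show |(0 : ℝ)| < ε by simpa)))
  have ex : ∀ r : ℝ, ∃ q : ℚ, |q - r| ≤ ε ∧ (1 : ℝ) + q ≠ 0 := fun r => by
    by_cases c : r < -1
    · obtain ⟨q, a, b⟩ := exists_rat_btwn (show r - ε < r by linarith)
      exact ⟨q, abs_le.2 ⟨by linarith, by linarith⟩, by linarith⟩
    · obtain ⟨q, a, b⟩ := exists_rat_btwn (show r < r + ε by linarith)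
      exact ⟨q, abs_le.2 ⟨by linarith, by linarith⟩, by linarith⟩
  choose q q1 q2 using ex
  have b : ∀ j, |(if 2 ≤ j ∧ j < N then (q (d j) : ℝ) else 0) - d j| ≤ ε := fun j => by
    split_ifs with c
    · exact q1 _
    rcases (by omega : j = 0 ∨ j = 1 ∨ N ≤ j) with rfl | rfl | c
    · simp [hd.1, h.le]
    · simp [hd.2.1, h.le]
    · simpa using (hN j c).le
  refine ⟨mkE _ ε b + d, mem_V.2 ⟨fun j => ?_, N, fun j hj => by simp [hj.not_gt]⟩,
    C0_of (by simp) (by simp) (N := N) fun j hj => by simp [hj.not_gt],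
    by rw [add_sub_cancel_right]; exact norm_le' h.le b, ?_⟩
  · exact ⟨if 2 ≤ j ∧ j < N then q (d j) else 0, by split_ifs with c <;> simp [c]⟩
  · by_cases c : 2 ≤ i ∧ i < N <;> simp [c, q2]

noncomputable def K : Submodule ℝ (E →L[ℝ] E) :=
  (Submodule.span ℝ {T | ∃ j, ∃ v ∈ C0, T = (ev j).smulRight v}).topologicalClosure

lemma K_ind {P : Submodule ℝ (E →L[ℝ] E)} (h : IsClosed (P : Set (E →L[ℝ] E)))
    (h1 : ∀ j, ∀ v ∈ C0, (ev j).smulRight v ∈ P) : K ≤ P :=
  Submodule.topologicalClosure_minimal _ (Submodule.span_le.2 fun _ ⟨j, v, hv, e⟩ => e ▸ h1 j v hv) h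

lemma K_gen (j : ℕ) {v : E} (h : v ∈ C0) : (ev j).smulRight v ∈ K :=
  Submodule.le_topologicalClosure _ (Submodule.subset_span ⟨j, v, h, rfl⟩)

lemma K_closed : IsClosed (K : Set (E →L[ℝ] E)) := Submodule.isClosed_topologicalClosure _

lemma K_apply {T : E →L[ℝ] E} (h : T ∈ K) (x : E) : T x ∈ C0 :=
  K_ind (P := C0.comap (ContinuousLinearMap.apply ℝ E x).toLinearMap)
    (C0_closed.preimage (ContinuousLinearMap.apply ℝ E x).continuous) (fun j v hv => C0.smul_mem _ hv) h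

lemma K_left {g T : E →L[ℝ] E} (hg : ∀ x ∈ C0, g x ∈ C0) (h : T ∈ K) : g * T ∈ K :=
  K_ind (P := K.comap (LinearMap.mulLeft ℝ g)) (K_closed.preimage (continuous_const_mul g))
    (fun j v hv => by
      have : g * (ev j).smulRight v = (ev j).smulRight (g v) := by ext x; simp
      exact (this ▸ K_gen j (hg v hv) : g * _ ∈ K)) h

lemma K_zero {T : E →L[ℝ] E} (h : T ∈ K) (h0 : ∀ j, T (e j) = 0) : T = 0 := by
  refine ContinuousLinearMap.ext fun x => ?_
  let y : ℕ → E := fun n => mkE (fun i => if i < n then 0 else x i) ‖x‖ fun i => by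
    split_ifs; exacts [by simp, abs_ap x i]
  have h1 : ∀ n, T (y n) = T x := fun n => by
    rw [eq_comm, ← sub_eq_zero, ← map_sub]
    exact supp_ind (P := fun x => T x = 0) (map_zero T) (fun x N _ h => by simpa [h0] using h) n _
      fun i hi => by simp [y, hi.not_gt]
  let P : Submodule ℝ (E →L[ℝ] E) :=
    { carrier := {S | Tendsto (fun n => ContinuousLinearMap.apply ℝ E (y n) S) atTop (𝓝 0)}
      add_mem' := fun a b => by simpa using Tendsto.add a b
      zero_mem' := by simp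
      smul_mem' := fun c S a => by simpa using Tendsto.const_smul a c }
  have : T ∈ P := K_ind (P := P) (closed_tendsto _ ‖x‖ fun n => ContinuousLinearMap.opNorm_le_bound _
    (norm_nonneg _) fun S => (S.le_opNorm _).trans (by
      rw [mul_comm]; gcongr; exact norm_le' (norm_nonneg x) fun i => by
        simp only [y, mkE_apply]; split_ifs; exacts [by simp, abs_ap x i]))
    (fun j v _ => tendsto_const_nhds.congr' ((eventually_gt_atTop j).mono fun n hn => by simp [y, hn])) h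
  exact tendsto_nhds_unique tendsto_const_nhds (Tendsto.congr h1 this)

lemma K_sep : TopologicalSpace.IsSeparable (K : Set (E →L[ℝ] E)) := by
  have h1 : TopologicalSpace.IsSeparable (C0 : Set E) := ⟨V, @Set.to_countable _ _
    (inferInstanceAs (Countable (Submodule.span ℚ (range e)))), fun d hd =>
    Metric.mem_closure_iff.2 fun ε h => let ⟨u, a, _, b, _⟩ := approx hd (half_pos h) 0
      ⟨u, a, by rw [dist_comm, dist_eq_norm]; linarith⟩⟩
  refine (TopologicalSpace.IsSeparable.span ((TopologicalSpace.IsSeparable.iUnion fun j => h1.image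
    (ContinuousLinearMap.smulRightL ℝ E E (ev j)).continuous).mono ?_)).closure
  rintro _ ⟨j, v, hv, rfl⟩
  exact mem_iUnion.2 ⟨j, v, hv, rfl⟩

def D : Type := V
instance : Countable D := inferInstanceAs (Countable (Submodule.span ℚ (range e)))
instance : TopologicalSpace D := ⊥
instance : DiscreteTopology D := ⟨rfl⟩
def D.val (d : D) : E := Subtype.val d

def P : Type := Equiv.Perm D
instance : Group P := inferInstanceAs (Group (Equiv.Perm D))
def P.fn (π : P) : (D → D) × (D → D) := (Equiv.toFun π, Equiv.invFun π)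
instance : TopologicalSpace P := TopologicalSpace.induced P.fn inferInstance

lemma P_cont (d : D) : Continuous fun π : P => π.fn.1 d :=
  (continuous_apply d).comp (continuous_fst.comp continuous_induced_dom)

lemma P_cont' (d : D) : Continuous fun π : P => π.fn.2 d :=
  (continuous_apply d).comp (continuous_snd.comp continuous_induced_dom)

lemma ev_cont {X : Type} [TopologicalSpace X] {f : X → D → D} {g : X → D} (hf : ∀ d, Continuous fun x => f x d)
    (hg : Continuous g) : Continuous fun x => f x (g x) := continuous_iff_continuousAt.2 fun x =>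
  (hf (g x)).continuousAt.congr (((isOpen_discrete {g x}).preimage hg).mem_nhds rfl |> fun h =>
    mem_of_superset h fun y (hy : g y = g x) => by simp [hy])

instance : IsTopologicalGroup P where
  continuous_mul := continuous_induced_rng.2 (Continuous.prodMk
    (continuous_pi fun d => ev_cont (f := fun p : P × P => p.1.fn.1) (fun d => (P_cont d).comp continuous_fst)
      ((P_cont d).comp continuous_snd))
    (continuous_pi fun d => ev_cont (f := fun p : P × P => p.2.fn.2) (fun d => (P_cont' d).comp continuous_snd)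
      ((P_cont' d).comp continuous_fst)))
  continuous_inv := continuous_induced_rng.2 ((continuous_pi P_cont').prodMk (continuous_pi P_cont))

instance : PolishSpace P := by
  have : PolishSpace ((D → D) × (D → D)) := {}
  refine IsClosedEmbedding.polishSpace (f := P.fn) ⟨⟨⟨rfl⟩, fun a b h => Equiv.ext fun d =>
    congrFun (congrArg Prod.fst h) d⟩, ?_⟩
  have : range P.fn = (⋂ d, {p | p.2 (p.1 d) = d}) ∩ ⋂ d, {p | p.1 (p.2 d) = d} := by
    ext p
    simp only [mem_inter_iff, mem_iInter]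
    exact ⟨fun ⟨π, h⟩ => h ▸ ⟨Equiv.left_inv π, Equiv.right_inv π⟩, fun h => ⟨Equiv.mk p.1 p.2 h.1 h.2, rfl⟩⟩
  rw [this]
  exact (isClosed_iInter fun d => isClosed_eq (ev_cont (fun d => by fun_prop) (by fun_prop)) continuous_const).inter
    (isClosed_iInter fun d => isClosed_eq (ev_cont (fun d => by fun_prop) (by fun_prop)) continuous_const)

abbrev U := (E →L[ℝ] E)ˣ

lemma one_add {g : E →L[ℝ] E} (h : g - 1 ∈ K) (x : E) : g x - x ∈ C0 := K_apply h x

noncomputable def G : Subgroup (U × P) where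
  carrier := {p | p.1.1 - 1 ∈ K ∧ ∀ d, p.1.1 d.val = (p.2.fn.1 d).val}
  one_mem' := ⟨by simp, fun _ => rfl⟩
  mul_mem' := fun {a b} ha hb => ⟨by
    have := K.add_mem ha.1 (K_left (g := a.1.1) (fun x hx => by
      simpa using C0.add_mem (one_add ha.1 x) hx) hb.1)
    convert! this using 1; simp [mul_sub], fun d => (congrArg a.1.1 (hb.2 d)).trans (ha.2 _)⟩
  inv_mem' := fun {a} ha => by
    have h1 : ∀ x, a.1.1 (a.1.inv x) = x := fun x => congrArg (fun T : E →L[ℝ] E => T x) a.1.val_inv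
    have h2 : ∀ x, a.1.inv (a.1.1 x) = x := fun x => congrArg (fun T : E →L[ℝ] E => T x) a.1.inv_val
    refine ⟨?_, fun d => ?_⟩
    · have := K.neg_mem (K_left (g := a.1.inv) (fun x hx => by
        have := C0.sub_mem hx (one_add ha.1 (a.1.inv x))
        rwa [h1, sub_sub_cancel] at this) ha.1)
      convert! this using 1; simp [mul_sub]
    · refine Eq.trans ?_ (h2 _)
      rw [ha.2]
      exact congrArg (fun d : D => a.1.inv d.val) (Equiv.right_inv a.2 d).symm

lemma G_closed : IsClosed (G : Set (U × P)) :=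
  (K_closed.preimage (f := fun p : U × P => p.1.1 - 1) (by fun_prop)).inter (by
    show IsClosed {p : U × P | ∀ d, p.1.1 (D.val d) = (p.2.fn.1 d).val}
    rw [setOf_forall]
    exact isClosed_iInter fun d => isClosed_eq (f := fun p : U × P => p.1.1 d.val) (by fun_prop)
      ((continuous_of_discreteTopology (f := D.val)).comp ((P_cont d).comp continuous_snd)))

instance : PolishSpace G := by
  have h1 : TopologicalSpace.IsCompletelyMetrizableSpace U :=
    (MulOpposite.opHomeomorph.symm.isClosedEmbedding.IsCompletelyMetrizableSpace (X := (E →L[ℝ] E)ᵐᵒᵖ)) |>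
      fun _ => Units.isClosedEmbedding_embedProduct.IsCompletelyMetrizableSpace
  have h2 : TopologicalSpace.IsCompletelyMetrizableSpace G :=
    G_closed.isClosedEmbedding_subtypeVal.IsCompletelyMetrizableSpace
  have h3 : TopologicalSpace.SeparableSpace K := K_sep.separableSpace
  have h4 : SecondCountableTopology G := by
    refine IsInducing.secondCountableTopology (f := fun g : G => ((⟨g.1.1.1 - 1, g.2.1⟩ : K), g.1.2))
      (IsInducing.of_comp (g := fun p : K × P => (p.1.1 + 1, p.2)) (by fun_prop) (by fun_prop) ?_)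
    simpa [Function.comp_def, Prod.map] using (Units.isOpenEmbedding_val.isInducing.prodMap IsInducing.id).comp
      (IsInducing.subtypeVal (t := (G : Set (U × P))))
  exact {}

def act (g : G) : E →L[ℝ] E := g.1.1.1

@[simp] lemma act_mul (g h : G) (x : E) : act (g * h) x = act g (act h x) := rfl
@[simp] lemma act_one (x : E) : act 1 x = x := rfl
@[simp] lemma act_inv (g : G) (x : E) : act g (act g⁻¹ x) = x := by rw [← act_mul, mul_inv_cancel, act_one]
@[simp] lemma inv_act (g : G) (x : E) : act g⁻¹ (act g x) = x := by rw [← act_mul, inv_mul_cancel, act_one]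

lemma act_cont (x : E) : Continuous fun g : G => act g x := by unfold act; fun_prop

lemma act_ext {g h : G} (H : ∀ x, act g x = act h x) : g = h :=
  Subtype.ext (Prod.ext (Units.ext (ContinuousLinearMap.ext H)) (Equiv.ext fun d =>
    Subtype.ext ((g.2.2 d).symm.trans ((H _).trans (h.2.2 d)))))

lemma act_V (g : G) {x : E} (h : x ∈ V) : act g x ∈ V := (g.2.2 ⟨x, h⟩).symm ▸ (g.1.2.fn.1 ⟨x, h⟩).2

lemma act_sub (g : G) (x : E) : act g x - x ∈ C0 := one_add g.2.1 x

lemma act_C0 (g : G) {x : E} (h : x ∈ C0) : act g x ∈ C0 := by simpa using C0.add_mem (act_sub g x) h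

lemma act_0 (g : G) (x : E) : act g x 0 = x 0 := sub_eq_zero.1 (act_sub g x).1
lemma act_1 (g : G) (x : E) : act g x 1 = x 1 := sub_eq_zero.1 (act_sub g x).2.1

lemma mkG (g : U) (h1 : g.1 - 1 ∈ K) (h2 : ∀ x ∈ V, g.1 x ∈ V) (h3 : ∀ x ∈ V, ∃ y ∈ V, g.1 y = x) :
    ∃ γ : G, act γ = g.1 := by
  have h4 : ∀ x, g.inv (g.1 x) = x := fun x => congrArg (fun T : E →L[ℝ] E => T x) g.inv_val
  exact ⟨⟨(g, Equiv.ofBijective (fun d : V => (⟨g.1 d.1, h2 _ d.2⟩ : V)) ⟨fun a b h => Subtype.ext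
    ((h4 _).symm.trans ((congrArg (fun d : V => g.inv d.1) h).trans (h4 _))), fun d =>
      let ⟨y, a, b⟩ := h3 _ d.2; ⟨⟨y, a⟩, Subtype.ext b⟩⟩), h1, fun _ => rfl⟩, rfl⟩

lemma rank1 {t : E} (h1 : t ∈ V) (h2 : t ∈ C0) (i j : ℕ) (q : ℚ) (h : 1 + (t i + q * t j) ≠ 0) :
    ∃ γ : G, ∀ x, act γ x = x + (x i + q * x j) • t := by
  set T : E →L[ℝ] E := (ev i).smulRight t + (q : ℝ) • (ev j).smulRight t with hT
  have a1 : ∀ x, T x = (x i + q * x j) • t := fun x => by simp [hT, add_smul, mul_smul]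
  have a2 : ∀ x ∈ V, ∃ r : ℚ, x i + q * x j = r := fun x hx => by
    obtain ⟨a, ha⟩ := (mem_V.1 hx).1 i
    obtain ⟨b, hb⟩ := (mem_V.1 hx).1 j
    exact ⟨a + q * b, by simp [ha, hb]⟩
  obtain ⟨r, hr⟩ := a2 t h1
  have a3 : ∀ x, (1 + T) ((1 - (1 + (r : ℝ))⁻¹ • T) x) = x := fun x => E.ext fun k => by
    rw [hr] at h
    have : t i = r - q * t j := by linarith
    simp [a1, this]; field_simp; ring
  have a4 : ∀ x, (1 - (1 + (r : ℝ))⁻¹ • T) ((1 + T) x) = x := fun x => E.ext fun k => by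
    rw [hr] at h
    have : t i = r - q * t j := by linarith
    simp [a1, this]; field_simp; ring
  obtain ⟨γ, hγ⟩ := mkG ⟨1 + T, 1 - (1 + (r : ℝ))⁻¹ • T, ContinuousLinearMap.ext a3, ContinuousLinearMap.ext a4⟩
    (by simpa using K.add_mem (K_gen i h2) (K.smul_mem (q : ℝ) (K_gen j h2))) (fun x hx => by
      obtain ⟨s, hs⟩ := a2 x hx
      simpa [a1, hs] using V.add_mem hx (smul_V s h1)) fun x hx => ⟨_, by
        obtain ⟨s, hs⟩ := a2 x hx
        simpa [a1, hs, mul_smul] using V.sub_mem hx (smul_V ((1 + r)⁻¹ * s) h1), a3 x⟩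
  exact ⟨γ, fun x => by simp [hγ, a1]⟩

noncomputable def z : E := mkE (fun i => if i = 1 then √2 else 1) √2 fun i => by
  split_ifs <;> simp [abs_of_nonneg, Real.one_le_sqrt]

lemma z_ap {i : ℕ} (h : i ≠ 1) : z i = 1 := if_neg h

lemma small {d : E} (hd : d ∈ C0) {ε : ℝ} (h0 : 0 < ε) (h1 : ε < 1 / 4) (h2 : ‖d‖ ≤ ε) (n : ℕ) :
    ∃ γ : G, act γ z = z + d ∧ ‖act γ - 1‖ ≤ 4 * ε ∧ ∀ x : E, (∀ i, n ≤ i → x i = 0) → act γ x = x := by
  have ex : ∀ m : ℕ, ∃ u ∈ V, u ∈ C0 ∧ ‖u - d‖ ≤ ε * (1 / 2) ^ m ∧ (m = 0 → u = 0) := fun m => by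
    rcases m with _ | m
    · exact ⟨0, V.zero_mem, C0.zero_mem, by simpa using h2, fun _ => rfl⟩
    · obtain ⟨u, a, b, c, -⟩ := approx hd (show 0 < ε * (1 / 2) ^ (m + 1) by positivity) 0
      exact ⟨u, a, b, c, by simp⟩
  choose u u1 u2 u3 u4 using ex
  obtain ⟨t, ht⟩ : ∃ t : ℕ → E, ∀ m, t m = u (m + 1) - u m := ⟨_, fun _ => rfl⟩
  have t1 : ∀ m, t m ∈ V := fun m => ht m ▸ V.sub_mem (u1 _) (u1 _)
  have t3 : ∀ m, ‖t m‖ ≤ 2 * ε * (1 / 2) ^ m := fun m => by
    have := norm_sub_le (u (m + 1) - d) (u m - d)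
    rw [sub_sub_sub_cancel_right] at this
    have h3 := u3 (m + 1)
    have : 0 < ε * (1 / 2) ^ m := by positivity
    rw [pow_succ] at h3
    simp only [ht]; nlinarith [u3 m]
  choose N' hN' using fun m => (mem_V.1 (t1 m)).2
  obtain ⟨N, hN⟩ : ∃ N : ℕ → ℕ, ∀ m, N m = N' m + n + m + 2 := ⟨_, fun _ => rfl⟩
  have s0 : HasSum (fun m : ℕ => 2 * ε * (1 / 2 : ℝ) ^ m) (2 * ε * 2) := hasSum_geometric_two.mul_left _
  have s1 : ∀ m, ‖(ev (N m)).smulRight (t m)‖ ≤ 2 * ε * (1 / 2) ^ m := fun m => by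
    rw [ContinuousLinearMap.norm_smulRight_apply]
    exact (mul_le_of_le_one_left (norm_nonneg _) (norm_ev _)).trans (t3 m)
  obtain ⟨T, hT⟩ := Summable.of_norm_bounded s0.summable s1
  have s2 : ‖T‖ ≤ 4 * ε := (hT.norm_le_of_bounded s0 s1).trans (by linarith)
  have s3 : ∀ x, HasSum (fun m => x (N m) • t m) (T x) := fun x => (ContinuousLinearMap.apply ℝ E x).hasSum hT
  have s4 : T ∈ K := K_closed.mem_of_tendsto hT (Eventually.of_forall fun s =>
    K.sum_mem fun m _ => K_gen _ (ht m ▸ C0.sub_mem (u2 _) (u2 _)))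
  have s5 : ∀ k, T (e k) ∈ V ∧ ∀ i, k ≤ i → T (e k) i = 0 := fun k => by
    rw [(s3 _).unique (hasSum_sum_of_ne_finset_zero (s := Finset.range k) fun m hm => by
      rw [e_apply, if_neg (by simp at hm; simp only [hN]; omega), zero_smul])]
    refine Finset.sum_induction _ (fun x : E => x ∈ V ∧ ∀ i, k ≤ i → x i = 0) (fun a b ha hb =>
      ⟨V.add_mem ha.1 hb.1, fun i hi => by simp [ha.2 i hi, hb.2 i hi]⟩) ⟨V.zero_mem, fun _ _ => rfl⟩ fun m _ => ?_
    rw [e_apply]
    split_ifs with c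
    · exact ⟨by simpa using t1 m, fun i hi => by simp [hN' m i (by simp only [hN] at c; omega)]⟩
    · simp
  have s6 : ∀ x ∈ V, T x ∈ V := fun x hx => by
    induction hx using Submodule.span_induction with
    | mem x h => obtain ⟨i, rfl⟩ := h; exact (s5 i).1
    | zero => simp
    | add x y _ _ a b => simpa using V.add_mem a b
    | smul a x _ b => rw [← Rat.cast_smul_eq_qsmul ℝ, map_smul]; exact smul_V a b
  have s7 : ∀ M : ℕ, ∀ x ∈ V, (∀ i, M ≤ i → x i = 0) → ∃ y ∈ V, y + T y = x := fun M => by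
    induction M with
    | zero => exact fun x _ h => ⟨0, V.zero_mem, by simpa using E.ext (x := 0) fun i => (h i i.zero_le).symm⟩
    | succ M ih =>
      intro x hx h
      obtain ⟨q, hq⟩ := (mem_V.1 hx).1 M
      obtain ⟨y, y1, y2⟩ := ih (x - (q : ℝ) • e M - (q : ℝ) • T (e M)) (V.sub_mem (V.sub_mem hx (smul_V q (e_V M)))
        (smul_V q (s5 M).1)) fun i hi => by
          rcases hi.eq_or_lt with rfl | hi'
          · simp [e_apply, hq, (s5 _).2 _ hi]
          · simp [e_apply, h i hi', hi'.ne', (s5 _).2 _ hi]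
      exact ⟨y + (q : ℝ) • e M, V.add_mem y1 (smul_V q (e_V M)), by
        rw [map_add, map_smul, add_add_add_comm, y2]; abel⟩
  obtain ⟨γ, hγ⟩ := mkG (Units.oneSub (-T) (by rw [norm_neg]; linarith)) (by simpa using s4)
    (fun x hx => by simpa using V.add_mem hx (s6 x hx)) fun x hx => by
      simpa using (mem_V.1 hx).2.elim fun M => s7 M x hx
  refine ⟨γ, ?_, by simpa [hγ] using s2, fun x hx => ?_⟩
  · have a1 := (s3 z).tendsto_sum_nat
    have a2 : Tendsto u atTop (𝓝 d) := tendsto_iff_norm_sub_tendsto_zero.2 (squeeze_zero (fun _ => norm_nonneg _) u3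
      (by simpa using (tendsto_pow_atTop_nhds_zero_of_lt_one (r := (1 / 2 : ℝ)) (by simp) (by norm_num)).const_mul ε))
    simp only [fun m => z_ap (show N m ≠ 1 by simp only [hN]; omega), one_smul, ht, Finset.sum_range_sub,
      u4 0 rfl, sub_zero] at a1
    simp [hγ, tendsto_nhds_unique a1 a2]
  · have := s3 x
    simp only [fun m => hx (N m) (by simp only [hN]; omega), zero_smul] at this
    simp [hγ, this.unique hasSum_zero]

lemma tends {σ : ℕ → G} (h1 : Tendsto (fun n => ‖act (σ n) - 1‖) atTop (𝓝 0))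
    (h2 : ∀ n (x : E), (∀ i, n ≤ i → x i = 0) → act (σ n) x = x) : Tendsto σ atTop (𝓝 1) := by
  have h3 : ∀ d : D, ∀ᶠ n in atTop, (σ n).1.2.fn.1 d = d := fun d =>
    (mem_V.1 d.2).2.elim fun N hN => (eventually_ge_atTop N).mono fun n hn =>
      Subtype.ext (((σ n).2.2 d).symm.trans (h2 n _ fun i hi => hN i (hn.trans hi)))
  refine tendsto_subtype_rng.2 (Tendsto.prodMk_nhds (Units.isOpenEmbedding_val.tendsto_nhds_iff.2
    (tendsto_iff_norm_sub_tendsto_zero.2 h1)) (IsInducing.tendsto_nhds_iff (g := P.fn) ⟨rfl⟩ |>.2 ?_))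
  exact Tendsto.prodMk_nhds (tendsto_pi_nhds.2 fun d => tendsto_const_nhds.congr' ((h3 d).mono fun n h => h.symm))
    (tendsto_pi_nhds.2 fun d => tendsto_const_nhds.congr' ((h3 d).mono fun n h =>
      ((Equiv.symm_apply_eq (σ n).1.2).2 h.symm).symm))

noncomputable def H : Subgroup G where
  carrier := {g | act g z = z}
  one_mem' := rfl
  mul_mem' := fun {a b} (ha : _ = _) (hb : _ = _) => show act a (act b z) = z by rw [hb, ha]
  inv_mem' := fun {a} (ha : _ = _) => show _ = _ by conv_lhs => rw [← ha, inv_act]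

lemma H_closed : IsClosed (H : Set G) := isClosed_eq (act_cont z) continuous_const

lemma tr {i : ℕ} (h : 2 ≤ i) : ∃ γ : G, act γ z = z + e i := by
  obtain ⟨γ, hγ⟩ := rank1 (e_V i) (e_C0 h) 0 0 0 (by simp [e_apply, show 0 ≠ i by omega])
  exact ⟨γ, by simp [hγ, z_ap]⟩

lemma H_ne : H ≠ ⊤ := fun h => by
  obtain ⟨γ, hγ⟩ := tr le_rfl
  have : act γ z = z := (h ▸ Subgroup.mem_top γ : γ ∈ H)
  simpa [this, e_apply] using congrArg (fun x : E => x 2) hγ

lemma H_core : H.normalCore = ⊥ := by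
  refine (Subgroup.eq_bot_iff_forall _).2 fun g hg => ?_
  have h0 : act g z = z := H.normalCore_le hg
  set T := act g - 1 with hT
  have hz : T z = 0 := by simp [hT, h0]
  have h2 : ∀ i, 2 ≤ i → T (e i) = 0 := fun i hi => by
    obtain ⟨γ, hγ⟩ := tr hi
    have := congrArg (act γ) (show act γ⁻¹ (act g (act γ⁻¹⁻¹ z)) = z from hg γ⁻¹)
    rw [act_inv, inv_inv, hγ, map_add, h0, add_right_inj] at this
    simp [hT, this]
  have h3 := K_zero (K.sub_mem (K.sub_mem g.2.1 (K_gen 0 (act_sub g (e 0)))) (K_gen 1 (act_sub g (e 1)))) fun j => by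
    show T (e j) - e j 0 • T (e 0) - e j 1 • T (e 1) = 0
    rcases (by omega : j = 0 ∨ j = 1 ∨ 2 ≤ j) with rfl | rfl | c
    · simp [e_apply]
    · simp [e_apply]
    · simp [e_apply, h2 j c, show 0 ≠ j by omega, show 1 ≠ j by omega]
  have h4 : ∀ x, T x - x 0 • T (e 0) - x 1 • T (e 1) = 0 := fun x => congrArg (fun S : E →L[ℝ] E => S x) h3
  have h5 : ∀ k, T (e 0) k = 0 ∧ T (e 1) k = 0 := fun k => by
    obtain ⟨a, ha⟩ : ∃ q : ℚ, T (e 0) k = q := (mem_V.1 (V.sub_mem (act_V g (e_V 0)) (e_V 0))).1 k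
    obtain ⟨b, hb⟩ : ∃ q : ℚ, T (e 1) k = q := (mem_V.1 (V.sub_mem (act_V g (e_V 1)) (e_V 1))).1 k
    have := congrArg (fun x : E => x k) (h4 z)
    simp only [hz, sub_ap, smul_ap, zero_ap, ha, hb, z_ap zero_ne_one, show z 1 = √2 from rfl] at this
    have hb0 : b = 0 := by_contra fun c => (irrational_sqrt_two.mul_ratCast c).ne_rat (-a) (by
      simp at this ⊢; linarith)
    simp [ha, hb, hb0] at this ⊢
    exact this
  refine act_ext fun x => sub_eq_zero.1 (E.ext fun k => ?_)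
  show T x k = 0
  simpa [h5] using congrArg (fun x : E => x k) (h4 x)

lemma H_max (L : Subgroup G) (hL : IsClosed (L : Set G)) (h : H ≤ L) : L = H ∨ L = ⊤ := by
  refine or_iff_not_imp_left.2 fun h' => (Subgroup.eq_top_iff' L).2 fun g => ?_
  obtain ⟨g0, a1, a2⟩ := SetLike.exists_of_lt (lt_of_le_of_ne h (Ne.symm h'))
  set b := act g0 z - z with hb
  obtain ⟨i, hi⟩ : ∃ i, b i ≠ 0 := by_contra fun c => a2 (sub_eq_zero.1 (E.ext fun i => by_contra fun c' => c ⟨i, c'⟩))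
  have hi1 : i ≠ 1 := fun c => hi (c ▸ (act_sub g0 z).2.1)
  have key : ∀ δ > 0, ∃ k ∈ L, ‖act k z - act g z‖ ≤ δ := fun δ hδ => by
    obtain ⟨t, t1, t2, t3, t4⟩ := approx (C0.smul_mem (b i)⁻¹ (C0.sub_mem (act_sub g z) (act_sub g0 z)))
      (show 0 < δ / 2 / |b i| by positivity) i
    obtain ⟨N', hN'⟩ := (mem_V.1 t1).2
    obtain ⟨N, n1, n2⟩ := (((act_sub g0 z).2.2.abs.mul_const ‖t‖).eventually (gt_mem_nhds
      (show |(0 : ℝ)| * ‖t‖ < δ / 2 by simpa)) |>.and (eventually_ge_atTop (N' + 2))).exists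
    obtain ⟨γ, hγ⟩ := rank1 t1 t2 i N (-1) (by simpa [hN' N (by omega)] using t4)
    have e1 : act γ z = z := by simp [hγ, z_ap hi1, z_ap (show N ≠ 1 by omega)]
    refine ⟨γ * g0, L.mul_mem (h e1) a1, ?_⟩
    have e2 : act (γ * g0) z - act g z = b i • (t - (b i)⁻¹ • (act g z - z - b)) - b N • t := by
      rw [act_mul, ← sub_add_cancel (act g0 z) z, map_add, e1, hγ, smul_sub, smul_inv_smul₀ hi, ← hb]
      simp only [Rat.cast_neg, Rat.cast_one, add_smul, neg_mul, one_mul, neg_smul]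
      abel
    rw [e2]
    refine (norm_sub_le _ _).trans ?_
    rw [norm_smul, norm_smul, Real.norm_eq_abs, Real.norm_eq_abs]
    have := (le_div_iff₀' (abs_pos.2 hi)).1 t3
    linarith
  have ex : ∀ n : ℕ, ∃ σ : G, g * σ ∈ L ∧ ‖act σ - 1‖ ≤ 4 * (1 / 8 * (1 / ((n : ℝ) + 1))) ∧
      ∀ x : E, (∀ i, n ≤ i → x i = 0) → act σ x = x := fun n => by
    have p0 : (0 : ℝ) < 1 / 8 * (1 / ((n : ℝ) + 1)) := by positivity
    have p1 : 1 / ((n : ℝ) + 1) ≤ 1 := (div_le_one (by positivity)).2 (by simp)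
    obtain ⟨k, k1, k2⟩ := key (_ / (‖act g⁻¹‖ + 1)) (div_pos p0 (by positivity))
    obtain ⟨σ, s1, s2⟩ := small (act_sub (g⁻¹ * k) z) p0 (by linarith) (by
      rw [act_mul, ← inv_act g z, ← map_sub, inv_act]
      refine ((act g⁻¹).le_opNorm _).trans ?_
      rw [le_div_iff₀' (by positivity)] at k2
      nlinarith [norm_nonneg (act k z - act g z)]) n
    refine ⟨σ, ?_, s2⟩
    have : k⁻¹ * (g * σ) ∈ H := show act k⁻¹ (act g (act σ z)) = z by simp [s1]
    simpa using L.mul_mem k1 (h this)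
  choose σ s1 s2 s3 using ex
  have := (tends (squeeze_zero (fun _ => norm_nonneg _) s2 (by
    simpa using (tendsto_one_div_add_atTop_nhds_zero_nat.const_mul (1 / 8 : ℝ)).const_mul 4)) s3).const_mul g
  exact hL.mem_of_tendsto (by simpa using this) (Eventually.of_forall s1)

noncomputable def M (m : ℕ) : Subgroup G where
  carrier := {g | ∀ x : E, x 0 + m * x 1 = 0 → act g x = x}
  one_mem' := fun _ _ => rfl
  mul_mem' := fun {a b} ha hb x hx => by rw [act_mul, hb x hx, ha x hx]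
  inv_mem' := fun {a} ha x hx => by conv_lhs => rw [← ha x hx, inv_act]

lemma M_closed (m : ℕ) : IsClosed (M m : Set G) := by
  show IsClosed {g : G | ∀ x : E, x 0 + m * x 1 = 0 → act g x = x}
  simp only [setOf_forall]
  exact isClosed_iInter fun x => isClosed_iInter fun _ => isClosed_eq (act_cont x) continuous_const

lemma M_normal (m : ℕ) : (M m).Normal := ⟨fun a ha g x hx => by
  rw [act_mul, act_mul, ha _ (by rwa [act_0, act_1]), act_inv]⟩

lemma M_act {m : ℕ} {g : G} (h : g ∈ M m) (x : E) : act g x = x + (x 0 + m * x 1) • (act g (e 0) - e 0) := by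
  have := h (x - (x 0 + m * x 1) • e 0) (by simp [e_apply])
  rw [map_sub, map_smul, sub_eq_iff_eq_add] at this
  rw [this, smul_sub]; abel

lemma M_ex (m : ℕ) {t : E} (h1 : t ∈ V) (h2 : t ∈ C0) : ∃ g ∈ M m, act g (e 0) - e 0 = t := by
  obtain ⟨γ, hγ⟩ := rank1 h1 h2 0 1 m (by simp [h2.1, h2.2.1])
  exact ⟨γ, fun x hx => by simp [hγ, hx], by simp [hγ, e_apply]⟩

lemma M_fix {m : ℕ} {g : G} (h : g ∈ M m) {x : E} (hx : x ∈ C0) : act g x = x := h x (by simp [hx.1, hx.2.1])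

lemma M_comm {m k : ℕ} {a b : G} (ha : a ∈ M m) (hb : b ∈ M k) : a * b = b * a := act_ext fun x => by
  rw [act_mul, act_mul, ← sub_add_cancel (act b x) x, ← sub_add_cancel (act a x) x, map_add, map_add,
    M_fix ha (act_sub b x), M_fix hb (act_sub a x)]
  abel

lemma M_ne (m : ℕ) : M m ≠ ⊥ := fun h => by
  obtain ⟨g, a, b⟩ := M_ex m (e_V 2) (e_C0 le_rfl)
  rw [h, Subgroup.mem_bot] at a
  simpa [a, e_apply] using congrArg (fun x : E => x 2) b

lemma M_inf {m k : ℕ} (h : m ≠ k) : M m ⊓ M k = ⊥ := (Subgroup.eq_bot_iff_forall _).2 fun g hg => by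
  have h1 := (M_act hg.1 (e 1)).symm.trans (M_act hg.2 (e 1))
  have h2 : act g (e 0) - e 0 = 0 := by
    rw [add_right_inj, ← sub_eq_zero, ← sub_smul, smul_eq_zero] at h1
    exact h1.resolve_left (by simpa [e_apply, sub_eq_zero] using h)
  exact act_ext fun x => by rw [M_act hg.1, h2, smul_zero, add_zero, act_one]

lemma M_min (m : ℕ) (N : Subgroup G) (hN : N.Normal) (h : N ≤ M m) : N = ⊥ ∨ N = M m := by
  refine or_iff_not_imp_left.2 fun h' => le_antisymm h fun g hg => ?_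
  let S : Set E := {t | ∃ n ∈ N, act n (e 0) - e 0 = t}
  have S1 : ∀ a ∈ S, ∀ b ∈ S, a - b ∈ S := by
    rintro _ ⟨a, ha, rfl⟩ _ ⟨b, hb, rfl⟩
    refine ⟨b⁻¹ * a, N.mul_mem (N.inv_mem hb) ha, ?_⟩
    have := M_fix (h (N.inv_mem hb)) (C0.sub_mem (act_sub a (e 0)) (act_sub b (e 0)))
    rw [← this]; simp
  have S2 : ∀ v ∈ S, ∀ i, v i ≠ 0 → ∀ u ∈ V, u ∈ C0 → u i = 0 → u ∈ S := by
    rintro _ ⟨a, ha, rfl⟩ i hi u u1 u2 u3
    obtain ⟨q, hq⟩ := (mem_V.1 (V.sub_mem (act_V a (e_V 0)) (e_V 0))).1 i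
    obtain ⟨γ, hγ⟩ := rank1 (smul_V q⁻¹ u1) (C0.smul_mem _ u2) i i 0 (by simp [u3])
    have := S1 _ ⟨_, hN.conj_mem a ha γ, rfl⟩ _ ⟨a, ha, rfl⟩
    rw [act_mul, act_mul, M_act (h ha) (act γ⁻¹ (e 0)), act_0, act_1, map_add, act_inv, map_smul, hγ, hq] at this
    have hq' : (q : ℝ) ≠ 0 := hq ▸ hi
    simpa [e_apply, smul_smul, hq'] using this
  obtain ⟨⟨a, ha⟩, a1⟩ := Subgroup.ne_bot_iff_exists_ne_one.1 h'
  obtain ⟨i, hi⟩ : ∃ i, (act a (e 0) - e 0) i ≠ 0 := by
    by_contra! c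
    exact a1 (Subtype.ext (act_ext fun x => by
      rw [M_act (h ha), show act a (e 0) - e 0 = 0 from E.ext c, smul_zero, add_zero]; rfl))
  have b1 := S2 _ ⟨a, ha, rfl⟩ i hi
  have b2 := S2 _ (b1 _ (e_V (i + 2)) (e_C0 (by omega)) (by simp [e_apply])) (i + 2) (by simp [e_apply])
  set v := act g (e 0) - e 0 with hv
  have v1 : v ∈ V := V.sub_mem (act_V g (e_V 0)) (e_V 0)
  obtain ⟨q, hq⟩ := (mem_V.1 v1).1 (i + 2)
  obtain ⟨n, n1, n2⟩ := S1 _ (b2 (v - (q : ℝ) • e (i + 2)) (V.sub_mem v1 (smul_V q (e_V _)))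
    (C0.sub_mem (act_sub g _) (C0.smul_mem _ (e_C0 (by omega)))) (by simp [hq, e_apply])) _
    (b1 (((-q : ℚ) : ℝ) • e (i + 2)) (smul_V _ (e_V _)) (C0.smul_mem _ (e_C0 (by omega))) (by simp [e_apply]))
  exact (act_ext fun x => by rw [M_act (h n1), M_act hg, n2]; simp [hv] : n = g) ▸ n1

end Pool.Agent.Lib.helper32.Coset
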