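import Pool.Agent.Lib.helper32.TowerR

set_option autoImplicit false

namespace Pool.Agent.Lib.helper32.Hom

open Filter Topology Set Cardinal

theorem wrap (Y : Set (Set ℕ)) : ∃ (X : Set ℝ) (e : X → Set ℕ), (∀ x, e x ∈ Y) ∧
    (∀ A ∈ Y, ∃ x, e x = A) ∧ Function.Injective e ∧ (∀ n, IsClopen {x | n ∈ e x}) ∧
      ∀ U : Set X, IsOpen U → ∃ O, Op O ∧ ∀ x, x ∈ U ↔ O (e x) := by
  classical
  obtain ⟨f, -, f1, f2⟩ := Perfect.exists_nat_bool_injection (C := (univ : Set ℝ))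
    ⟨isClosed_univ, PerfectSpace.univ_preperfect⟩ univ_nonempty
  let χ : Set ℕ → ℕ → Bool := fun A n => decide (n ∈ A)
  have c0 : Function.Injective χ := fun A B e => Set.ext fun n => by
    simpa [χ] using congrFun e n
  have c1 : ∀ x : (f ∘ χ) '' Y, ∃ A ∈ Y, f (χ A) = x := fun x => x.2
  choose e e1 e2 using c1
  have c2 : ∀ n b, IsClosed {x | χ (e x) n = b} := fun n b => by
    convert ((isClosed_eq (continuous_apply n) (continuous_const (y := b))).isCompact.image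
      f1).isClosed.preimage (continuous_subtype_val (p := (· ∈ (f ∘ χ) '' Y))) using 1
    exact Set.ext fun x => ⟨fun h => ⟨_, h, e2 x⟩, fun ⟨g, h1, h2⟩ => by
      rw [mem_setOf_eq, f2 ((e2 x).trans h2.symm)]; exact h1⟩
  refine ⟨(f ∘ χ) '' Y, e, e1, fun A hA => ⟨⟨_, A, hA, rfl⟩, c0 (f2 (e2 _))⟩,
    fun x y h => Subtype.ext ((e2 x).symm.trans (h ▸ e2 y)), fun n => ⟨by simpa [χ] using c2 n true,
      isClosed_compl_iff.1 (by simpa [χ, compl_setOf] using c2 n false)⟩, fun U hU => ?_⟩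
  obtain ⟨V, v1, rfl⟩ := isOpen_induced_iff.1 hU
  refine ⟨fun A => f (χ A) ∈ V, fun A hA => ?_, fun x => by simp only [e2]; rfl⟩
  obtain ⟨I, t, c3, c4⟩ := isOpen_pi_iff.1 (v1.preimage f1) _ hA
  exact ⟨I.sup id + 1, fun L hL => c4 fun i hi => by
    have c5 : χ L i = χ A i := by
      simp [χ, hL i (Nat.lt_succ_of_le (Finset.le_sup (f := id) hi))]
    exact c5 ▸ (c3 i hi).2⟩

def Gd (G : ℕ → Finset ℕ) (O : ℕ → ℕ → Set ℕ → Prop) (Y : Set (Set ℕ)) (a : Set ℕ) : Prop :=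
  (∀ n, ∀ F : Set (Set ℕ), F.Finite → F ⊆ Y → ∃ m, ∀ A ∈ F, O n m A) →
    ∃ m : ℕ → ℕ, ∀ A, (A ∈ Y ∨ ∀ᶠ i in atTop, i ∈ A → i ∈ un G a) → ∀ᶠ n in atTop, O n (m n) A

theorem gstage {G : ℕ → Finset ℕ} (hG : Blk G) {O : ℕ → ℕ → Set ℕ → Prop} (hO : ∀ n m, Op (O n m))
    {Y : Set (Set ℕ)} (hY : Y.Countable) (h1 : ∀ t : Finset ℕ, ↑t ∈ Y) {a : Set ℕ}
    (ha : a.Infinite) : ∃ b ⊆ a, b.Infinite ∧ Gd G O Y b := by
  classical
  by_cases h2 : ∀ n, ∀ F : Set (Set ℕ), F.Finite → F ⊆ Y → ∃ m, ∀ A ∈ F, O n m A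
  swap
  · exact ⟨a, Subset.rfl, ha, fun h => absurd h h2⟩
  obtain ⟨z, rfl⟩ := hY.exists_eq_range ⟨_, h1 ∅⟩
  have h3 : ∀ n c, ∃ m d l, c < d ∧ l ∈ a ∧ (∀ i ∈ G l, d ≤ i) ∧ (∀ i < n, O n m (z i)) ∧
      ∀ L : Set ℕ, (∀ i ∈ L, i < c ∨ d ≤ i) → O n m L := fun n c => by
    obtain ⟨m, a1⟩ := h2 n (z '' {i | i < n} ∪ (↑) '' ((Finset.range c).powerset : Set (Finset ℕ)))
      (((finite_lt_nat n).image z).union ((Finset.finite_toSet _).image _)) (by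
        rintro _ (⟨i, -, rfl⟩ | ⟨t, -, rfl⟩)
        exacts [⟨i, rfl⟩, h1 t])
    have a3 : ∀ t ∈ (Finset.range c).powerset, ∀ᶠ d in atTop, ∀ L : Set ℕ,
        (∀ i < d, i ∈ L ↔ i ∈ (t : Set ℕ)) → O n m L := fun t ht => by
      obtain ⟨d, hd⟩ := hO n m _ (a1 _ (Or.inr ⟨t, ht, rfl⟩))
      exact (eventually_ge_atTop d).mono fun d' h L hL => hd L fun i hi => hL i (hi.trans_le h)
    obtain ⟨d, a4, a5⟩ := ((eventually_gt_atTop c).and ((eventually_all_finset _).2 a3)).exists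
    obtain ⟨l, a6, a7⟩ := ((Nat.frequently_atTop_iff_infinite.2 ha).and_eventually
      (ev_blk hG (eventually_ge_atTop d))).exists
    refine ⟨m, d, l, a4, a6, a7, fun i hi => a1 _ (Or.inl ⟨i, hi, rfl⟩), fun L hL =>
      a5 ((Finset.range c).filter (· ∈ L)) (Finset.mem_powerset.2 (Finset.filter_subset _ _)) L
        fun i hi => ?_⟩
    simp only [Finset.coe_filter, Finset.mem_range, mem_setOf_eq]
    exact ⟨fun e => ⟨(hL i e).resolve_right hi.not_ge, e⟩, And.right⟩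
  choose m d l r1 r2 r3 r4 r5 using h3
  let c : ℕ → ℕ := fun n => n.rec 0 fun n c => (G (l n c)).sup id + 1
  have c1 : ∀ n, ∀ i ∈ G (l n (c n)), d n (c n) ≤ i ∧ i < c (n + 1) := fun n i hi =>
    ⟨r3 _ _ i hi, Nat.lt_succ_of_le (Finset.le_sup (f := id) hi)⟩
  have c2 : ∀ n, d n (c n) < c (n + 1) := fun n =>
    let ⟨i, hi⟩ := hG.1 (l n (c n)); (c1 n i hi).1.trans_lt (c1 n i hi).2
  have c3 : StrictMono c := strictMono_nat_of_lt_succ fun n => (r1 n _).trans (c2 n)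
  refine ⟨range fun n => l n (c n), range_subset_iff.2 fun n => r2 _ _,
    infinite_range_of_injective fun i j e => ?_, fun _ => ⟨fun n => m n (c n), ?_⟩⟩
  · obtain ⟨x, hx⟩ := hG.1 (l i (c i))
    have e' : l i (c i) = l j (c j) := e
    have a1 : i < j + 1 := c3.lt_iff_lt.1
      (((r1 i _).trans_le (c1 i x hx).1).trans (c1 j x (e' ▸ hx)).2)
    have a2 : j < i + 1 := c3.lt_iff_lt.1
      (((r1 j _).trans_le (c1 j x (e' ▸ hx)).1).trans (c1 i x hx).2)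
    omega
  rintro A (⟨i, rfl⟩ | hA)
  · exact (eventually_gt_atTop i).mono fun n hn => r4 n _ i hn
  obtain ⟨k, hk⟩ := eventually_atTop.1 hA
  refine (eventually_ge_atTop k).mono fun n hn => r5 n _ A fun i hi => ?_
  refine (lt_or_ge i k).elim (fun e => Or.inl (e.trans_le (hn.trans (c3.id_le n)))) fun e => ?_
  obtain ⟨_, ⟨j, rfl⟩, a1⟩ := mem_un.1 (hk i e hi)
  rcases lt_trichotomy j n with e | rfl | e
  · exact Or.inl ((c1 j i a1).2.trans_le (c3.monotone e))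
  · exact Or.inr (c1 j i a1).1
  · exact Or.inr ((c2 n).le.trans ((c3.monotone e).trans ((r1 j _).le.trans (c1 j i a1).1)))

theorem pint {S : Set (Set ℕ)} (h0 : S.Countable) (h1 : ∀ a ∈ S, a.Infinite)
    (h2 : ∀ a ∈ S, ∀ b ∈ S, (∀ᶠ n in atTop, n ∈ a → n ∈ b) ∨ ∀ᶠ n in atTop, n ∈ b → n ∈ a) :
    ∃ b : Set ℕ, b.Infinite ∧ ∀ a ∈ S, ∀ᶠ n in atTop, n ∈ b → n ∈ a := by
  rcases S.eq_empty_or_nonempty with rfl | h
  · exact ⟨univ, infinite_univ, fun _ h => h.elim⟩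
  obtain ⟨x, rfl⟩ := h0.exists_eq_range h
  letI : TopologicalSpace (Set ℕ) := ⊥
  obtain ⟨φ, h3, h4⟩ := Tau.tg_fin (C := range x) (V := fun n => {a | n ∈ a})
    ⟨fun a ha => Nat.frequently_atTop_iff_infinite.2 (h1 a ha), h2⟩ (x := x) fun n => ⟨n, rfl⟩
  refine ⟨range φ, Nat.frequently_atTop_iff_infinite.1 (frequently_atTop.2 fun n =>
    let ⟨j, hj⟩ := (h3.eventually (eventually_ge_atTop n)).exists; ⟨φ j, hj, j, rfl⟩), ?_⟩
  rintro _ ⟨i, rfl⟩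
  obtain ⟨k, hk⟩ := eventually_atTop.1 (h4 i)
  filter_upwards [ev_notMem ((Finset.range k).image φ)] with n hn
  rintro ⟨j, rfl⟩
  exact hk j (not_lt.1 fun e => hn (Finset.mem_image_of_mem φ (Finset.mem_range.2 e)))

def GG (m : ℕ) : Finset ℕ :=
  (({2 * m, 2 * m + 1} : Finset ℕ) ×ˢ Finset.range (2 * m + 3)).image fun p => Nat.pair p.1 p.2

theorem mem_GG {m i : ℕ} : i ∈ GG m ↔ i.unpair.1 / 2 = m ∧ i.unpair.2 < 2 * m + 3 := by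
  simp only [GG, Finset.mem_image, Finset.mem_product, Finset.mem_insert, Finset.mem_singleton,
    Finset.mem_range]
  constructor
  · rintro ⟨p, h, rfl⟩
    simp only [Nat.unpair_pair]
    omega
  · exact fun h => ⟨i.unpair, by omega, Nat.pair_unpair i⟩

theorem blk_GG : Blk GG := ⟨fun m => ⟨Nat.pair (2 * m) 0, mem_GG.2 (by simp)⟩,
  fun _ _ _ hi hj => (mem_GG.1 hi).1.symm.trans (mem_GG.1 hj).1⟩

def Stq (t : Tk) (S : Set (Set ℕ × Set ℕ)) (y : Set ℕ × Set ℕ) : Prop :=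
  y.2.Infinite ∧ (∀ x ∈ S, (∀ᶠ n in atTop, n ∈ y.2 → n ∈ x.2) ∧
    ∀ᶠ i in atTop, i ∈ y.1 → i ∈ un GG x.2) ∧
    (∀ n, n / 2 ∈ y.2 → ∀ j < 2 * (n / 2) + 3, Nat.pair n j ∈ y.1 ↔ j = t.2 n) ∧
    Gd GG (fun n m => Wc (t.1 n m)) {B | Ev B ∅ ∨ ∃ x ∈ insert y S, Ev B x.1} y.2

theorem stq (t : Tk) {S : Set (Set ℕ × Set ℕ)} (h1 : S.Countable) (h2 : ∀ x ∈ S, x.2.Infinite)
    (h3 : ∀ x ∈ S, ∀ y ∈ S, (∀ᶠ n in atTop, n ∈ x.2 → n ∈ y.2) ∨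
      ∀ᶠ n in atTop, n ∈ y.2 → n ∈ x.2) : ∃ y, Stq t S y := by
  obtain ⟨a, a1, a2⟩ := pint (h1.image Prod.snd) (by rintro _ ⟨x, hx, rfl⟩; exact h2 x hx)
    (by rintro _ ⟨x, hx, rfl⟩ _ ⟨y, hy, rfl⟩; exact h3 x hx y hy)
  let A : Set ℕ := {i ∈ un GG a | i.unpair.2 = t.2 i.unpair.1}
  have a9 : ∀ A, {B | Ev B A}.Countable := fun A =>
    (countable_range fun s => sd s A).mono fun B hB => (ev_sd hB).imp fun _ e => e.symm
  obtain ⟨b, b1, b2, b3⟩ := gstage blk_GG (fun n m => op_wc (t.1 n m))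
    (Y := {B | Ev B ∅ ∨ Ev B A ∨ ∃ x ∈ S, Ev B x.1})
    (((a9 _).union ((a9 _).union (h1.biUnion fun x _ => a9 x.1))).mono fun B hB =>
      hB.imp id (Or.imp id fun ⟨x, b1, b2⟩ => mem_biUnion b1 b2))
    (fun s => Or.inl ((ev_notMem s).mono fun n hn => iff_of_false hn id)) a1
  refine ⟨(A, b), b2, fun x hx => ⟨(a2 _ ⟨x, hx, rfl⟩).mono fun n h c => h (b1 c), ?_⟩,
    fun n hn j hj => ?_, by simpa only [mem_insert_iff, exists_eq_or_imp] using b3⟩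
  · obtain ⟨k, hk⟩ := eventually_atTop.1 (a2 _ ⟨x, hx, rfl⟩)
    filter_upwards [ev_notMem ((Finset.range k).biUnion GG)] with i c1 c2
    obtain ⟨l, c3, c4⟩ := mem_un.1 c2.1
    exact mem_un.2 ⟨l, hk l (not_lt.1 fun e => c1 (Finset.mem_biUnion.2
      ⟨l, Finset.mem_range.2 e, c4⟩)) c3, c4⟩
  · simp only [A, mem_setOf_eq, Nat.unpair_pair]
    exact and_iff_right (mem_un.2 ⟨n / 2, b1 hn, mem_GG.2 (by simpa using hj)⟩)

theorem gam (hCH : continuum.{0} = aleph 1) : ∃ X : Set (Set ℕ),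
    (∀ A ∈ X, ∀ B, Ev B A → B ∈ X) ∧ ∅ ∈ X ∧
    (∀ t : ℕ → ℕ, ∃ A ∈ X, ∃ b : Set ℕ, b.Infinite ∧ ∀ n, n / 2 ∈ b →
      ∀ j < 2 * (n / 2) + 3, Nat.pair n j ∈ A ↔ j = t n) ∧
    ∀ O : ℕ → ℕ → Set ℕ → Prop, (∀ n m, Op (O n m)) →
      (∀ n, ∀ F : Set (Set ℕ), F.Finite → F ⊆ X → ∃ m, ∀ A ∈ F, O n m A) →
      ∃ m : ℕ → ℕ, ∀ A ∈ X, ∀ᶠ n in atTop, O n (m n) A := by
  obtain ⟨lo, _, ho⟩ := exists_ord_eq_type_lt Tk
  have hI : #Tk = aleph 1 := by rw [← hCH, Tk]; simp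
  have h0 : ∀ j : Tk, (Iio j).Countable := fun j =>
    (countable_iff_lt_aleph_one _).2 (hI ▸ mk_Iio_lt j ho)
  obtain ⟨p, hp⟩ := NormalWL.rec_ex (T := Tk) (Y := Set ℕ × Set ℕ)
    (fun j f y => (∀ x ∈ f '' Iio j, x.2.Infinite) →
      (∀ x ∈ f '' Iio j, ∀ y ∈ f '' Iio j, (∀ᶠ n in atTop, n ∈ x.2 → n ∈ y.2) ∨
        ∀ᶠ n in atTop, n ∈ y.2 → n ∈ x.2) → Stq j (f '' Iio j) y)
    (fun j f => by
      by_cases h1 : ∀ x ∈ f '' Iio j, x.2.Infinite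
      · by_cases h2 : ∀ x ∈ f '' Iio j, ∀ y ∈ f '' Iio j, (∀ᶠ n in atTop, n ∈ x.2 → n ∈ y.2) ∨
          ∀ᶠ n in atTop, n ∈ y.2 → n ∈ x.2
        · exact (stq j ((h0 j).image f) h1 h2).imp fun _ h _ _ => h
        · exact ⟨(∅, ∅), fun _ h => absurd h h2⟩
      · exact ⟨(∅, ∅), fun h => absurd h h1⟩)
    fun j f g y e h => by rwa [← image_congr (s := Iio j) (f := f) (g := g) e]
  have h1 : ∀ j, Stq j (p '' Iio j) (p j) := fun j => by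
    induction j using WellFoundedLT.induction with
    | ind j ih =>
      refine hp j (by rintro _ ⟨i, hi, rfl⟩; exact (ih i hi).1) ?_
      rintro _ ⟨i, hi, rfl⟩ _ ⟨l, hl, rfl⟩
      rcases lt_trichotomy i l with e | rfl | e
      · exact Or.inr ((ih l hl).2.1 _ ⟨i, e, rfl⟩).1
      · exact Or.inl (.of_forall fun _ => id)
      · exact Or.inl ((ih i hi).2.1 _ ⟨l, e, rfl⟩).1
  refine ⟨{B | Ev B ∅ ∨ ∃ j, Ev B (p j).1}, fun A hA B hB => hA.imp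
    (fun h => (hB.and h).mono fun n h => h.1.trans h.2)
    fun ⟨j, hj⟩ => ⟨j, (hB.and hj).mono fun n h => h.1.trans h.2⟩,
    Or.inl (.of_forall fun _ => Iff.rfl), fun t => ⟨(p (fun _ _ => ∅, t)).1,
      Or.inr ⟨_, .of_forall fun _ => Iff.rfl⟩, _, (h1 _).1, (h1 _).2.2.1⟩, fun O a1 a2 => ?_⟩
  choose τ hτ using fun n m => wc_rep (a1 n m)
  obtain rfl : (fun n m => Wc (τ n m)) = O := funext₂ hτ
  let j : Tk := (τ, id)
  obtain ⟨m, b1⟩ := (h1 j).2.2.2 fun n F c1 c2 => a2 n F c1 (c2.trans (by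
    rintro B (c3 | ⟨_, rfl | ⟨i, -, rfl⟩, c3⟩)
    exacts [Or.inl c3, Or.inr ⟨j, c3⟩, Or.inr ⟨i, c3⟩]))
  refine ⟨m, ?_⟩
  rintro A (c | ⟨i, hi⟩)
  · exact b1 A (Or.inl (Or.inl c))
  rcases lt_trichotomy i j with e | rfl | e
  · exact b1 A (Or.inl (Or.inr ⟨_, Or.inr ⟨i, e, rfl⟩, hi⟩))
  · exact b1 A (Or.inl (Or.inr ⟨_, Or.inl rfl, hi⟩))
  · exact b1 A (Or.inr ((((h1 i).2.1 _ ⟨j, e, rfl⟩).2.and hi).mono fun n h c => h.1 (h.2.1 c)))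

end Pool.Agent.Lib.helper32.Hom
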