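import Mathlib

set_option autoImplicit false

namespace Pool.Agent.Lib.helper32.HS

open Set TopologicalSpace

/-- The hyperspace `C(X)` of subcontinua of `X`, with the Hausdorff metric topology. -/
abbrev CX (X : Type) [MetricSpace X] := {A : NonemptyCompacts X // IsPreconnected (A : Set X)}

/-- The relation collapsing `C(p,X)` to a point. -/
def rel {X : Type} [MetricSpace X] (p : X) : Setoid (CX X) where
  r A B := A = B ∨ (p ∈ A.1 ∧ p ∈ B.1)
  iseqv := ⟨fun _ => Or.inl rfl, fun h => h.imp Eq.symm And.symm, by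
    rintro A B C (rfl | h) h'
    · exact h'
    · rcases h' with rfl | h'
      exacts [Or.inr h, Or.inr ⟨h.1, h'.2⟩]⟩

/-- The quotient space `HS(p,X) = C(X)/C(p,X)`. -/
abbrev HS {X : Type} [MetricSpace X] (p : X) := Quotient (rel p)

/-- `Y` is aposyndetic at `x` with respect to `y`. -/
def ApoAt {Y : Type} [TopologicalSpace Y] (x y : Y) : Prop :=
  ∃ M : Set Y, IsCompact M ∧ IsConnected M ∧ x ∈ interior M ∧ y ∉ M

lemma open_image {X : Type} [MetricSpace X] {p : X} {O : Set (CX X)} (h : IsOpen O)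
    (h' : ∀ D ∈ O, ∀ E : CX X, p ∈ D.1 → p ∈ E.1 → E ∈ O) : IsOpen (Quotient.mk (rel p) '' O) := by
  refine isOpen_coinduced.2 ?_
  convert! h using 1
  refine subset_antisymm ?_ (subset_preimage_image _ _)
  rintro E ⟨D, hD, e⟩
  rcases Quotient.exact e with rfl | e
  exacts [hD, h' D hD E e.1 e.2]

end Pool.Agent.Lib.helper32.HS
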