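import Mathlib

set_option autoImplicit false

namespace Pool.Agent.Lib.helper32.Hom

open Filter Set

theorem idem : ∃ 𝓤 : Ultrafilter (Finset ℕ), (∀ n, ∀ᶠ F : Finset ℕ in 𝓤, F.Nonempty ∧ ∀ i ∈ F, n ≤ i) ∧
    ∀ p : Finset ℕ → Prop, (∀ᶠ F in 𝓤, p F) ↔ ∀ᶠ F in 𝓤, ∀ᶠ G in 𝓤, p (F ∪ G) := by
  letI : Semigroup (Finset ℕ) := { mul := (· ∪ ·), mul_assoc := Finset.union_assoc }
  letI : Semigroup (Ultrafilter (Finset ℕ)) := Ultrafilter.semigroup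
  let S : Set (Ultrafilter (Finset ℕ)) := ⋂ n, {U | ∀ᶠ F : Finset ℕ in U, F.Nonempty ∧ ∀ i ∈ F, n ≤ i}
  have h1 : IsClosed S := isClosed_iInter fun n => ultrafilter_isClosed_basic _
  obtain ⟨U, h2, h3⟩ := exists_idempotent_in_compact_subsemigroup
    (M := Ultrafilter (Finset ℕ)) Ultrafilter.continuous_mul_left S
    ⟨(hyperfilter ℕ).map fun i => ({i} : Finset ℕ), mem_iInter.2 fun n => by
      have h2 : ∀ᶠ i in hyperfilter ℕ, n ≤ i := hyperfilter_le_cofinite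
        (by rw [Nat.cofinite_eq_atTop]; exact eventually_ge_atTop n)
      exact h2.mono fun i hi => ⟨Finset.singleton_nonempty i,
        fun j hj => Finset.mem_singleton.1 hj ▸ hi⟩⟩ h1.isCompact fun U hU V hV =>
      mem_iInter.2 fun n => (Ultrafilter.eventually_mul U V _).2
        ((mem_iInter.1 hU n).mono fun F hF => (mem_iInter.1 hV n).mono fun G hG =>
          ⟨hF.1.mono Finset.subset_union_left,
            fun i hi => (Finset.mem_union.1 hi).elim (hF.2 i) (hG.2 i)⟩)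
  exact ⟨U, fun n => mem_iInter.1 h2 n, fun p => by
    conv_lhs => rw [← h3]
    exact Ultrafilter.eventually_mul U U p⟩

def Op (W : Set ℕ → Prop) : Prop :=
  ∀ M, W M → ∃ c, ∀ L : Set ℕ, (∀ i < c, i ∈ L ↔ i ∈ M) → W L

def un (G : ℕ → Finset ℕ) (M : Set ℕ) : Set ℕ := ⋃ i ∈ M, (G i : Set ℕ)

def Blk (G : ℕ → Finset ℕ) : Prop := (∀ i, (G i).Nonempty) ∧ ∀ i j n, n ∈ G i → n ∈ G j → i = j

theorem ulim {α : Type} (𝓤 : Ultrafilter α) (p : α → Prop) :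
    ∀ᶠ F in 𝓤, p F ↔ ∀ᶠ F in 𝓤, p F := by
  by_cases h : ∀ᶠ F in 𝓤, p F
  · exact h.mono fun F hF => iff_of_true hF h
  · exact (Ultrafilter.eventually_not.2 h).mono fun F hF => iff_of_false hF h

theorem hom (P : Finset ℕ → ℕ → Set ℕ → Prop) (hP : ∀ s k, Op (P s k)) :
    ∃ (K : ℕ → Finset ℕ) (κ : ℕ → ℕ), Blk K ∧ StrictMono κ ∧ (∀ j, κ j ∈ K j) ∧
      ∀ s, ∀ N : Set ℕ, N.Infinite → ∃ ρ : Prop,
        ∀ᶠ j in atTop, j ∉ N → (P s (κ j) (un K N) ↔ ρ) := by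
  classical
  obtain ⟨𝓤, u1, u2⟩ := idem
  let Q : Finset ℕ → ℕ → Finset ℕ → Prop := fun s k t => ∀ᶠ F in 𝓤, P s k ↑(t ∪ F)
  let R : Finset ℕ → Finset ℕ → Prop := fun s t => ∀ᶠ F : Finset ℕ in 𝓤, Q s (sInf (F : Set ℕ)) t
  let S : Finset ℕ → Finset ℕ → Prop := fun s t => ∀ᶠ F in 𝓤, R s (t ∪ F)
  have h0 : ∀ (p : Finset ℕ → Prop) (t : Finset ℕ), ∀ᶠ F in 𝓤,
      (∀ᶠ G in 𝓤, p (t ∪ F ∪ G)) ↔ ∀ᶠ G in 𝓤, p (t ∪ G) := fun p t => by
    rw [u2 fun G => p (t ∪ G)]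
    simpa only [Finset.union_assoc] using ulim 𝓤 fun F => ∀ᶠ G in 𝓤, p (t ∪ (F ∪ G))
  choose! c hc using hP
  let C : Finset ℕ → ℕ → Finset ℕ → Finset ℕ → Prop := fun s k t F =>
    (P s k ↑(t ∪ F) ↔ Q s k t) ∧ (Q s k (t ∪ F) ↔ Q s k t) ∧
      (Q s (sInf (F : Set ℕ)) t ↔ R s t) ∧ (R s (t ∪ F) ↔ S s t) ∧ (S s (t ∪ F) ↔ S s t) ∧
        ∀ i ∈ F, c s k t ≤ i
  have h1 : ∀ β, ∃ F : Finset ℕ, (F.Nonempty ∧ ∀ i ∈ F, β ≤ i) ∧
      ∀ s ∈ (Finset.range β).powerset, ∀ k ∈ Finset.range β, ∀ t ∈ (Finset.range β).powerset,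
        C s k t F := fun β => ((u1 β).and ((eventually_all_finset _).2 fun s _ =>
      (eventually_all_finset _).2 fun k _ => (eventually_all_finset _).2 fun t _ =>
        (ulim 𝓤 _).and ((h0 (fun t => P s k ↑t) t).and ((ulim 𝓤 _).and ((ulim 𝓤 _).and
          ((h0 (R s) t).and ((u1 _).mono fun _ h => h.2))))))).exists
  choose f h1 h2 using h1
  let β : ℕ → ℕ := fun j => j.rec 1 fun _ b => (f b).sup id + 1
  let K : ℕ → Finset ℕ := fun j => f (β j)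
  have h3 : ∀ j, ∀ i ∈ K j, β j ≤ i ∧ i < β (j + 1) := fun j i hi =>
    ⟨(h1 _).2 i hi, Nat.lt_succ_of_le (Finset.le_sup (f := id) hi)⟩
  have h4 : StrictMono β := strictMono_nat_of_lt_succ fun j =>
    let ⟨i, hi⟩ := (h1 (β j)).1; (h3 j i hi).1.trans_lt (h3 j i hi).2
  have h5 : ∀ j, sInf (K j : Set ℕ) ∈ K j := fun j => Nat.sInf_mem (s := (K j : Set ℕ)) (h1 _).1
  refine ⟨K, fun j => sInf (K j : Set ℕ), ⟨fun j => (h1 _).1, fun i j n hi hj => ?_⟩,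
    strictMono_nat_of_lt_succ fun j => (h3 _ _ (h5 j)).2.trans_le (h3 (j + 1) _ (h5 (j + 1))).1, h5,
    fun s N hN => ?_⟩
  · have a1 : i < j + 1 := h4.lt_iff_lt.1 ((h3 i n hi).1.trans_lt (h3 j n hj).2)
    have a2 : j < i + 1 := h4.lt_iff_lt.1 ((h3 j n hj).1.trans_lt (h3 i n hi).2)
    omega
  let T : ℕ → Finset ℕ := fun j => ((Finset.range j).filter (· ∈ N)).biUnion K
  have t0 : ∀ j n, n ∈ T j ↔ ∃ i < j, i ∈ N ∧ n ∈ K i := fun j n => by simp [T, and_assoc]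
  have t1 : ∀ j ∈ N, T (j + 1) = T j ∪ K j := fun j hj => by
    ext n
    simp only [t0, Finset.mem_union, Nat.lt_succ_iff_lt_or_eq]
    constructor
    · rintro ⟨i, a1 | rfl, a2⟩
      exacts [Or.inl ⟨i, a1, a2⟩, Or.inr a2.2]
    · rintro (⟨i, a1, a2⟩ | a1)
      exacts [⟨i, Or.inl a1, a2⟩, ⟨j, Or.inr rfl, hj, a1⟩]
  have t2 : ∀ j ∉ N, T (j + 1) = T j := fun j hj => by
    ext n
    simp only [t0, Nat.lt_succ_iff_lt_or_eq]
    constructor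
    · rintro ⟨i, a1 | rfl, a2⟩
      exacts [⟨i, a1, a2⟩, absurd a2.1 hj]
    · rintro ⟨i, a1, a2⟩
      exact ⟨i, Or.inl a1, a2⟩
  obtain ⟨a, a1, a2⟩ := hN.exists_gt (s.sup id)
  have t3 : ∀ j, a ≤ j → ∀ k < β j, ∀ i ≤ j, C s k (T i) (K j) := fun j hj k hk i hi =>
    h2 (β j) s (Finset.mem_powerset.2 fun n hn => Finset.mem_range.2
      (((Finset.le_sup (f := id) hn).trans_lt a2).trans_le (hj.trans (h4.id_le j)))) k
      (Finset.mem_range.2 hk) _ (Finset.mem_powerset.2 fun n hn => by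
        obtain ⟨l, b1, -, b2⟩ := (t0 i n).1 hn
        exact Finset.mem_range.2 ((h3 l n b2).2.trans_le (h4.monotone (by omega : l + 1 ≤ j))))
  have t4 : ∀ j, 0 < β j := fun j => Nat.one_pos.trans_le (h4.monotone (Nat.zero_le j))
  have t5 : ∀ j, a + 1 ≤ j → (R s (T j) ↔ S s (T a)) ∧ (S s (T j) ↔ S s (T a)) := fun j hj => by
    induction j, hj using Nat.le_induction with
    | base => exact t1 a a1 ▸ ⟨(t3 a le_rfl 0 (t4 a) a le_rfl).2.2.2.1,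
        (t3 a le_rfl 0 (t4 a) a le_rfl).2.2.2.2.1⟩
    | succ j hj ih =>
      by_cases b1 : j ∈ N
      · have b2 := t3 j (by omega) 0 (t4 j) j le_rfl
        exact t1 j b1 ▸ ⟨b2.2.2.2.1.trans ih.2, b2.2.2.2.2.1.trans ih.2⟩
      · exact (t2 j b1).symm ▸ ih
  have t6 : ∀ j, a ≤ j → ∀ k < β j, (P s k (un K N) ↔ Q s k (T j)) := fun j hj k hk => by
    have b1 : ∀ i, j ≤ i → (Q s k (T i) ↔ Q s k (T j)) := fun i hi => by
      induction i, hi using Nat.le_induction with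
      | base => rfl
      | succ i hi ih =>
        by_cases b1 : i ∈ N
        · exact t1 i b1 ▸ (t3 i (hj.trans hi) k (hk.trans_le (h4.monotone hi)) i le_rfl).2.1.trans ih
        · exact (t2 i b1).symm ▸ ih
    have b2 : ∀ i ∈ N, j ≤ i → (P s k (T (i + 1)) ↔ Q s k (T j)) := fun i b2 hi =>
      t1 i b2 ▸ (t3 i (hj.trans hi) k (hk.trans_le (h4.monotone hi)) i le_rfl).1.trans (b1 i hi)
    have b3 : ∀ i d, (∀ l, i ≤ l → ∀ n ∈ K l, d ≤ n) → ∀ n < d, (n ∈ un K N ↔ n ∈ (T i : Set ℕ)) :=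
      fun i d b3 n hn => by
        simp only [un, mem_iUnion, Finset.mem_coe, t0]
        exact ⟨fun ⟨l, b4, b5⟩ => ⟨l, not_le.1 fun b6 => hn.not_ge (b3 l b6 n b5), b4, b5⟩,
          fun ⟨l, _, b4, b5⟩ => ⟨l, b4, b5⟩⟩
    constructor
    · intro b4
      obtain ⟨i, b5, b6⟩ := hN.exists_gt (j + c s k (un K N))
      exact (b2 i b5 (by omega)).1 (hc s k _ b4 _ fun n hn => (b3 (i + 1) _ (fun l b7 n b8 =>
        (by omega : c s k (un K N) ≤ l).trans ((h4.id_le l).trans (h3 l n b8).1)) n hn).symm)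
    · intro b4
      obtain ⟨i, b5, b6⟩ := hN.exists_gt j
      exact hc s k _ ((b2 i b5 b6.le).2 b4) _ (b3 (i + 1) _ fun l b7 =>
        (t3 l (by omega) k (hk.trans_le (h4.monotone (by omega))) (i + 1) b7).2.2.2.2.2)
  refine ⟨S s (T a), (eventually_ge_atTop (a + 1)).mono fun j hj b1 => ?_⟩
  rw [t6 (j + 1) (by omega) _ (h3 j _ (h5 j)).2, t2 j b1]
  exact (t3 j (by omega) 0 (t4 j) j le_rfl).2.2.1.trans (t5 j hj).1

end Pool.Agent.Lib.helper32.Hom
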