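import Pool.Agent.Lib.helper32.GammaCH

set_option autoImplicit false

namespace Pool.Agent.Lib.helper32.Tau

open Filter Topology Set

variable {Z : Type*} [TopologicalSpace Z]

def Cho (A B : Set (Set Z) → Prop) : Prop := ∀ 𝓤, A 𝓤 → ∃ 𝓥 ⊆ 𝓤, B 𝓥

theorem tg_coi {C : Set Z} {V : ℕ → Set Z} (h : IT C V) {Q : Set Z} (h1 : Q.Countable)
    (h2 : Q ⊆ C) (h3 : ∀ z ∈ C, ∃ q ∈ Q, ∀ᶠ k in atTop, q ∈ V k → z ∈ V k) :
    ∃ φ : ℕ → ℕ, Tendsto φ atTop atTop ∧ ∀ x ∈ C, ∀ᶠ j in atTop, x ∈ V (φ j) := by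
  rcases Q.eq_empty_or_nonempty with rfl | h4
  · exact ⟨id, tendsto_id, fun x hx => let ⟨_, h, _⟩ := h3 x hx; h.elim⟩
  obtain ⟨x, rfl⟩ := h1.exists_eq_range h4
  obtain ⟨φ, h5, h6⟩ := tg_fin h (x := x) fun n => h2 ⟨n, rfl⟩
  refine ⟨φ, h5, fun z hz => ?_⟩
  obtain ⟨_, ⟨n, rfl⟩, h7⟩ := h3 z hz
  exact ((h6 n).and (h5.eventually h7)).mono fun j hj => hj.2 hj.1

theorem tg_luz [SecondCountableTopology Z]
    (h : ∀ U : Set Z, IsOpen U → Dense U → Uᶜ.Countable) : TG (univ : Set Z) := by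
  intro V h1 h2
  obtain ⟨D, d1, d2⟩ := TopologicalSpace.exists_countable_dense Z
  by_cases h3 : ∀ z ∈ (univ : Set Z), ∃ q ∈ D, ∀ᶠ k in atTop, q ∈ V k → z ∈ V k
  · exact tg_coi h2 d1 (subset_univ _) h3
  simp only [not_forall, not_exists, not_and] at h3
  obtain ⟨x, -, h3⟩ := h3
  let O : ℕ → Set Z := fun m => ⋃ k ∈ {k | m ≤ k ∧ x ∉ V k}, V k
  have h4 : ∀ m, (O m)ᶜ.Countable := fun m => h _ (isOpen_biUnion fun k _ => h1 k)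
    (Dense.mono (fun q hq => by
      obtain ⟨k, c1, c2⟩ := ((not_eventually.1 (h3 q hq)).and_eventually
        (eventually_ge_atTop m)).exists
      exact mem_biUnion (⟨c2, (Classical.not_imp.1 c1).2⟩ : k ∈ {k | m ≤ k ∧ x ∉ V k})
        (Classical.not_imp.1 c1).1) d2)
  refine tg_coi h2 ((countable_iUnion h4).insert x) (subset_univ _) fun z _ => ?_
  rcases h2.2 x trivial z trivial with c | c
  · exact ⟨x, mem_insert _ _, c⟩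
  · obtain ⟨m, hm⟩ := eventually_atTop.1 c
    refine ⟨z, Or.inr (mem_iUnion.2 ⟨m, fun c1 => ?_⟩), .of_forall fun _ => id⟩
    obtain ⟨k, c2, c3⟩ := mem_iUnion₂.1 c1
    exact c2.2 (hm k c2.1 c3)

theorem ta_om [Nonempty Z] {𝓤 : Set (Set Z)} (h : Ta 𝓤) : Om 𝓤 := by
  classical
  have h1 : ∀ F : Finset Z, ∃ z, {U ∈ 𝓤 | z ∈ U ∧ ¬ (F : Set Z) ⊆ U}.Finite := fun F => by
    induction F using Finset.induction_on with
    | empty => exact ⟨Classical.arbitrary Z, by simp⟩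
    | insert a s _ ih =>
      obtain ⟨z, hz⟩ := ih
      rcases h.2.2 a z with c | c
      · refine ⟨a, (hz.union c).subset fun U hU => (em (z ∈ U)).imp (fun e => ⟨hU.1, e, fun c1 =>
          hU.2.2 (by rw [Finset.coe_insert]; exact insert_subset hU.2.1 c1)⟩)
          fun e => ⟨hU.1, hU.2.1, e⟩⟩
      · refine ⟨z, (hz.union c).subset fun U hU => (em (a ∈ U)).imp (fun e => ⟨hU.1, hU.2.1,
          fun c1 => hU.2.2 (by rw [Finset.coe_insert]; exact insert_subset e c1)⟩)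
          fun e => ⟨hU.1, hU.2.1, e⟩⟩
  refine ⟨h.1, fun F => ?_⟩
  obtain ⟨z, hz⟩ := h1 F
  obtain ⟨U, c1, c2⟩ := ((h.2.1 z).diff hz).nonempty
  exact ⟨U, c1.1, not_not.1 fun c3 => c2 ⟨c1.1, c1.2, c3⟩⟩

theorem tg_seq [Nonempty Z] [SecondCountableTopology Z] (h : TG (univ : Set Z))
    {𝓤 : Set (Set Z)} (h1 : Ta 𝓤) : ∃ U : ℕ → Set Z, Function.Injective U ∧ (∀ m, U m ∈ 𝓤) ∧
      ∀ x, ∀ᶠ m in atTop, x ∈ U m := by
  obtain ⟨U, u1, u2, u3⟩ := om_seq (ta_om h1)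
  have h3 : ∀ x y, {W ∈ 𝓤 | x ∈ W ∧ y ∉ W}.Finite → ∀ᶠ k in atTop, x ∈ U k → y ∈ U k :=
    fun x y h3 => by
      rw [← Nat.cofinite_eq_atTop, eventually_cofinite]
      exact Finite.of_injOn (f := U) (t := {W ∈ 𝓤 | x ∈ W ∧ y ∉ W})
        (fun k hk => ⟨u2 k, Classical.not_imp.1 hk⟩) u1.injOn h3
  obtain ⟨φ, h4, h5⟩ := h U (fun m => h1.1.1 _ (u2 m)) ⟨fun x _ =>
    (u3 _ (finite_singleton x)).mono fun _ c => c rfl,
    fun x _ y _ => (h1.2.2 x y).imp (h3 x y) (h3 y x)⟩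
  obtain ⟨ψ, h6, h7⟩ := strictMono_subseq_of_tendsto_atTop h4
  exact ⟨fun m => U (φ (ψ m)), u1.comp h7.injective, fun m => u2 _,
    fun x => h6.tendsto_atTop.eventually (h5 x trivial)⟩

theorem tg_cho [Nonempty Z] [SecondCountableTopology Z] (h : TG (univ : Set Z)) :
    Cho (Z := Z) Ta Ga := fun 𝓤 h1 =>
  let ⟨U, _, u2, u3⟩ := tg_seq h h1
  ⟨_, range_subset_iff.2 u2, ga_range (fun m => h1.1.1 _ (u2 m))
    (fun m c => h1.1.2.2 (c ▸ u2 m)) u3⟩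

theorem cho_split (h : Cho (Z := Z) Ta Ga) : Split (Z := Z) Ta Ta := by
  intro 𝓤 h1
  obtain ⟨𝓥, h2, h3⟩ := h 𝓤 h1
  let U : ℕ → Set Z := fun k => h3.2.1.natEmbedding _ k
  have u1 : Function.Injective U := Subtype.val_injective.comp (h3.2.1.natEmbedding _).injective
  have u2 : ∀ k, U k ∈ 𝓥 := fun k => (h3.2.1.natEmbedding _ k).2
  have u3 : ∀ x, ∀ᶠ k in atTop, x ∈ U k := fun x => by
    rw [← Nat.cofinite_eq_atTop, eventually_cofinite]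
    exact Finite.of_injOn (f := U) (t := {W ∈ 𝓥 | x ∉ W}) (fun k hk => ⟨u2 k, hk⟩) u1.injOn
      (h3.2.2 x)
  have u4 : ∀ r, Ta (range fun j => U (2 * j + r)) := fun r => ga_ta (ga_range
    (fun j => h3.1.1 _ (u2 _)) (fun j c => h3.1.2.2 (c ▸ u2 _)) fun x =>
      (tendsto_atTop_mono (fun n => by simp only [id]; omega) tendsto_id).eventually (u3 x))
  refine ⟨range fun j => U (2 * j + 0), 𝓤 \ range fun j => U (2 * j + 0), disjoint_sdiff_right,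
    union_diff_cancel (range_subset_iff.2 fun j => h2 (u2 _)), ⟨_, Subset.rfl, u4 0⟩, _, ?_, u4 1⟩
  rintro _ ⟨j, rfl⟩
  refine ⟨h2 (u2 _), fun ⟨i, e⟩ => ?_⟩
  have := u1 e
  omega

end Pool.Agent.Lib.helper32.Tau

namespace Pool.Agent.Lib.helper32.Hom

open Filter Topology Set Cardinal

def Dn (W : Set ℕ → Prop) : Prop := ∀ (M : Set ℕ) c, ∃ L : Set ℕ, (∀ i < c, i ∈ L ↔ i ∈ M) ∧ W L

theorem bct {𝓦 : Set (Set ℕ → Prop)} (h : 𝓦.Countable) (h1 : ∀ W ∈ 𝓦, Op W ∧ Dn W) :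
    ∃ L, ∀ W ∈ 𝓦, W L := by
  rcases 𝓦.eq_empty_or_nonempty with rfl | h2
  · exact ⟨∅, fun _ h => h.elim⟩
  obtain ⟨W, rfl⟩ := h.exists_eq_range h2
  have h3 : ∀ n (q : Set ℕ × ℕ), ∃ r : Set ℕ × ℕ, q.2 < r.2 ∧ (∀ i < q.2, i ∈ r.1 ↔ i ∈ q.1) ∧
      ∀ L : Set ℕ, (∀ i < r.2, i ∈ L ↔ i ∈ r.1) → W n L := fun n q => by
    obtain ⟨L, a1, a2⟩ := (h1 _ ⟨n, rfl⟩).2 q.1 q.2
    obtain ⟨c, a3⟩ := (h1 _ ⟨n, rfl⟩).1 L a2
    exact ⟨(L, q.2 + c + 1), by simp only; omega, a1,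
      fun K hK => a3 K fun i hi => hK i (by simp only; omega)⟩
  choose r r1 r2 r3 using h3
  let q : ℕ → Set ℕ × ℕ := fun n => n.rec (∅, 0) r
  have q1 : StrictMono fun n => (q n).2 := strictMono_nat_of_lt_succ fun n => r1 n _
  have q2 : ∀ n m, n ≤ m → ∀ i < (q n).2, i ∈ (q m).1 ↔ i ∈ (q n).1 := fun n m e i hi => by
    induction e with
    | refl => rfl
    | step e ih => exact (r2 _ _ i (hi.trans_le (q1.monotone e))).trans ih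
  refine ⟨{i | i ∈ (q (i + 1)).1}, ?_⟩
  rintro _ ⟨n, rfl⟩
  refine r3 n (q n) _ fun i hi => ?_
  rcases le_total (i + 1) (n + 1) with e | e
  · exact (q2 _ _ e i (q1.id_le (i + 1))).symm
  · exact q2 _ _ e i hi

theorem sd_sd (s : Finset ℕ) (B : Set ℕ) : sd s (sd s B) = B := by
  ext n; simp only [sd, mem_setOf_eq]; tauto

theorem dn_sd (s : Finset ℕ) {W : Set ℕ → Prop} (h : Dn W) : Dn fun M => W (sd s M) :=
  fun M c => by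
    obtain ⟨L, a1, a2⟩ := h (sd s M) c
    refine ⟨sd s L, fun i hi => ?_, by simpa only [sd_sd] using a2⟩
    have := a1 i hi
    simp only [sd, mem_setOf_eq] at this ⊢
    tauto

theorem pair {𝓦 : Set (Set ℕ → Prop)} (h : 𝓦.Countable) (h1 : ∀ W ∈ 𝓦, Op W ∧ Dn W) {a : Set ℕ}
    (ha : a.Infinite) : ∃ x y : Set ℕ, x ∪ y = Set.univ ∧ x ∩ y ⊆ a ∧ (x ∩ y).Infinite ∧
      ∀ W ∈ 𝓦, W x ∧ W y := by
  classical
  let f : Set ℕ → Set ℕ := fun L => {i | 2 * i ∈ L}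
  let g : Set ℕ → Set ℕ := fun L => {i | 2 * i ∉ L ∨ 2 * i + 1 ∈ L ∧ i ∈ a}
  obtain ⟨L, hL⟩ := bct (((h.image fun W L => W (f L)).union (h.image fun W L => W (g L))).union
    (countable_range fun n (L : Set ℕ) => ∃ i ∈ a, n < i ∧ 2 * i ∈ L ∧ 2 * i + 1 ∈ L)) (by
    rintro _ ((⟨W, hW, rfl⟩ | ⟨W, hW, rfl⟩) | ⟨n, rfl⟩)
    · refine ⟨fun M hM => ?_, fun M c => ?_⟩
      · obtain ⟨c, hc⟩ := (h1 W hW).1 _ hM
        exact ⟨2 * c, fun L hL => hc _ fun i hi => hL _ (by omega)⟩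
      · obtain ⟨x, a1, a2⟩ := (h1 W hW).2 (f M) c
        refine ⟨{j | if j % 2 = 0 then j / 2 ∈ x else j ∈ M}, fun j hj => ?_, ?_⟩
        · rw [mem_setOf_eq]
          split_ifs with e
          · rw [a1 _ (by omega)]
            simp only [f, mem_setOf_eq, show 2 * (j / 2) = j by omega]
          · rfl
        · convert a2 using 1
          ext i
          simp [f]
    · refine ⟨fun M hM => ?_, fun M c => ?_⟩
      · obtain ⟨c, hc⟩ := (h1 W hW).1 _ hM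
        exact ⟨2 * c, fun L hL => hc _ fun i hi => by
          simp only [g, mem_setOf_eq, hL _ (by omega : 2 * i < 2 * c),
            hL _ (by omega : 2 * i + 1 < 2 * c)]⟩
      · obtain ⟨y, a1, a2⟩ := (h1 W hW).2 (g M) c
        refine ⟨{j | if j < 2 * c then j ∈ M else j % 2 = 0 ∧ j / 2 ∉ y}, fun j hj => ?_, ?_⟩
        · rw [mem_setOf_eq, if_pos (by omega)]
        · convert a2 using 1
          ext i
          by_cases e : i < c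
          · simp only [a1 i e, g, mem_setOf_eq, if_pos (by omega : 2 * i < 2 * c),
              if_pos (by omega : 2 * i + 1 < 2 * c)]
          · simp only [g, mem_setOf_eq, if_neg (by omega : ¬ 2 * i < 2 * c),
              if_neg (by omega : ¬ 2 * i + 1 < 2 * c)]
            simp
    · refine ⟨fun M ⟨i, a1, a2, a3, a4⟩ => ⟨2 * i + 2, fun L hL => ⟨i, a1, a2,
        (hL _ (by omega)).2 a3, (hL _ (by omega)).2 a4⟩⟩, fun M c => ?_⟩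
      obtain ⟨i, a1, a2⟩ := ha.exists_gt (n + c)
      exact ⟨M ∪ Ici c, fun j hj => or_iff_left hj.not_ge, i, a1, by omega,
        Or.inr (by simp only [mem_Ici]; omega), Or.inr (by simp only [mem_Ici]; omega)⟩)
  refine ⟨f L, g L, eq_univ_of_forall fun i => (em (2 * i ∈ L)).imp id Or.inl,
    fun i hi => (hi.2.resolve_left (not_not.2 hi.1)).2, infinite_of_forall_exists_gt fun n => ?_,
    fun W hW => ⟨hL _ (Or.inl (Or.inl ⟨W, hW, rfl⟩)), hL _ (Or.inl (Or.inr ⟨W, hW, rfl⟩))⟩⟩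
  obtain ⟨i, a1, a2, a3, a4⟩ := hL _ (Or.inr ⟨n, rfl⟩)
  exact ⟨i, ⟨a3, Or.inr ⟨a4, a1⟩⟩, a2⟩

def Tl : Type := Set (ℕ × Finset ℕ) × Set ℕ

def Ci (z x : Set ℕ) : Prop := ∃ᶠ i in atTop, i ∉ x ∧ i ∉ z

def Str (t : Tl) (T : Set Tl) (S : Set (Set ℕ × Set ℕ)) (y : Set ℕ × Set ℕ) : Prop :=
  y.1 ∪ y.2 = Set.univ ∧ (y.1 ∩ y.2).Infinite ∧ (y.1 ∩ y.2 ⊆ t.2 ∨ y.1 ∩ y.2 ⊆ t.2ᶜ) ∧
    (∀ x ∈ S, (∀ᶠ n in atTop, n ∈ y.1 ∩ y.2 → n ∈ x.1 ∩ x.2) ∧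
      ∀ z ∈ ({∅, x.1, x.2} : Set (Set ℕ)), Ci ∅ z → Ci z y.1 ∧ Ci z y.2) ∧ Ci ∅ y.1 ∧ Ci ∅ y.2 ∧
    ∀ u ∈ T, Dn (Wc u.1) → ∀ s, Wc u.1 (sd s y.1) ∧ Wc u.1 (sd s y.2)

theorem str (t : Tl) {T : Set Tl} {S : Set (Set ℕ × Set ℕ)} (h0 : T.Countable) (h1 : S.Countable)
    (h2 : ∀ x ∈ S, (x.1 ∩ x.2).Infinite)
    (h3 : ∀ x ∈ S, ∀ y ∈ S, (∀ᶠ n in atTop, n ∈ x.1 ∩ x.2 → n ∈ y.1 ∩ y.2) ∨
      ∀ᶠ n in atTop, n ∈ y.1 ∩ y.2 → n ∈ x.1 ∩ x.2) : ∃ y, Str t T S y := by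
  obtain ⟨a, a1, a2⟩ := pint (h1.image fun x => x.1 ∩ x.2)
    (by rintro _ ⟨x, hx, rfl⟩; exact h2 x hx)
    (by rintro _ ⟨x, hx, rfl⟩ _ ⟨y, hy, rfl⟩; exact h3 x hx y hy)
  obtain ⟨b, b1, b2, b3⟩ : ∃ b ⊆ a, b.Infinite ∧ (b ⊆ t.2 ∨ b ⊆ t.2ᶜ) := by
    rcases infinite_union.1 ((inter_union_compl a t.2).symm ▸ a1) with c | c
    exacts [⟨_, inter_subset_left, c, Or.inl inter_subset_right⟩,
      ⟨_, inter_subset_left, c, Or.inr inter_subset_right⟩]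
  let P : Set (Set ℕ) := {z ∈ insert ∅ (Prod.fst '' S ∪ Prod.snd '' S) | Ci ∅ z}
  have p1 : P.Countable := (((h1.image _).union (h1.image _)).insert _).mono fun _ h => h.1
  obtain ⟨x, y, c1, c2, c3, c4⟩ := pair ((Countable.image2 (h0.mono fun _ h => h.1 :
    {u ∈ T | Dn (Wc u.1)}.Countable) (countable_univ (α := Finset ℕ))
      fun u s M => Wc u.1 (sd s M)).union (Countable.image2 p1 (countable_univ (α := ℕ))
        fun z n M => ∃ i, n ≤ i ∧ i ∉ M ∧ i ∉ z)) (by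
    rintro _ (⟨u, hu, s, -, rfl⟩ | ⟨z, hz, n, -, rfl⟩)
    · exact ⟨op_sd s (op_wc _), dn_sd s hu.2⟩
    · refine ⟨fun M ⟨i, d1, d2, d3⟩ => ⟨i + 1, fun L hL => ⟨i, d1,
        fun e => d2 ((hL i (by omega)).1 e), d3⟩⟩, fun M c => ?_⟩
      obtain ⟨i, d1, d2⟩ := (hz.2.and_eventually (eventually_ge_atTop (n + c))).exists
      exact ⟨M ∩ Iio c, fun j hj => and_iff_left hj, i, by omega,
        fun e => by have := e.2; simp only [mem_Iio] at this; omega, d1.1⟩) b2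
  have c5 : ∀ z ∈ P, Ci z x ∧ Ci z y := fun z hz =>
    ⟨frequently_atTop.2 fun n => (c4 _ (Or.inr ⟨z, hz, n, trivial, rfl⟩)).1,
      frequently_atTop.2 fun n => (c4 _ (Or.inr ⟨z, hz, n, trivial, rfl⟩)).2⟩
  have c6 := c5 ∅ ⟨mem_insert _ _, .of_forall fun _ => ⟨id, id⟩⟩
  refine ⟨(x, y), c1, c3, b3.imp c2.trans c2.trans, fun w hw => ⟨(a2 _ ⟨w, hw, rfl⟩).mono
    fun n h c => h (b1 (c2 c)), fun z hz e => c5 z ⟨?_, e⟩⟩, c6.1, c6.2,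
    fun u hu e s => c4 _ (Or.inl ⟨u, ⟨hu, e⟩, s, trivial, rfl⟩)⟩
  rcases hz with rfl | rfl | rfl
  exacts [Or.inl rfl, Or.inr (Or.inl ⟨w, hw, rfl⟩), Or.inr (Or.inr ⟨w, hw, rfl⟩)]

theorem luz (hCH : continuum.{0} = aleph 1) : ∃ X : Set (Set ℕ),
    (∀ A ∈ X, ∀ B, Ev B A → B ∈ X) ∧ (∀ W, Op W → Dn W → {A ∈ X | ¬ W A}.Countable) ∧
    (∀ S : Set ℕ, ∃ A ∈ X, ∃ B ∈ X, A ∪ B = Set.univ ∧ (A ∩ B ⊆ S ∨ A ∩ B ⊆ Sᶜ)) ∧
    ∃ T : Set (Set ℕ), (∀ a ∈ T, a.Infinite) ∧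
      (∀ a ∈ T, ∀ b ∈ T, (∀ᶠ n in atTop, n ∈ a → n ∈ b) ∨ ∀ᶠ n in atTop, n ∈ b → n ∈ a) ∧
      ∀ A ∈ X, ∀ B ∈ X, A ∪ B = Set.univ → ∃ a ∈ T, Ev (A ∩ B) a := by
  obtain ⟨lo, _, ho⟩ := exists_ord_eq_type_lt Tl
  have hI : #Tl = aleph 1 := by rw [← hCH, Tl]; simp
  have h0 : ∀ j : Tl, (Iio j).Countable := fun j =>
    (countable_iff_lt_aleph_one _).2 (hI ▸ mk_Iio_lt j ho)
  obtain ⟨p, hp⟩ := NormalWL.rec_ex (T := Tl) (Y := Set ℕ × Set ℕ)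
    (fun j f y => (∀ x ∈ f '' Iio j, (x.1 ∩ x.2).Infinite) →
      (∀ x ∈ f '' Iio j, ∀ y ∈ f '' Iio j, (∀ᶠ n in atTop, n ∈ x.1 ∩ x.2 → n ∈ y.1 ∩ y.2) ∨
        ∀ᶠ n in atTop, n ∈ y.1 ∩ y.2 → n ∈ x.1 ∩ x.2) → Str j (Iio j) (f '' Iio j) y)
    (fun j f => by
      by_cases h1 : ∀ x ∈ f '' Iio j, (x.1 ∩ x.2).Infinite
      · by_cases h2 : ∀ x ∈ f '' Iio j, ∀ y ∈ f '' Iio j,
          (∀ᶠ n in atTop, n ∈ x.1 ∩ x.2 → n ∈ y.1 ∩ y.2) ∨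
            ∀ᶠ n in atTop, n ∈ y.1 ∩ y.2 → n ∈ x.1 ∩ x.2
        · exact (str j (h0 j) ((h0 j).image f) h1 h2).imp fun _ h _ _ => h
        · exact ⟨(∅, ∅), fun _ h => absurd h h2⟩
      · exact ⟨(∅, ∅), fun h => absurd h h1⟩)
    fun j f g y e h => by rwa [← image_congr (s := Iio j) (f := f) (g := g) e]
  have h2 : ∀ i l, Str i (Iio i) (p '' Iio i) (p i) → Str l (Iio l) (p '' Iio l) (p l) →
      (∀ᶠ n in atTop, n ∈ (p i).1 ∩ (p i).2 → n ∈ (p l).1 ∩ (p l).2) ∨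
        ∀ᶠ n in atTop, n ∈ (p l).1 ∩ (p l).2 → n ∈ (p i).1 ∩ (p i).2 := fun i l hi hl => by
    rcases lt_trichotomy i l with e | rfl | e
    · exact Or.inr (hl.2.2.2.1 _ ⟨i, e, rfl⟩).1
    · exact Or.inl (.of_forall fun _ => id)
    · exact Or.inl (hi.2.2.2.1 _ ⟨l, e, rfl⟩).1
  have h1 : ∀ j, Str j (Iio j) (p '' Iio j) (p j) := fun j => by
    induction j using WellFoundedLT.induction with
    | ind j ih =>
      refine hp j (by rintro _ ⟨i, hi, rfl⟩; exact (ih i hi).2.1) ?_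
      rintro _ ⟨i, hi, rfl⟩ _ ⟨l, hl, rfl⟩
      exact h2 i l (ih i hi) (ih l hl)
  have a9 : ∀ A, {B | Ev B A}.Countable := fun A =>
    (countable_range fun s => sd s A).mono fun B hB => (ev_sd hB).imp fun _ e => e.symm
  have h3 : ∀ A B z x, Ev A z → Ev B x → A ∪ B = Set.univ → ¬ Ci z x := fun A B z x c1 c2 c3 c4 => by
    obtain ⟨i, c5, c6⟩ := (c4.and_eventually (c1.and c2)).exists
    exact (c3 ▸ mem_univ i : i ∈ A ∪ B).elim (fun e => c5.2 (c6.1.1 e)) fun e => c5.1 (c6.2.1 e)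
  have h4 : ∀ i l, i < l → ∀ z ∈ ({(p i).1, (p i).2} : Set (Set ℕ)),
      ∀ x ∈ ({(p l).1, (p l).2} : Set (Set ℕ)), Ci z x := fun i l e z hz x hx => by
    have c := ((h1 l).2.2.2.1 _ ⟨i, e, rfl⟩).2 z (Or.inr hz) (by
      rcases hz with rfl | rfl
      exacts [(h1 i).2.2.2.2.1, (h1 i).2.2.2.2.2.1])
    rcases hx with rfl | rfl
    exacts [c.1, c.2]
  refine ⟨{B | ∃ j, ∃ z ∈ ({(p j).1, (p j).2} : Set (Set ℕ)), Ev B z},
    fun A ⟨j, z, c, hj⟩ B hB => ⟨j, z, c, (hB.and hj).mono fun n h => h.1.trans h.2⟩,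
    fun W w1 w2 => ?_, fun S => ⟨_, ⟨(∅, S), _, Or.inl rfl, .of_forall fun _ => Iff.rfl⟩, _,
      ⟨(∅, S), _, Or.inr rfl, .of_forall fun _ => Iff.rfl⟩, (h1 _).1, (h1 _).2.2.1⟩,
    range fun j => (p j).1 ∩ (p j).2, by rintro _ ⟨j, rfl⟩; exact (h1 j).2.1,
    by rintro _ ⟨i, rfl⟩ _ ⟨l, rfl⟩; exact h2 i l (h1 i) (h1 l), ?_⟩
  · obtain ⟨τ, rfl⟩ := wc_rep w1
    let j : Tl := (τ, ∅)
    refine (((h0 j).insert j).biUnion fun i _ => (a9 (p i).1).union (a9 (p i).2)).mono ?_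
    rintro A ⟨⟨i, z, c1, c2⟩, c3⟩
    have c4 : A ∈ {B | Ev B (p i).1} ∪ {B | Ev B (p i).2} := by
      rcases c1 with rfl | rfl
      exacts [Or.inl c2, Or.inr c2]
    refine mem_biUnion (x := i) (by_contra fun c5 => c3 ?_) c4
    have c6 := (h1 i).2.2.2.2.2.2 j (lt_of_le_of_ne (not_lt.1 fun e => c5 (Or.inr e))
      fun e => c5 (Or.inl e.symm)) w2
    obtain ⟨s, rfl⟩ := ev_sd c2
    rcases c1 with rfl | rfl
    exacts [(c6 s).1, (c6 s).2]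
  · rintro A ⟨i, z, c1, c2⟩ B ⟨l, x, c3, c4⟩ c5
    rcases lt_trichotomy i l with e | rfl | e
    · exact absurd (h4 i l e z c1 x c3) (h3 A B z x c2 c4 c5)
    · refine ⟨_, ⟨i, rfl⟩, ?_⟩
      rcases c1 with rfl | rfl <;> rcases c3 with rfl | rfl
      · exact absurd ((h1 i).2.2.2.2.1.mono fun n h => ⟨h.1, h.1⟩) (h3 A B _ _ c2 c4 c5)
      · exact (c2.and c4).mono fun n h => and_congr h.1 h.2
      · exact (c2.and c4).mono fun n h => and_comm.trans (and_congr h.2 h.1)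
      · exact absurd ((h1 i).2.2.2.2.2.1.mono fun n h => ⟨h.1, h.1⟩) (h3 A B _ _ c2 c4 c5)
    · exact absurd (h4 l i e x c3 z c1) (h3 B A x z c4 c2 (union_comm A B ▸ c5))

end Pool.Agent.Lib.helper32.Hom
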