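import Pool.Agent.Lib.helper32.Luz

set_option autoImplicit false

namespace Pool.Agent.Lib.helper32.Tau

open Filter Topology Set Hom

theorem exl (hCH : Cardinal.continuum.{0} = Cardinal.aleph 1) :
    ∃ X : Set ℝ, Cho (Z := X) Ta Ga ∧ ∃ W : ℕ → Set (X × X), (∀ n, IsOpen (W n)) ∧
      (∀ n, W n ≠ univ) ∧ IT univ W ∧
        ∀ S : Set ℕ, ∃ q, (∀ n, q ∈ W n → n ∈ S) ∨ ∀ n, q ∈ W n → n ∉ S := by
  classical
  obtain ⟨Y, a1, a2, a3, T, a4, a5, a6⟩ := luz hCH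
  obtain ⟨X, e, e1, e2, e3, e4, e5⟩ := wrap Y
  obtain ⟨A, hA, B, hB, c1, -⟩ := a3 ∅
  have : Nonempty X := ⟨(e2 A hA).choose⟩
  have p4 : ∀ i (q : Prop), IsClopen {x | i ∈ e x ↔ q} := fun i q => by
    by_cases hq : q
    · simpa [hq] using e4 i
    · simpa [hq, compl_setOf] using (e4 i).compl
  let W : ℕ → Set (X × X) := fun n => {q | (n ∈ e q.1 ∧ n ∈ e q.2) ∨ ∃ i, i ∉ e q.1 ∧ i ∉ e q.2}
  have w1 : ∀ q : X × X, (∀ n, q ∈ W n) ∨ ∃ a ∈ T, ∀ᶠ n in atTop, q ∈ W n ↔ n ∈ a := fun q => by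
    by_cases h : ∃ i, i ∉ e q.1 ∧ i ∉ e q.2
    · exact Or.inl fun _ => Or.inr h
    · obtain ⟨a, b1, b2⟩ := a6 _ (e1 q.1) _ (e1 q.2)
        (eq_univ_of_forall fun i => by_contra fun c => h ⟨i, not_or.1 c⟩)
      exact Or.inr ⟨a, b1, b2.mono fun n hn => (or_iff_left h).trans hn⟩
  refine ⟨X, tg_cho (tg_luz fun U u1 u2 => ?_), W, fun n => ?_, fun n c => ?_, ⟨fun q _ => ?_,
    fun q _ r _ => ?_⟩, fun S => ?_⟩
  · obtain ⟨O, o1, o2⟩ := e5 U u1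
    refine Countable.mono (fun x hx => ?_) ((a2 O o1 fun M c => ?_).preimage e3)
    · exact ⟨e1 x, fun c => hx ((o2 x).2 c)⟩
    obtain ⟨x, hx⟩ := e2 {i | if i < c then i ∈ M else i ∈ A} (a1 A hA _
      ((eventually_ge_atTop c).mono fun i hi => by rw [mem_setOf_eq, if_neg hi.not_gt]))
    obtain ⟨y, y1, y2⟩ := u2.inter_open_nonempty (⋂ i ∈ Iio c, {x | i ∈ e x ↔ i ∈ M})
      ((finite_Iio c).isOpen_biInter fun i _ => (p4 _ _).isOpen)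
      ⟨x, mem_iInter₂.2 fun i hi => by rw [mem_setOf_eq, hx, mem_setOf_eq, if_pos (show i < c from hi)]⟩
    exact ⟨e y, fun i hi => mem_iInter₂.1 y1 i hi, (o2 y).1 y2⟩
  · refine (((e4 n).isOpen.preimage continuous_fst).inter
      ((e4 n).isOpen.preimage continuous_snd)).union ?_
    show IsOpen {q : X × X | ∃ i, i ∉ e q.1 ∧ i ∉ e q.2}
    rw [setOf_exists]
    exact isOpen_iUnion fun i => ((e4 i).compl.isOpen.preimage continuous_fst).inter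
      ((e4 i).compl.isOpen.preimage continuous_snd)
  · obtain ⟨x, hx⟩ := e2 (A \ {n}) (a1 A hA _ ((eventually_ne_atTop n).mono fun i hi =>
      and_iff_left hi))
    obtain ⟨y, hy⟩ := e2 (insert n B) (a1 B hB _ ((eventually_ne_atTop n).mono fun i hi =>
      or_iff_right hi))
    rcases (c ▸ mem_univ _ : (x, y) ∈ W n) with h | ⟨i, h1, h2⟩
    · exact (hx ▸ h.1 : n ∈ A \ {n}).2 rfl
    · rw [hx] at h1
      rw [hy] at h2
      exact (c1 ▸ mem_univ i : i ∈ A ∪ B).elim (fun h => h1 ⟨h, fun h3 => h2 (Or.inl h3)⟩)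
        fun h => h2 (Or.inr h)
  · rcases w1 q with h | ⟨a, b1, b2⟩
    · exact .of_forall h
    · exact ((Nat.frequently_atTop_iff_infinite.2 (a4 a b1)).and_eventually b2).mono
        fun n h => h.2.2 h.1
  · rcases w1 r with h | ⟨b, b1, b2⟩
    · exact Or.inl (.of_forall fun n _ => h n)
    rcases w1 q with h | ⟨a, b3, b4⟩
    · exact Or.inr (.of_forall fun n _ => h n)
    exact (a5 a b3 b b1).imp (fun h => (h.and (b2.and b4)).mono fun n h c =>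
      h.2.1.2 (h.1 (h.2.2.1 c))) fun h => (h.and (b2.and b4)).mono fun n h c =>
        h.2.2.2 (h.1 (h.2.1.1 c))
  · obtain ⟨A, hA, B, hB, c1, c2⟩ := a3 S
    obtain ⟨x, rfl⟩ := e2 A hA
    obtain ⟨y, rfl⟩ := e2 B hB
    have c3 : ∀ n, (x, y) ∈ W n → n ∈ e x ∩ e y := fun n h => h.resolve_right fun ⟨i, h1, h2⟩ =>
      (c1 ▸ mem_univ i : i ∈ e x ∪ e y).elim h1 h2
    exact ⟨(x, y), c2.imp (fun h n c => h (c3 n c)) fun h n c => h (c3 n c)⟩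

theorem nsplit {Z : Type*} [TopologicalSpace Z] {W : ℕ → Set Z} (h1 : ∀ n, IsOpen (W n))
    (h2 : ∀ n, W n ≠ univ) (h3 : IT univ W)
    (h4 : ∀ S : Set ℕ, ∃ q, (∀ n, q ∈ W n → n ∈ S) ∨ ∀ n, q ∈ W n → n ∉ S) :
    ¬ Split (Z := Z) Ta Ta := by
  intro h
  obtain ⟨𝓥, 𝓦, c1, c2, ⟨𝓐, c3, c4⟩, 𝓑, c5, c6⟩ := h _ (it_ta h1 h2 h3).1
  obtain ⟨q, hq⟩ := h4 (W ⁻¹' 𝓥)
  rcases hq with hq | hq
  · obtain ⟨U, d1, d2⟩ := (c6.2.1 q).nonempty
    obtain ⟨n, rfl⟩ := (c2 ▸ Or.inr (c5 d1) : U ∈ range W)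
    exact disjoint_left.1 c1 (hq n d2) (c5 d1)
  · obtain ⟨U, d1, d2⟩ := (c4.2.1 q).nonempty
    obtain ⟨n, rfl⟩ := (c2 ▸ Or.inl (c3 d1) : U ∈ range W)
    exact hq n d2 (c3 d1)

end Pool.Agent.Lib.helper32.Tau
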