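import Mathlib

set_option autoImplicit false

namespace Pool.Agent.Lib.helper32.NormalWL

open Filter Topology Set

theorem rec_ex {T Y : Type} [Nonempty Y] [LinearOrder T] [WellFoundedLT T]
    (R : T → (T → Y) → Y → Prop) (hR : ∀ t f, ∃ y, R t f y)
    (hloc : ∀ t f g y, (∀ s < t, f s = g s) → R t f y → R t g y) :
    ∃ p : T → Y, ∀ t, R t p (p t) := by
  classical
  choose F hF using hR
  let p : T → Y := (wellFounded_lt (α := T)).fix
    fun t ih => F t fun s => if h : s < t then ih s h else Classical.arbitrary Y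
  refine ⟨p, fun t => ?_⟩
  have : p t = F t fun s => if s < t then p s else Classical.arbitrary Y := by
    simp only [p]; rw [WellFounded.fix_eq]; simp
  rw [this]
  exact hloc t _ _ _ (fun s hs => if_pos hs) (hF t _)

theorem close {Ω : Type} [Nonempty Ω] (τ : Set Ω → Set Ω → Set Ω)
    (hτ : ∀ a b, (τ a b).Countable) :
    ∃ s : ℕ → Set Ω, (∀ n, (s n).Finite) ∧ ∀ j k, ∀ ω ∈ τ (s j) (s k), ∀ᶠ n in atTop, ω ∈ s n := by
  have hen : ∀ a b, ∃ c : ℕ → Ω, τ a b ⊆ range c := fun a b => by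
    obtain ⟨c, hc⟩ := ((hτ a b).insert (Classical.arbitrary Ω)).exists_eq_range (insert_nonempty _ _)
    exact ⟨c, hc ▸ subset_insert _ _⟩
  choose c hc using hen
  let J : ℕ → Set (Set Ω) → Set Ω := fun k q => ⋃ a ∈ q, ⋃ b ∈ q, c a b '' Iio k
  let q : ℕ → Set (Set Ω) := fun k => Nat.rec ∅ (fun k a => insert (J k a) a) k
  have hq : ∀ k, (q k).Finite := fun k => by
    induction k with
    | zero => exact finite_empty
    | succ k ih => exact ih.insert _
  have hmono : Monotone q := monotone_nat_of_le_succ fun k => subset_insert _ _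
  refine ⟨fun k => J k (q k), fun k => (hq k).biUnion fun a _ => (hq k).biUnion fun b _ =>
    (finite_Iio k).image _, fun j k ω hω => ?_⟩
  obtain ⟨i, rfl⟩ := hc _ _ hω
  filter_upwards [eventually_gt_atTop i, eventually_gt_atTop j, eventually_gt_atTop k]
    with n h1 h2 h3
  simp only [J, mem_iUnion]
  exact ⟨_, hmono (show j + 1 ≤ n from h2) (mem_insert _ _), _,
    hmono (show k + 1 ≤ n from h3) (mem_insert _ _), i, h1, rfl⟩

theorem nhds_pi' {Ω : Type} {y : Ω → Bool} {O : Set (Ω → Bool)} (h : O ∈ 𝓝 y) :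
    ∃ I : Set Ω, I.Finite ∧ ∀ s : Ω → Bool, (∀ i ∈ I, s i = y i) → s ∈ O := by
  rw [nhds_pi, Filter.mem_pi] at h
  obtain ⟨I, hI, t, ht, hO⟩ := h
  exact ⟨I, hI, fun s hs => hO fun i hi => by rw [hs i hi]; exact mem_of_mem_nhds (ht i)⟩

variable {I : Type} [LinearOrder I]

abbrev Nd (I : Type) : Type := I × (I → ℝ)
abbrev Om (I : Type) : Type := (I → ℝ) ⊕ Nd I ⊕ (I → ℝ)

def lb (q : I → ℝ) : Om I := Sum.inl q
def nd (v : Nd I) : Om I := Sum.inr (Sum.inl v)
def br (q : I → ℝ) : Om I := Sum.inr (Sum.inr q)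

noncomputable def node (q : I → ℝ) (b : I) : Nd I := (b, fun i => if i < b then q i else 0)

def Le (u v : Nd I) : Prop := u.1 ≤ v.1 ∧ ∀ i < u.1, v.2 i = u.2 i
def Ex (q : I → ℝ) (u : Nd I) : Prop := ∀ i < u.1, q i = u.2 i

theorem Le.trans {u v w : Nd I} (h : Le u v) (h' : Le v w) : Le u w :=
  ⟨h.1.trans h'.1, fun i hi => (h'.2 i (hi.trans_le h.1)).trans (h.2 i hi)⟩

theorem bdd [Uncountable I] (h1 : ∀ i : I, (Iio i).Countable) {S : Set I} (hS : S.Countable) :
    ∃ b, ∀ s ∈ S, s < b := by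
  by_contra hc
  push Not at hc
  refine Set.not_countable_univ ((hS.biUnion fun s _ => (h1 s).insert s).mono fun b _ => ?_)
  obtain ⟨s, h2, h3⟩ := hc b
  exact mem_biUnion h2 (h3.eq_or_lt)

theorem glue {J : Type} (p : J → Nd I) (h : ∀ a b, Le (p a) (p b) ∨ Le (p b) (p a)) :
    ∃ f : I → ℝ, ∀ a, Ex f (p a) := by
  classical
  refine ⟨fun i => if h : ∃ a, i < (p a).1 then (p h.choose).2 i else 0, fun a i hi => ?_⟩
  have h2 : ∃ a, i < (p a).1 := ⟨a, hi⟩
  simp only [h2, dif_pos]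
  rcases h a h2.choose with h3 | h3
  · exact h3.2 i hi
  · exact (h3.2 i h2.choose_spec).symm

theorem baire [WellFoundedLT I] [Uncountable I] (h1 : ∀ i : I, (Iio i).Countable) (t : Nd I)
    (g : (I → ℝ) → I) : ∃ u b, Le t u ∧ ∀ v, Le u v → ∃ q, Ex q v ∧ g q = b := by
  by_contra hc
  push Not at hc
  obtain ⟨p, hp⟩ := rec_ex (T := I) (Y := Nd I) (fun ξ p y => Le t y ∧ (∀ q, Ex q y → g q ≠ ξ) ∧
      ((∀ a < ξ, Le t (p a) ∧ ∀ b < a, Le (p b) (p a)) → ∀ a < ξ, Le (p a) y)) (by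
    intro ξ p
    by_cases h : ∀ a < ξ, Le t (p a) ∧ ∀ b < a, Le (p b) (p a)
    · obtain ⟨f, hf⟩ := glue (J := Option (Iio ξ)) (fun o => o.elim t fun a => p a) (by
        rintro (_ | a) (_ | b)
        · exact Or.inl ⟨le_rfl, fun _ _ => rfl⟩
        · exact Or.inl (h b b.2).1
        · exact Or.inr (h a a.2).1
        · rcases lt_trichotomy a.1 b.1 with h2 | h2 | h2
          · exact Or.inl ((h b b.2).2 a h2)
          · exact Or.inl (by rw [Option.elim, Option.elim, h2]; exact ⟨le_rfl, fun _ _ => rfl⟩)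
          · exact Or.inr ((h a a.2).2 b h2))
      obtain ⟨c, hc2⟩ := bdd h1 (((h1 ξ).image fun a => (p a).1).insert t.1)
      have h2 : Le t (c, f) := ⟨(hc2 _ (Or.inl rfl)).le, hf none⟩
      obtain ⟨v, h3, h4⟩ := hc (c, f) ξ h2
      exact ⟨v, h2.trans h3, h4, fun _ a ha =>
        Le.trans (v := (c, f)) ⟨(hc2 _ (Or.inr ⟨a, ha, rfl⟩)).le, hf (some ⟨a, ha⟩)⟩ h3⟩
    · obtain ⟨v, h3, h4⟩ := hc t ξ ⟨le_rfl, fun _ _ => rfl⟩
      exact ⟨v, h3, h4, fun h5 => absurd h5 h⟩) (by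
    intro ξ f g y h h2
    refine ⟨h2.1, h2.2.1, fun h3 a ha => h a ha ▸ h2.2.2 (fun a ha => ?_) a ha⟩
    rw [h a ha]
    exact ⟨(h3 a ha).1, fun b hb => by rw [h b (hb.trans ha)]; exact (h3 a ha).2 b hb⟩)
  have h2 : ∀ ξ, ∀ a < ξ, Le (p a) (p ξ) := fun ξ => by
    induction ξ using WellFoundedLT.induction with
    | ind ξ ih => exact (hp ξ).2.2 fun a ha => ⟨(hp a).1, ih a ha⟩
  obtain ⟨f, hf⟩ := glue p fun a b => by
    rcases lt_trichotomy a b with h3 | rfl | h3
    · exact Or.inl (h2 b a h3)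
    · exact Or.inl ⟨le_rfl, fun _ _ => rfl⟩
    · exact Or.inr (h2 a b h3)
  exact (hp (g f)).2.1 f (hf _) rfl

theorem ad (h1 : ∀ i : I, (Iio i).Countable) {q q' : I → ℝ} (h : q ≠ q') :
    (range (node q) ∩ range (node q')).Countable := by
  obtain ⟨i, hi⟩ := Function.ne_iff.1 h
  refine (((h1 i).insert i).image (node q)).mono ?_
  rintro _ ⟨⟨b, rfl⟩, b', h2⟩
  obtain rfl : b' = b := congrArg Prod.fst h2
  refine ⟨b', ?_, rfl⟩
  by_contra hc
  have h3 : i < b' := lt_of_not_ge fun h4 => hc h4.eq_or_lt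
  have := congrFun (congrArg Prod.snd h2) i
  simp only [node, h3, if_true] at this
  exact hi this.symm

def TT (x : Om I → Bool) : Set (I → ℝ) := {q | x (br q) = true}
def EE (x : Om I → Bool) : Set (Nd I) := {v | ¬ (x (nd v) = true ↔ ∃ q ∈ TT x, v ∈ range (node q))}

def XX (I : Type) [LinearOrder I] : Set (Om I → Bool) :=
  {x | (∀ q q', x (lb q) = true → x (lb q') = true → q = q') ∧
    (∀ q, x (lb q) = true → x (br q) = true) ∧ (TT x).Countable ∧ (EE x).Countable}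

def sg (x y : XX I) : Set (Om I) := lb '' TT x.1 ∪ br '' TT x.1 ∪ nd '' EE x.1 ∪
  nd '' ⋃ q ∈ TT x.1, ⋃ q' ∈ TT y.1 \ {q}, range (node q) ∩ range (node q')

theorem sg_count (h1 : ∀ i : I, (Iio i).Countable) (x y : XX I) : (sg x y).Countable := by
  have a1 : (TT x.1).Countable := x.2.2.2.1
  have a2 : (TT y.1).Countable := y.2.2.2.1
  have a3 : (EE x.1).Countable := x.2.2.2.2
  refine (((a1.image _).union (a1.image _)).union (a3.image _)).union (Countable.image ?_ _)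
  refine a1.biUnion fun q _ => (a2.mono sdiff_subset).biUnion fun q' hq => ad h1 ?_
  exact fun e => hq.2 e.symm

def Det (M : Set (Om I)) (w : Om I → Bool) : Prop :=
  (∀ q, w (lb q) = true → lb q ∈ M) ∧ (∀ q, w (br q) = true → br q ∈ M) ∧
    ∀ v ∈ EE w, nd v ∈ M

theorem lim (x : ℕ → XX I) {M : Set (Om I)} (hM : M.Countable) (h : ∀ j k, sg (x j) (x k) ⊆ M) :
    ∃ w : XX I, Det M w.1 ∧ Tendsto x (hyperfilter ℕ) (𝓝 w) ∧
      ∀ ω, ∀ᶠ n in hyperfilter ℕ, (x n).1 ω = w.1 ω := by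
  obtain ⟨w, -, hw⟩ := isCompact_univ.ultrafilter_le_nhds
    ((hyperfilter ℕ).map fun k => (x k).1) (by simp)
  have hw2 : ∀ ω, ∀ᶠ n in hyperfilter ℕ, (x n).1 ω = w ω := fun ω =>
    tendsto_pure.1 (by
      have := ((continuous_apply ω).tendsto w).comp hw
      rwa [nhds_discrete] at this)
  have hD : Det M w := by
    refine ⟨fun q hq => ?_, fun q hq => ?_, fun v hv => ?_⟩
    · obtain ⟨n, hn⟩ := (hw2 (lb q)).exists
      exact h n n (Or.inl (Or.inl (Or.inl ⟨q, (x n).2.2.1 q (hn.trans hq), rfl⟩)))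
    · obtain ⟨n, hn⟩ := (hw2 (br q)).exists
      exact h n n (Or.inl (Or.inl (Or.inr ⟨q, hn.trans hq, rfl⟩)))
    · by_contra hc
      have h2 : ∀ n, (x n).1 (nd v) = true ↔ ∃ q ∈ TT (x n).1, v ∈ range (node q) := fun n =>
        by_contra fun h3 => hc (h n n (Or.inl (Or.inr ⟨v, h3, rfl⟩)))
      refine hv ⟨fun h3 => ?_, fun ⟨q, h3, h4⟩ => ?_⟩
      · obtain ⟨n, hn⟩ := (hw2 (nd v)).exists
        obtain ⟨q, h4, h5⟩ := (h2 n).1 (hn.trans h3)
        obtain ⟨m, h6, h7⟩ := ((hw2 (nd v)).and (hw2 (br q))).exists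
        obtain ⟨q', h8, h9⟩ := (h2 m).1 (h6.trans h3)
        refine ⟨q, ?_, h5⟩
        by_cases e : q' = q
        · exact h7.symm.trans (e ▸ h8)
        · exact absurd (h n m (Or.inr ⟨v, mem_biUnion h4 (mem_biUnion ⟨h8, e⟩ ⟨h5, h9⟩), rfl⟩)) hc
      · obtain ⟨m, h6, h7⟩ := ((hw2 (nd v)).and (hw2 (br q))).exists
        exact h6.symm.trans ((h2 m).2 ⟨q, h7.trans h3, h4⟩)
  refine ⟨⟨w, fun q q' h2 h3 => ?_, fun q h2 => ?_, ?_, ?_⟩, hD, tendsto_subtype_rng.2 hw, hw2⟩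
  · obtain ⟨m, h6, h7⟩ := ((hw2 (lb q)).and (hw2 (lb q'))).exists
    exact (x m).2.1 q q' (h6.trans h2) (h7.trans h3)
  · obtain ⟨m, h6, h7⟩ := ((hw2 (lb q)).and (hw2 (br q))).exists
    exact h7.symm.trans ((x m).2.2.1 q (h6.trans h2))
  · exact (hM.preimage_of_injOn (f := br) fun a _ b _ e => by simpa [br] using e).mono hD.2.1
  · exact (hM.preimage_of_injOn (f := nd) fun a _ b _ e => by simpa [nd] using e).mono hD.2.2

theorem det_eq {M : Set (Om I)} {w w' : Om I → Bool} (h : Det M w) (h' : Det M w')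
    (he : ∀ ω ∈ M, w ω = w' ω) : w = w' := by
  have hb : ∀ q, w (br q) = true ↔ w' (br q) = true := fun q =>
    ⟨fun h1 => (he _ (h.2.1 q h1)).symm.trans h1, fun h1 => (he _ (h'.2.1 q h1)).trans h1⟩
  funext ω
  by_cases hω : ω ∈ M
  · exact he ω hω
  rw [Bool.eq_iff_iff]
  rcases ω with q | v | q
  · exact ⟨fun h1 => absurd (h.1 q h1) hω, fun h1 => absurd (h'.1 q h1) hω⟩
  · have h1 := not_not.1 (mt (h.2.2 v) hω)
    have h2 := not_not.1 (mt (h'.2.2 v) hω)
    exact h1.trans (Iff.trans (exists_congr fun q => and_congr_left fun _ => hb q) h2.symm)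
  · exact hb q

theorem normal [Nonempty I] (h1 : ∀ i : I, (Iio i).Countable) : NormalSpace (XX I) := by
  refine ⟨fun F G hF hG hd => ?_⟩
  have key : Disjoint (closure (Subtype.val '' F)) (closure (Subtype.val '' G)) := by
    refine disjoint_left.2 fun z hz hz' => ?_
    have sel : ∀ A : Set (XX I), z ∈ closure (Subtype.val '' A) → ∀ s : Set (Om I),
        ∃ x ∈ A, s.Finite → ∀ ω ∈ s, x.1 ω = z ω := by
      intro A hA s
      by_cases hs : s.Finite
      · obtain ⟨_, h2, x, hx, rfl⟩ := mem_closure_iff_nhds.1 hA (s.pi fun ω => {z ω})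
          (set_pi_mem_nhds hs fun ω _ => (isOpen_discrete _).mem_nhds rfl)
        exact ⟨x, hx, fun _ => h2⟩
      · obtain ⟨_, x, hx, rfl⟩ := closure_nonempty_iff.1 ⟨z, hA⟩
        exact ⟨x, hx, fun h => absurd h hs⟩
    choose x hx hx2 using sel F hz
    choose y hy hy2 using sel G hz'
    obtain ⟨s, hs, hs2⟩ := close (fun a b => sg (x a) (x b) ∪ sg (y a) (y b))
      fun a b => (sg_count h1 _ _).union (sg_count h1 _ _)
    have hM : (⋃ j, ⋃ k, sg (x (s j)) (x (s k)) ∪ sg (y (s j)) (y (s k))).Countable :=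
      countable_iUnion fun j => countable_iUnion fun k => (sg_count h1 _ _).union (sg_count h1 _ _)
    obtain ⟨w, a1, a2, a3⟩ := lim (fun n => x (s n)) hM fun j k =>
      subset_union_left.trans (subset_iUnion₂ (s := fun j k =>
        sg (x (s j)) (x (s k)) ∪ sg (y (s j)) (y (s k))) j k)
    obtain ⟨w', b1, b2, b3⟩ := lim (fun n => y (s n)) hM fun j k =>
      subset_union_right.trans (subset_iUnion₂ (s := fun j k =>
        sg (x (s j)) (x (s k)) ∪ sg (y (s j)) (y (s k))) j k)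
    have : w = w' := Subtype.ext (det_eq a1 b1 fun ω hω => by
      obtain ⟨j, k, h2⟩ := mem_iUnion₂.1 hω
      obtain ⟨n, h3, h4, h5⟩ := ((a3 ω).and ((b3 ω).and
        (Nat.hyperfilter_le_atTop (hs2 j k ω h2)))).exists
      rw [← h3, ← h4, hx2 _ (hs n) ω h5, hy2 _ (hs n) ω h5])
    exact disjoint_left.1 hd (hF.mem_of_tendsto a2 (Eventually.of_forall fun n => hx _))
      (this ▸ hG.mem_of_tendsto b2 (Eventually.of_forall fun n => hy _))
  exact ((normal_separation isClosed_closure isClosed_closure key).preimage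
    continuous_subtype_val).mono (fun x hx => subset_closure ⟨x, hx, rfl⟩)
    fun x hx => subset_closure ⟨x, hx, rfl⟩

theorem real (b : Om I → Bool) {s : Set (Om I)} (hs : s.Finite)
    (hb : ∀ q q', b (lb q) = true → b (lb q') = true → q = q')
    (hb2 : ∀ q, b (lb q) = true → b (br q) = true) :
    ∃ w : XX I, (∀ ω ∈ s, w.1 ω = b ω) ∧ ∀ q, w.1 (lb q) = b (lb q) := by
  classical
  let T : Set (I → ℝ) := {q | b (br q) = true ∧ (br q ∈ s ∨ b (lb q) = true)}
  have hT : T.Countable := by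
    refine ((hs.preimage (f := br) fun a _ b _ e => by simpa [br] using e).countable.union
      (Set.Subsingleton.countable (s := {q | b (lb q) = true}) fun q h q' h' =>
        hb q q' h h')).mono fun q hq => hq.2
  let w : Om I → Bool := Sum.elim (fun q => b (lb q)) (Sum.elim
    (fun v => if nd v ∈ s then b (nd v) else decide (∃ q ∈ T, v ∈ range (node q)))
    fun q => decide (q ∈ T))
  have hw : TT w = T := by ext q; simp [TT, w, br]
  refine ⟨⟨w, hb, fun q hq => decide_eq_true ⟨hb2 q hq, Or.inr hq⟩, hw ▸ hT,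
    (hs.preimage (f := nd) fun a _ b _ e => by simpa [nd] using e).countable.mono ?_⟩, ?_,
    fun q => rfl⟩
  · intro v hv
    by_contra hc
    refine hv ?_
    rw [hw]
    change (if nd v ∈ s then _ else _) = true ↔ _
    rw [if_neg (show nd v ∉ s from hc), decide_eq_true_iff]
  · rintro (q | v | q) hω
    · rfl
    · exact if_pos hω
    · rw [Bool.eq_iff_iff]
      exact decide_eq_true_iff.trans ⟨fun h => h.1, fun h => ⟨h, Or.inl hω⟩⟩

def sym (s : Set (Om I)) : Set (Om I) := s ∪ lb '' (br ⁻¹' s)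

theorem wl (𝓤 : Set (Set (XX I))) (hU : ∀ U ∈ 𝓤, IsOpen U) (hc : ⋃₀ 𝓤 = univ) :
    ∃ 𝓥 ⊆ 𝓤, 𝓥.Countable ∧ Dense (⋃₀ 𝓥) := by
  classical
  have hnb : ∀ (x : XX I) (W : Set (XX I)), IsOpen W → x ∈ W → ∃ s : Set (Om I), s.Finite ∧
      ∀ y : XX I, (∀ ω ∈ s, y.1 ω = x.1 ω) → y ∈ W := by
    intro x W hW hx
    have := hW.mem_nhds hx
    rw [nhds_induced] at this
    obtain ⟨O, h1, h2⟩ := this
    obtain ⟨s, h3, h4⟩ := nhds_pi' h1
    exact ⟨s, h3, fun y hy => h2 (h4 _ hy)⟩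
  have h0 : ∀ x : XX I, ∃ U ∈ 𝓤, ∃ s : Set (Om I), s.Finite ∧
      ∀ y : XX I, (∀ ω ∈ s, y.1 ω = x.1 ω) → y ∈ U := fun x => by
    obtain ⟨U, h1, h2⟩ : x ∈ ⋃₀ 𝓤 := hc ▸ mem_univ _
    exact ⟨U, h1, hnb x U (hU U h1) h2⟩
  choose U hUU S hS hS2 using h0
  let P : Set (Om I × Bool) → XX I → Prop := fun p x =>
    (∀ a ∈ p, x.1 a.1 = a.2) ∧ ∀ q, x.1 (lb q) = true → (lb q, true) ∈ p
  obtain ⟨x0, -⟩ := real (I := I) (fun _ => false) finite_empty (by simp) (by simp)
  have h1 : ∀ p, ∃ x, (∃ y, P p y) → P p x := fun p => by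
    by_cases h : ∃ y, P p y
    · exact ⟨h.choose, fun _ => h.choose_spec⟩
    · exact ⟨x0, fun h' => absurd h' h⟩
  choose ch hch using h1
  let C : Set (Om I) → Set (Set (Om I × Bool)) := fun M => {p | p.Finite ∧ p ⊆ M ×ˢ univ}
  have hC : ∀ M, M.Countable → (C M).Countable := fun M hM =>
    countable_setOf_finite_subset (hM.prod countable_univ)
  let M : ℕ → Set (Om I) := fun n => Nat.rec ∅ (fun _ A => A ∪ ⋃ p ∈ C A, sym (S (ch p))) n
  have hM : ∀ n, (M n).Countable := fun n => by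
    induction n with
    | zero => exact countable_empty
    | succ n ih =>
      exact ih.union ((hC _ ih).biUnion fun p _ => ((hS _).union (((hS _).preimage
        fun a _ b _ e => by simpa [br] using e).image _)).countable)
  have hmono : Monotone M := monotone_nat_of_le_succ fun n => subset_union_left
  have hsym : ∀ n q, br q ∈ M n → lb q ∈ M n := fun n q => by
    induction n with
    | zero => exact fun h => h.elim
    | succ n ih =>
      rintro (h | h)
      · exact Or.inl (ih h)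
      · obtain ⟨p, h2, h3⟩ := mem_iUnion₂.1 h
        refine Or.inr (mem_biUnion h2 (Or.inr ⟨q, ?_, rfl⟩))
        rcases h3 with h3 | ⟨_, -, h3⟩
        · exact h3
        · cases h3
  set N := ⋃ n, M n with hN
  refine ⟨(fun p => U (ch p)) '' C N, by rintro _ ⟨p, -, rfl⟩; exact hUU _,
    (hC N (countable_iUnion hM)).image _, dense_iff_inter_open.2 ?_⟩
  rintro W hW ⟨x, hx⟩
  obtain ⟨s, hs, hs2⟩ := hnb x W hW hx
  have hfin : (s ∪ lb '' {q | x.1 (lb q) = true}).Finite :=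
    hs.union ((Set.Subsingleton.finite fun q h q' h' => x.2.1 q q' h h').image _)
  let p : Set (Om I × Bool) := (fun ω => (ω, x.1 ω)) '' ((s ∪ lb '' {q | x.1 (lb q) = true}) ∩ N)
  have hp : p ∈ C N := ⟨(hfin.inter_of_left _).image _, by
    rintro _ ⟨ω, h, rfl⟩; exact ⟨h.2, trivial⟩⟩
  have hP : P p (ch p) := by
    let b : Om I → Bool := Sum.elim (fun q => if lb q ∈ N then x.1 (lb q) else false)
      fun ω => x.1 (Sum.inr ω)
    have hb : ∀ q, b (lb q) = true → lb q ∈ N ∧ x.1 (lb q) = true := fun q h => by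
      change (if _ then _ else _) = true at h
      split_ifs at h with h2
      exact ⟨h2, h⟩
    obtain ⟨y, hy, hy2⟩ := real b hfin (fun q q' h h' => x.2.1 q q' (hb q h).2 (hb q' h').2)
      fun q h => x.2.2.1 q (hb q h).2
    refine hch p ⟨y, ?_, fun q h => ?_⟩
    · rintro _ ⟨ω, h, rfl⟩
      rw [hy ω h.1]
      rcases ω with q | ω
      · exact if_pos h.2
      · rfl
    · have := hb q ((hy2 q).symm.trans h)
      exact ⟨lb q, ⟨Or.inr ⟨q, this.2, rfl⟩, this.1⟩, Prod.ext rfl this.2⟩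
  have hSN : S (ch p) ⊆ N := by
    obtain ⟨n, hn⟩ : ∃ n, (s ∪ lb '' {q | x.1 (lb q) = true}) ∩ N ⊆ M n :=
      ((eventually_all_finite (hfin.inter_of_left N)).2 fun ω hω => by
        obtain ⟨n, hn⟩ := mem_iUnion.1 hω.2
        filter_upwards [eventually_ge_atTop n] with m hm using hmono hm hn :
        ∀ᶠ n in atTop, ∀ ω ∈ (s ∪ lb '' {q | x.1 (lb q) = true}) ∩ N, ω ∈ M n).exists
    refine fun ω hω => mem_iUnion.2 ⟨n + 1, Or.inr (mem_biUnion (x := p) ⟨hp.1, ?_⟩ (Or.inl hω))⟩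
    rintro _ ⟨ω, h, rfl⟩
    exact ⟨hn h, trivial⟩
  have hlab : ∀ q, lb q ∈ N → (ch p).1 (lb q) = x.1 (lb q) := fun q hq => by
    rw [Bool.eq_iff_iff]
    refine ⟨fun h => ?_, fun h => ?_⟩
    · obtain ⟨ω, -, e⟩ := hP.2 q h
      obtain ⟨rfl, e2⟩ := Prod.mk.inj e
      exact e2
    · exact (hP.1 _ ⟨lb q, ⟨Or.inr ⟨q, h, rfl⟩, hq⟩, rfl⟩).trans h
  let b : Om I → Bool := fun ω => if ω ∈ N then (ch p).1 ω else x.1 ω
  have hb : ∀ q, b (lb q) = x.1 (lb q) := fun q => by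
    by_cases h : lb q ∈ N
    · exact (if_pos h).trans (hlab q h)
    · exact if_neg h
  obtain ⟨w, hw, -⟩ := real b (hs.union (hS (ch p)))
    (fun q q' h h' => x.2.1 q q' ((hb q).symm.trans h) ((hb q').symm.trans h')) (by
      intro q h
      by_cases h2 : br q ∈ N
      · obtain ⟨n, hn⟩ := mem_iUnion.1 h2
        exact (if_pos h2).trans ((ch p).2.2.1 q
          ((hlab q (mem_iUnion.2 ⟨n, hsym n q hn⟩)).trans ((hb q).symm.trans h)))
      · exact (if_neg h2).trans (x.2.2.1 q ((hb q).symm.trans h)))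
  refine ⟨w, hs2 w fun ω hω => (hw ω (Or.inl hω)).trans ?_, _, ⟨p, hp, rfl⟩,
    hS2 _ w fun ω hω => (hw ω (Or.inr hω)).trans (if_pos (hSN hω))⟩
  by_cases h : ω ∈ N
  · exact (if_pos h).trans (hP.1 _ ⟨ω, ⟨Or.inl hω, h⟩, rfl⟩)
  · exact if_neg h

def UU (q : I → ℝ) : Set (XX I) := {x | x.1 (lb q) = true}

theorem co (ω : Om I) (b : Bool) : IsClopen {x : XX I | x.1 ω = b} :=
  (isClopen_discrete {b}).preimage ((continuous_apply ω).comp continuous_subtype_val)

theorem UU_ne (q : I → ℝ) : (UU q).Nonempty := by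
  classical
  obtain ⟨w, -, hw⟩ := real (I := I) (Sum.elim (fun q' => decide (q' = q)) fun _ => true)
    finite_empty (fun a b h h' => (of_decide_eq_true h).trans (of_decide_eq_true h').symm)
    fun _ _ => rfl
  exact ⟨w, (hw q).trans (decide_eq_true rfl)⟩

theorem notcell [WellFoundedLT I] [Uncountable I] (h1 : ∀ i : I, (Iio i).Countable)
    {L : Set (XX I)} (hL : IsLindelof L) : ∃ q, Disjoint (UU q) L := by
  classical
  by_contra hc
  push Not at hc
  choose x hx hxL using fun q => not_disjoint_iff.1 (hc q)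
  choose g hg using fun q => bdd h1 ((x q).2.2.2.2.image Prod.fst)
  have h2 : ∀ q b, g q ≤ b → (x q).1 (nd (node q b)) = true := fun q b hb => by
    by_contra h3
    exact (hg q b ⟨node q b, fun h4 => h3 (h4.2 ⟨q, (x q).2.2.1 q (hx q), b, rfl⟩), rfl⟩).not_ge hb
  have h3 : ∀ (d : I → ℝ) (c : I), ∃ e, ∀ y ∈ L, y.1 (br d) = false →
      ∃ b, c ≤ b ∧ b < e ∧ y.1 (nd (node d b)) = false := by
    intro d c
    obtain ⟨r, hr, hr2⟩ := (hL.inter_right (co (br d) false).1).elim_countable_subcover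
      (fun b : Ici c => {y : XX I | y.1 (nd (node d b)) = false}) (fun b => (co _ _).2) (by
      rintro y ⟨-, hy⟩
      have a1 : (TT y.1).Countable := y.2.2.2.1
      have a2 : (EE y.1 ∪ ⋃ q ∈ TT y.1, range (node q) ∩ range (node d)).Countable :=
        y.2.2.2.2.union (a1.biUnion fun q hq => ad h1 (by
          rintro rfl; exact Bool.noConfusion (hy.symm.trans hq)))
      obtain ⟨b, hb⟩ := bdd h1 ((a2.image Prod.fst).insert c)
      refine mem_iUnion.2 ⟨⟨b, (hb c (Or.inl rfl)).le⟩, ?_⟩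
      by_contra h4
      have h5 : y.1 (nd (node d b)) = true := by simpa using h4
      refine (hb b (Or.inr ⟨node d b, ?_, rfl⟩)).false
      by_cases h6 : node d b ∈ EE y.1
      · exact Or.inl h6
      · obtain ⟨q, h7, h8⟩ := (not_not.1 h6).1 h5
        exact Or.inr (mem_biUnion h7 ⟨h8, b, rfl⟩))
    obtain ⟨e, he⟩ := bdd h1 (hr.image Subtype.val)
    refine ⟨e, fun y hy hy2 => ?_⟩
    obtain ⟨b, h4, h5⟩ := mem_iUnion₂.1 (hr2 ⟨hy, hy2⟩)
    exact ⟨b, b.2, he _ ⟨b, h4, rfl⟩, h5⟩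
  choose f hf using h3
  obtain ⟨u, c, -, hu⟩ := baire h1 (Classical.arbitrary _) g
  obtain ⟨v, e, huv, hv⟩ := baire h1 u fun d => f d c
  obtain ⟨c', hc'⟩ := bdd h1 (countable_singleton (max v.1 e))
  obtain ⟨q, hq, hq2⟩ := hu (max v.1 e, v.2) (huv.trans ⟨le_max_left _ _, fun _ _ => rfl⟩)
  have h4 : ∀ r : ℝ, ∃ d ∈ TT (x q).1, d (max v.1 e) = r := by
    intro r
    obtain ⟨d, hd, hd2⟩ := hv (c', Function.update v.2 (max v.1 e) r)
      ⟨(le_max_left _ _).trans (hc' _ rfl).le, fun i hi =>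
        Function.update_of_ne (hi.trans_le (le_max_left _ _)).ne _ _⟩
    refine ⟨d, ?_, (hd _ (hc' _ rfl)).trans (Function.update_self _ _ _)⟩
    by_contra h5
    obtain ⟨b, h6, h7, h8⟩ := hf d c _ (hxL q) (by simpa [TT] using h5)
    have h9 : node d b = node q b := by
      refine Prod.ext rfl (funext fun i => ?_)
      by_cases hi : i < b
      · have hi' : i < max v.1 e := hi.trans (hd2 ▸ h7 |>.trans_le (le_max_right _ _))
        simp only [node, hi, if_true]
        rw [hd i (hi'.trans (hc' _ rfl)), hq i hi']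
        exact Function.update_of_ne hi'.ne _ _
      · simp only [node, hi, if_false]
    rw [h9, h2 q b (hq2 ▸ h6)] at h8
    exact Bool.noConfusion h8
  have a1 : (TT (x q).1).Countable := (x q).2.2.2.1
  exact Set.not_countable_univ ((a1.image fun d => d (max v.1 e)).mono fun r _ => h4 r)

end Pool.Agent.Lib.helper32.NormalWL
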