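import Mathlib

set_option autoImplicit false

namespace Pool.Agent.Lib.helper32.ProdBd

open Set

theorem sup_close {ι : Type*} (a b : ι → ℝ) (C : ℝ) (hC : 0 ≤ C) (h : ∀ i, |a i - b i| ≤ C) :
    |(⨆ i, a i) - ⨆ i, b i| ≤ C := by
  rcases isEmpty_or_nonempty ι with _ | _
  · simpa using hC
  by_cases ha : BddAbove (range a)
  · obtain ⟨M, hM⟩ := id ha
    have hb : BddAbove (range b) := ⟨M + C, by
      rintro _ ⟨i, rfl⟩
      have := hM ⟨i, rfl⟩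
      have := abs_le.1 (h i)
      linarith⟩
    have h1 : (⨆ i, a i) ≤ (⨆ i, b i) + C := ciSup_le fun i => by
      have := le_ciSup hb i
      have := abs_le.1 (h i)
      linarith
    have h2 : (⨆ i, b i) ≤ (⨆ i, a i) + C := ciSup_le fun i => by
      have := le_ciSup ha i
      have := abs_le.1 (h i)
      linarith
    exact abs_le.2 ⟨by linarith, by linarith⟩
  · have hb : ¬ BddAbove (range b) := fun ⟨M, hM⟩ => ha ⟨M + C, by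
      rintro _ ⟨i, rfl⟩
      have := hM ⟨i, rfl⟩
      have := abs_le.1 (h i)
      linarith⟩
    rw [Real.iSup_of_not_bddAbove ha, Real.iSup_of_not_bddAbove hb]
    simpa using hC

variable {X Y : Type*}

/-- ideals of sets -/
def Idl (b : Set X → Prop) : Prop :=
  (∀ A B, b A → B ⊆ A → b B) ∧ ∀ A B, b A → b B → b (A ∪ B)

/-- every 1-Lipschitz functional of the sections is bounded off a bounded set -/
def Lip (b : Set X → Prop) (f : X → Y → ℝ) : Prop :=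
  ∀ g : X → ℝ, (∀ x x' C, 0 ≤ C → (∀ y, |f x y - f x' y| ≤ C) → |g x - g x'| ≤ C) →
    ∃ B M, b B ∧ ∀ x ∉ B, |g x| ≤ M

/-- on a bounded set of first coordinates the function is eventually bounded -/
def Ev (bX : Set X → Prop) (bY : Set Y → Prop) (f : X → Y → ℝ) : Prop :=
  ∀ A, bX A → ∃ B M, bY B ∧ ∀ x ∈ A, ∀ y ∉ B, |f x y| ≤ M

def T (f : X → Y → ℝ) : Set X := {x | ¬ ∃ M, ∀ y, |f x y| ≤ M}

def U (f : X → Y → ℝ) (B : Set Y) : Set X := {x | x ∈ T f ∧ ∃ M, ∀ y ∉ B, |f x y| ≤ M}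

variable {bX : Set X → Prop} {bY : Set Y → Prop} {f : X → Y → ℝ}

theorem ev_of (iY : Idl bY) (hY : Lip bY fun y x => f x y)
    (h : ∀ A, bX A → ∃ x0 C B, bY B ∧ ∀ x ∈ A, ∀ y ∉ B, |f x0 y - f x y| ≤ C) : Ev bX bY f := by
  intro A hA
  obtain ⟨x0, C, B, hB, h1⟩ := h A hA
  obtain ⟨B', M, hB', h2⟩ := hY (f x0) fun y y' C _ h => h x0
  refine ⟨B ∪ B', M + C, iY.2 _ _ hB hB', fun x hx y hy => ?_⟩
  have h3 := abs_le.1 (h1 x hx y fun h => hy (Or.inl h))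
  have h4 := abs_le.1 (h2 y fun h => hy (Or.inr h))
  exact abs_le.2 ⟨by linarith, by linarith⟩

theorem U_bd (iX : Idl bX) (eY : Ev bY bX fun y x => f x y) {B : Set Y} (hB : bY B) : bX (U f B) := by
  obtain ⟨A, M, hA, h⟩ := eY B hB
  refine iX.1 _ _ hA fun x ⟨hx, M', h'⟩ => by_contra fun hA' => hx ⟨max M M', fun y => ?_⟩
  by_cases hy : y ∈ B
  · exact (h y hy x hA').trans (le_max_left _ _)
  · exact (h' y hy).trans (le_max_right _ _)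

theorem U_congr {B : Set Y} {x x' : X} {C : ℝ} (h : ∀ y, |f x y - f x' y| ≤ C) (hx : x ∈ U f B) : x' ∈ U f B := by
  obtain ⟨h1, M, h2⟩ := hx
  refine ⟨fun ⟨M', h3⟩ => h1 ⟨M' + C, fun y => ?_⟩, M + C, fun y hy => ?_⟩
  · have := abs_le.1 (h y)
    have := abs_le.1 (h3 y)
    exact abs_le.2 ⟨by linarith, by linarith⟩
  · have := abs_le.1 (h y)
    have := abs_le.1 (h2 y hy)
    exact abs_le.2 ⟨by linarith, by linarith⟩

theorem sigma (iX : Idl bX) (hX : Lip bX f) (eX : Ev bX bY f) (eY : Ev bY bX fun y x => f x y)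
    (A : ℕ → Set X) (hA : ∀ n, bX (A n)) (hT : ∀ n, A n ⊆ T f) : bX (⋃ n, A n) := by
  choose B M hB h using fun n => eX (A n) (hA n)
  obtain ⟨A', M', hA', h'⟩ := hX (fun x => ((sInf {n | x ∈ U f (B n)} : ℕ) : ℝ)) fun x x' C hC h => by
    have : {n | x ∈ U f (B n)} = {n | x' ∈ U f (B n)} :=
      Set.ext fun n => ⟨U_congr h, U_congr (C := C) fun y => by rw [abs_sub_comm]; exact h y⟩
    simpa [this] using hC
  obtain ⟨N, hN⟩ := exists_nat_ge M'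
  have h2 : ∀ N : ℕ, bX (A' ∪ ⋃ n < N, U f (B n)) := by
    intro N
    induction N with
    | zero => simpa using hA'
    | succ N ih =>
      refine iX.1 _ _ (iX.2 _ _ ih (U_bd iX eY (hB N))) ?_
      rintro x (hx | hx)
      · exact Or.inl (Or.inl hx)
      · obtain ⟨n, hn, hy⟩ := mem_iUnion₂.1 hx
        rcases Nat.lt_succ_iff_lt_or_eq.1 hn with hm | hm
        · exact Or.inl (Or.inr (mem_iUnion₂.2 ⟨n, hm, hy⟩))
        · exact Or.inr (hm ▸ hy)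
  refine iX.1 _ _ (h2 (N + 1)) fun x hx => ?_
  obtain ⟨n, hn⟩ := mem_iUnion.1 hx
  by_cases hx' : x ∈ A'
  · exact Or.inl hx'
  have h3 : {n | x ∈ U f (B n)}.Nonempty := ⟨n, hT n hn, M n, h n x hn⟩
  refine Or.inr (mem_iUnion₂.2 ⟨_, ?_, Nat.sInf_mem h3⟩)
  have h4 := (le_abs_self _).trans ((h' x hx').trans hN)
  exact Nat.lt_succ_of_le (by exact_mod_cast h4)

theorem unif (iX : Idl bX) (iY : Idl bY) (hX : Lip bX f) (eX : Ev bX bY f) (eY : Ev bY bX fun y x => f x y) :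
    ∃ M : ℝ, ∀ A, bX A → A ⊆ T f → bY {y | ∃ x ∈ A, M < |f x y|} := by
  by_contra h
  push Not at h
  choose A hA hT h using fun n : ℕ => h n
  obtain ⟨B, M, hB, h1⟩ := eX _ (sigma iX hX eX eY A hA hT)
  obtain ⟨N, hN⟩ := exists_nat_ge M
  refine h N (iY.1 _ _ hB fun y ⟨x, hx, h2⟩ => by_contra fun hy => ?_)
  have := h1 x (mem_iUnion.2 ⟨N, hx⟩) y hy
  linarith

theorem T_bd (iX : Idl bX) (iY : Idl bY) (hX : Lip bX f) (hY : Lip bY fun y x => f x y) (eX : Ev bX bY f)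
    (eY : Ev bY bX fun y x => f x y) : bX (T f) := by
  obtain ⟨M1, h1⟩ := unif iX iY hX eX eY
  obtain ⟨M2, h2⟩ := unif iY iX hY eY eX
  set M := max M1 M2
  let S : X → Y → Prop := fun x y => y ∈ T (fun y x => f x y) ∧ M < |f x y|
  obtain ⟨Z, hZ⟩ := zorn_subset {Z | Z ⊆ T f ∧ Z.Pairwise fun x x' => ¬ ∃ y, S x y ∧ S x' y} fun c hc hch =>
    ⟨⋃₀ c, ⟨sUnion_subset fun Z hZ => (hc hZ).1, fun x ⟨Z, hZ, hx⟩ x' ⟨Z', hZ', hx'⟩ hne => by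
      rcases hch.total hZ hZ' with h | h
      · exact (hc hZ').2 (h hx) hx' hne
      · exact (hc hZ).2 hx (h hx') hne⟩, fun Z hZ => subset_sUnion_of_mem hZ⟩
  obtain ⟨B, M', hB, h3⟩ := hY (fun y => ⨆ z : Z, |f z y|) fun y y' C hC h =>
    sup_close _ _ C hC fun z => (abs_abs_sub_abs_le _ _).trans (h z)
  have h4 : ∀ y, BddAbove (range fun z : Z => |f z y|) := by
    intro y
    by_cases hy : y ∈ T fun y x => f x y
    · by_cases h5 : ∃ z ∈ Z, S z y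
      · obtain ⟨z, hz, h5⟩ := h5
        refine ⟨max M |f z y|, ?_⟩
        rintro _ ⟨z', rfl⟩
        by_cases h6 : (z' : X) = z
        · simp [h6]
        · exact (not_lt.1 fun h7 => hZ.prop.2 z'.2 hz h6 ⟨y, ⟨hy, h7⟩, h5⟩).trans (le_max_left _ _)
      · refine ⟨M, ?_⟩
        rintro _ ⟨z', rfl⟩
        exact not_lt.1 fun h7 => h5 ⟨z', z'.2, hy, h7⟩
    · obtain ⟨M, hM⟩ := not_not.1 hy
      refine ⟨M, ?_⟩
      rintro _ ⟨z', rfl⟩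
      exact hM z'
  have hZb : bX Z := iX.1 _ _ (U_bd iX eY hB) fun z hz => ⟨hZ.prop.1 hz, M', fun y hy =>
    (le_ciSup (h4 y) ⟨z, hz⟩).trans ((le_abs_self _).trans (h3 y hy))⟩
  have h5 := h2 {y | ∃ z ∈ Z, S z y} (iY.1 _ _ (h1 Z hZb hZ.prop.1) fun y ⟨z, hz, h⟩ =>
    ⟨z, hz, (le_max_left _ _).trans_lt h.2⟩) fun y ⟨z, hz, h⟩ => h.1
  refine iX.1 _ _ (iX.2 _ _ hZb h5) fun t ht => by_contra fun h6 => ?_
  have h7 : ∀ z ∈ Z, ¬ ∃ y, S t y ∧ S z y := fun z hz ⟨y, h8, h9⟩ =>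
    h6 (Or.inr ⟨y, ⟨z, hz, h9⟩, (le_max_right _ _).trans_lt h8.2⟩)
  refine h6 (Or.inl (hZ.le_of_ge (y := insert t Z) ⟨insert_subset ht hZ.prop.1, ?_⟩ (subset_insert _ _)
    (mem_insert _ _)))
  exact hZ.prop.2.insert fun z hz _ => ⟨h7 z hz, fun ⟨y, h8, h9⟩ => h7 z hz ⟨y, h9, h8⟩⟩

theorem core (iX : Idl bX) (iY : Idl bY) (hX : Lip bX f) (hY : Lip bY fun y x => f x y)
    (cX : ∀ A, bX A → ∃ x0 C B, bY B ∧ ∀ x ∈ A, ∀ y ∉ B, |f x0 y - f x y| ≤ C)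
    (cY : ∀ B, bY B → ∃ y0 C A, bX A ∧ ∀ y ∈ B, ∀ x ∉ A, |f x y0 - f x y| ≤ C) :
    ∃ A B M, bX A ∧ bY B ∧ ∀ x y, ¬ (x ∈ A ∧ y ∈ B) → |f x y| ≤ M := by
  have eX := ev_of iY hY cX
  have eY : Ev bY bX fun y x => f x y := ev_of (f := fun y x => f x y) iX hX cY
  obtain ⟨A, M, hA, h1⟩ := hX (fun x => ⨆ y, |f x y|) fun x x' C hC h =>
    sup_close _ _ C hC fun y => (abs_abs_sub_abs_le _ _).trans (h y)
  have hA' := iX.2 _ _ hA (T_bd iX iY hX hY eX eY)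
  obtain ⟨B, M', hB, h2⟩ := eX _ hA'
  refine ⟨_, B, max M M', hA', hB, fun x y h => ?_⟩
  by_cases hx : x ∈ A ∪ T f
  · exact (h2 x hx y fun hy => h ⟨hx, hy⟩).trans (le_max_right _ _)
  · obtain ⟨M'', h3⟩ := not_not.1 fun h => hx (Or.inr h)
    have h4 : BddAbove (range fun y => |f x y|) := ⟨M'', by rintro _ ⟨y, rfl⟩; exact h3 y⟩
    exact ((le_ciSup h4 y).trans ((le_abs_self _).trans (h1 x fun h => hx (Or.inl h)))).trans (le_max_left _ _)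

theorem abs_le_of_ediam {Z : Type*} {g : Z → ℝ} {S : Set Z} {C : ℝ} (hC : 0 ≤ C)
    (h : Metric.ediam (g '' S) ≤ ENNReal.ofReal C) {p q : Z} (hp : p ∈ S) (hq : q ∈ S) : |g p - g q| ≤ C := by
  have := Metric.ediam_image_le_iff.1 h p hp q hq
  rwa [edist_dist, ENNReal.ofReal_le_ofReal_iff hC, Real.dist_eq] at this

theorem ediam_le_of_abs {Z : Type*} {g : Z → ℝ} {S : Set Z} {C : ℝ}
    (h : ∀ p ∈ S, ∀ q ∈ S, |g p - g q| ≤ C) : Metric.ediam (g '' S) ≤ ENNReal.ofReal C :=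
  Metric.ediam_image_le_iff.2 fun p hp q hq => by
    rw [edist_dist, Real.dist_eq]
    exact ENNReal.ofReal_le_ofReal (h p hp q hq)

/-- the product theorem for an arbitrary way `Q` of quantifying over the oscillation constant -/
theorem glue {EX : Set (Set (X × X))} {EY : Set (Set (Y × Y))} {E0 : Set (X × X)} {F0 : Set (Y × Y)}
    (hE0 : E0 ∈ EX) (rE0 : ∀ x, (x, x) ∈ E0) (hF0 : F0 ∈ EY) (rF0 : ∀ y, (y, y) ∈ F0)
    (iX : Idl bX) (iY : Idl bY) (dX : ∀ A, bX A → ∃ E ∈ EX, ∃ x, A ⊆ {x' | (x, x') ∈ E})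
    (dY : ∀ B, bY B → ∃ F ∈ EY, ∃ y, B ⊆ {y' | (y, y') ∈ F}) (φ : X × Y → ℝ) (P : Set (X × X) → Set (Y × Y) → ℝ → Prop)
    (hP : ∀ E ∈ EX, ∀ F ∈ EY, ∀ C, P E F C → 0 ≤ C ∧ ∃ A B, bX A ∧ bY B ∧ ∀ p ∉ A ×ˢ B,
      Metric.ediam (φ '' {q | (p.1, q.1) ∈ E ∧ (p.2, q.2) ∈ F}) ≤ ENNReal.ofReal C)
    (hex : ∀ E ∈ EX, ∀ F ∈ EY, ∃ C, P E F C)
    (hX : ∀ g : X → ℝ, (∀ E ∈ EX, ∀ C, P E F0 C → ∃ A, bX A ∧ ∀ x ∉ A,
      Metric.ediam (g '' {x' | (x, x') ∈ E}) ≤ ENNReal.ofReal C) → ∃ B M, bX B ∧ ∀ x ∉ B, |g x| ≤ M)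
    (hY : ∀ g : Y → ℝ, (∀ F ∈ EY, ∀ C, P E0 F C → ∃ A, bY A ∧ ∀ y ∉ A,
      Metric.ediam (g '' {y' | (y, y') ∈ F}) ≤ ENNReal.ofReal C) → ∃ B M, bY B ∧ ∀ y ∉ B, |g y| ≤ M) :
    ∃ A B M, bX A ∧ bY B ∧ ∀ p ∉ A ×ˢ B, |φ p| ≤ M := by
  obtain ⟨A, B, M, hA, hB, h⟩ := core (f := fun x y => φ (x, y)) iX iY
    (fun g hg => hX g fun E hE C hC => by
      obtain ⟨h0, A, B, hA, -, h⟩ := hP E hE F0 hF0 C hC
      exact ⟨A, hA, fun x hx => ediam_le_of_abs fun a ha b hb => hg a b C h0 fun y =>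
        abs_le_of_ediam h0 (h (x, y) fun h => hx h.1) (p := (a, y)) (q := (b, y)) ⟨ha, rF0 y⟩ ⟨hb, rF0 y⟩⟩)
    (fun g hg => hY g fun F hF C hC => by
      obtain ⟨h0, A, B, -, hB, h⟩ := hP E0 hE0 F hF C hC
      exact ⟨B, hB, fun y hy => ediam_le_of_abs fun a ha b hb => hg a b C h0 fun x =>
        abs_le_of_ediam h0 (h (x, y) fun h => hy h.2) (p := (x, a)) (q := (x, b)) ⟨rE0 x, ha⟩ ⟨rE0 x, hb⟩⟩)
    (fun A hA => by
      obtain ⟨E, hE, x, hx⟩ := dX A hA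
      obtain ⟨C, hC⟩ := hex E hE F0 hF0
      obtain ⟨h0, A', B, -, hB, h⟩ := hP E hE F0 hF0 C hC
      rcases A.eq_empty_or_nonempty with rfl | ⟨a, ha⟩
      · exact ⟨x, C, B, hB, fun _ h => h.elim⟩
      · exact ⟨a, C, B, hB, fun b hb y hy => abs_le_of_ediam h0 (h (x, y) fun h => hy h.2) (p := (a, y))
          (q := (b, y)) ⟨hx ha, rF0 y⟩ ⟨hx hb, rF0 y⟩⟩)
    (fun A hA => by
      obtain ⟨F, hF, y, hy⟩ := dY A hA
      obtain ⟨C, hC⟩ := hex E0 hE0 F hF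
      obtain ⟨h0, A', B, hA', -, h⟩ := hP E0 hE0 F hF C hC
      rcases A.eq_empty_or_nonempty with rfl | ⟨a, ha⟩
      · exact ⟨y, C, A', hA', fun _ h => h.elim⟩
      · exact ⟨a, C, A', hA', fun b hb x hx => abs_le_of_ediam h0 (h (x, y) fun h => hx h.1) (p := (x, a))
          (q := (x, b)) ⟨rE0 x, hy ha⟩ ⟨rE0 x, hy hb⟩⟩)
  exact ⟨A, B, M, hA, hB, fun p hp => h p.1 p.2 hp⟩

end Pool.Agent.Lib.helper32.ProdBd
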