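import Mathlib

set_option autoImplicit false

namespace Pool.Agent.Lib.helper32.SQL

open Filter Topology Set
open scoped Cardinal

/-- The selection property for closed sets, decompositions indexed by ι, subfamilies of size
at most κ. -/
def Sel (X : Type) [TopologicalSpace X] (ι : Type) (κ : Cardinal.{0}) : Prop :=
  ∀ F : Set X, IsClosed F → ∀ 𝓤 : ι → Set (Set X), (∀ i, ∀ U ∈ 𝓤 i, IsOpen U) →
    F ⊆ ⋃ i, ⋃₀ 𝓤 i → ∃ 𝓥 : ι → Set (Set X), (∀ i, 𝓥 i ⊆ 𝓤 i ∧ #(𝓥 i) ≤ κ) ∧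
      F ⊆ ⋃ i, closure (⋃₀ 𝓥 i)

def StrictQuasiLindelof (X : Type) [TopologicalSpace X] : Prop := Sel X ℕ ℵ₀

noncomputable def sqL (X : Type) [TopologicalSpace X] : Cardinal.{0} :=
  sInf {κ | ℵ₀ ≤ κ ∧ Sel X κ.out κ}

noncomputable def pwLc (X : Type) [TopologicalSpace X] : Cardinal.{0} :=
  sInf {κ | ∀ ι : Type, Sel X ι κ}

noncomputable def chi (X : Type) [TopologicalSpace X] : Cardinal.{0} :=
  ℵ₀ + ⨆ x : X, sInf {c | ∃ B : Set (Set X), (𝓝 x).HasBasis (· ∈ B) id ∧ #B = c}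

theorem exists_uf {ι β : Type} (Φ : ℕ → ι → β) (v : ι → Ultrafilter β)
    (hd : ∀ I : Set ι, I.Finite → ∀ x : ι → β, ∃ k, ∀ i ∈ I, Φ k i = x i) :
    ∃ U : Ultrafilter ℕ, ∀ i, U.map (fun k => Φ k i) = v i := by
  have : (comap Φ (Filter.pi fun i => (v i : Filter β))).NeBot := by
    refine comap_neBot fun t ht => ?_
    obtain ⟨I, hI, s, hs, hst⟩ := Filter.mem_pi.1 ht
    choose x hx using fun i => (v i).nonempty_of_mem (hs i)
    obtain ⟨k, hk⟩ := hd I hI x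
    exact ⟨k, hst fun i hi => by rw [hk i hi]; exact hx i⟩
  obtain ⟨U, hU⟩ := Ultrafilter.exists_le (comap Φ (Filter.pi fun i => (v i : Filter β)))
  exact ⟨U, fun i => Ultrafilter.eq_of_le
    ((tendsto_eval_pi _ i).comp (tendsto_comap.mono_left hU))⟩

abbrev J : Type := Ultrafilter ℕ

theorem rk_bound {b : Set J} (hb : b.Countable) : ∃ U : J, ∀ u ∈ b, ∃ h : ℕ → ℕ, u = U.map h := by
  obtain ⟨c, hc⟩ := (hb.insert (pure 0)).exists_eq_range (insert_nonempty _ _)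
  obtain ⟨e, he⟩ := exists_surjective_nat (List ℕ)
  obtain ⟨U, hU⟩ := exists_uf (fun k n => (e k).getD n 0) c (by
    intro I hI x
    obtain ⟨N, hN⟩ := hI.bddAbove
    obtain ⟨k, hk⟩ := he ((List.range (N + 1)).map x)
    exact ⟨k, fun i hi => by simp [hk, Nat.lt_succ_of_le (hN hi)]⟩)
  refine ⟨U, fun u hu => ?_⟩
  obtain ⟨n, rfl⟩ : u ∈ range c := hc ▸ mem_insert_of_mem _ hu
  exact ⟨_, (hU n).symm⟩

theorem no_top (U : J) : ∃ i : J, ∀ h : ℕ → ℕ, i ≠ U.map h := by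
  classical
  obtain ⟨e, he⟩ := exists_surjective_nat (ℕ × Finset (List ℕ))
  let Φ : ℕ → (ℕ → ℕ) → Prop := fun k h => (List.range (e k).1).map h ∈ (e k).2
  obtain ⟨i, hi⟩ := exists_uf Φ (fun h => pure ({k | Φ k h} ∉ U.map h)) (by
    intro I hI x
    have : ∀ᶠ n in atTop, ∀ h ∈ I, ∀ h' ∈ I,
        (List.range n).map h = (List.range n).map h' → h = h' := by
      refine (eventually_all_finite hI).2 fun h _ => (eventually_all_finite hI).2 fun h' _ => ?_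
      by_cases hh : h = h'
      · exact Eventually.of_forall fun _ _ => hh
      · obtain ⟨m, hm⟩ := Function.ne_iff.1 hh
        filter_upwards [eventually_gt_atTop m] with n hn h1
        exact absurd (List.map_inj_left.1 h1 m (List.mem_range.2 hn)) hm
    obtain ⟨n, hn⟩ := this.exists
    obtain ⟨k, hk⟩ := he (n, (hI.toFinset.filter x).image fun h => (List.range n).map h)
    refine ⟨k, fun h hh => propext ?_⟩
    simp only [Φ, hk, Finset.mem_image, Finset.mem_filter, Finite.mem_toFinset]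
    exact ⟨fun ⟨h', ⟨h1, h2⟩, h3⟩ => hn h' h1 h hh h3 ▸ h2, fun h1 => ⟨h, ⟨hh, h1⟩, rfl⟩⟩)
  refine ⟨i, fun h e => ?_⟩
  have h1 : {k | Φ k h} ∈ i ↔ {k | Φ k h} ∉ U.map h := by
    change {p | p} ∈ i.map (fun k => Φ k h) ↔ _
    rw [hi h]; rfl
  rw [← e] at h1
  exact iff_not_self h1

theorem disc {D : Type} {T : Set (Ultrafilter D)} (hT : T.Infinite) :
    ∃ x : ℕ → Ultrafilter D, (∀ n, x n ∈ T) ∧ ∃ f : D → ℕ, ∀ n, f ⁻¹' {n} ∈ x n := by
  classical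
  haveI := hT.to_subtype
  obtain ⟨U, hU1, hU2, hU3⟩ := exists_seq_infinite_isOpen_pairwise_disjoint T
  choose x hx using fun n => (hU1 n).nonempty
  have : ∀ n, ∃ A : Set D, A ∈ (x n).1 ∧ ∀ y : T, A ∈ y.1 → y ∈ U n := by
    intro n
    obtain ⟨O, hO, hO2⟩ := isOpen_induced_iff.1 (hU2 n)
    obtain ⟨_, ⟨A, rfl⟩, h1, h2⟩ := ultrafilterBasis_is_basis.exists_subset_of_mem_open
      (show (x n).1 ∈ O from show x n ∈ Subtype.val ⁻¹' O from hO2 ▸ hx n) hO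
    exact ⟨A, h1, fun y hy => hO2 ▸ h2 hy⟩
  choose A hA hA2 using this
  refine ⟨fun n => x n, fun n => (x n).2, fun d => if h : ∃ n, d ∈ A n then Nat.find h else 0,
    fun n => ?_⟩
  have h1 : ∀ᶠ d in ((x n).1 : Filter D), ∀ m ∈ Iio n, d ∉ A m :=
    (eventually_all_finite (finite_Iio n)).2 fun m hm => Ultrafilter.compl_mem_iff_notMem.2
      fun h => disjoint_left.1 (hU3 (ne_of_lt hm)) (hA2 m _ h) (hx n)
  filter_upwards [h1, hA n] with d h2 h3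
  have h4 : ∃ n, d ∈ A n := ⟨n, h3⟩
  simp only [mem_preimage, h4, dif_pos, mem_singleton_iff, Nat.find_eq_iff]
  exact ⟨h3, h2⟩

abbrev K : Type := Finset J × Set ℕ
abbrev D : Type := Set (Set K)

theorem JK : #J ≤ #K :=
  Cardinal.mk_le_of_injective (f := fun i => ({i}, ∅)) fun a b h => by simpa using h

theorem KD : 2 ^ #K < #D := by
  rw [Cardinal.mk_set, Cardinal.mk_set]; exact Cardinal.cantor _

theorem KD' : #K < #D := (Cardinal.cantor _).trans KD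

theorem exq : Nonempty (D ≃ Finset (J × D)) := by
  rw [← Cardinal.eq, Cardinal.mk_finset_of_infinite, Cardinal.mk_prod, Cardinal.lift_id,
    Cardinal.lift_id, Cardinal.mul_eq_right (Cardinal.aleph0_le_mk D) (JK.trans KD'.le)
    (Cardinal.mk_ne_zero J)]

noncomputable def q : D ≃ Finset (J × D) := exq.some

open scoped Classical in
noncomputable def ph (i : J) (d : D) : D := if h : ∃ e, (i, e) ∈ q d then h.choose else d

theorem ph_of {i : J} {d : D} (h : ∀ e, (i, e) ∉ q d) : ph i d = d := by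
  rw [ph, dif_neg (not_exists.2 h)]

theorem ph_mem {i : J} {d : D} (h : ∃ e, (i, e) ∈ q d) : (i, ph i d) ∈ q d := by
  rw [ph, dif_pos h]; exact h.choose_spec

theorem ph_ex {s : Set J} (hs : s.Finite) (e : J → D) : ∃ d, ∀ i ∈ s, ph i d = e i := by
  classical
  refine ⟨q.symm (hs.toFinset.image fun i => (i, e i)), fun i hi => ?_⟩
  have h : ∃ e', (i, e') ∈ q (q.symm (hs.toFinset.image fun i => (i, e i))) :=
    ⟨e i, by simpa using hi⟩
  have := ph_mem h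
  generalize ph i _ = c at this ⊢
  simp only [Equiv.apply_symm_apply, Finset.mem_image, Prod.mk.injEq] at this
  obtain ⟨j, -, rfl, h2⟩ := this
  exact h2.symm

def X : Type := {z : Ultrafilter D // ∃ E : Set D, E.Countable ∧ E ∈ z}

def lev (z : X) : Set J := {u | ∃ f : D → ℕ, u = z.1.map f}

def pt (d : D) : X := ⟨pure d, {d}, countable_singleton d, rfl⟩

theorem lev_pt (d : D) (z : X) : lev (pt d) ⊆ lev z := by
  rintro _ ⟨f, rfl⟩
  refine ⟨fun _ => f d, Ultrafilter.coe_injective ?_⟩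
  simp only [pt, Ultrafilter.map_pure, Ultrafilter.coe_pure, Ultrafilter.coe_map]
  exact (Filter.map_const (f := (z.1 : Filter D))).symm

theorem rep (z : X) : ∃ (g : ℕ → D) (v : J), z.1 = v.map g := by
  obtain ⟨E, hE, hz⟩ := z.2
  obtain ⟨g, rfl⟩ := hE.exists_eq_range (z.1.nonempty_of_mem hz)
  rw [← image_univ] at hz
  exact ⟨g, _, (Ultrafilter.ofComapInfPrincipal_eq_of_map hz).symm⟩

def Good (z : X) (t : Set (J × Set D)) : Prop :=
  t.Finite ∧ ∀ p ∈ t, p.1 ∉ lev z ∧ ph p.1 ⁻¹' p.2 ∈ z.1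

def Bs (z : X) (t : Set (J × Set D)) : Set X :=
  {w | lev w ⊆ lev z ∧ ∀ p ∈ t, ph p.1 ⁻¹' p.2 ∈ w.1}

instance : TopologicalSpace X where
  IsOpen W := ∀ z ∈ W, ∃ t, Good z t ∧ Bs z t ⊆ W
  isOpen_univ z _ := ⟨∅, ⟨finite_empty, by simp⟩, subset_univ _⟩
  isOpen_inter W W' h h' z hz := by
    obtain ⟨t, h1, h2⟩ := h z hz.1
    obtain ⟨t', h3, h4⟩ := h' z hz.2
    exact ⟨t ∪ t', ⟨h1.1.union h3.1, fun p hp => hp.elim (h1.2 p) (h3.2 p)⟩, fun w hw =>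
      ⟨h2 ⟨hw.1, fun p hp => hw.2 p (Or.inl hp)⟩, h4 ⟨hw.1, fun p hp => hw.2 p (Or.inr hp)⟩⟩⟩
  isOpen_sUnion S h z := fun ⟨W, hW, hz⟩ =>
    (h W hW z hz).imp fun t ht => ⟨ht.1, ht.2.trans (subset_sUnion_of_mem hW)⟩

theorem open_iff {W : Set X} : IsOpen W ↔ ∀ z ∈ W, ∃ t, Good z t ∧ Bs z t ⊆ W := Iff.rfl

theorem Bs_open {z : X} {t : Set (J × Set D)} (h : Good z t) : IsOpen (Bs z t) :=
  fun _ hw => ⟨t, ⟨h.1, fun p hp => ⟨fun h1 => (h.2 p hp).1 (hw.1 h1), hw.2 p hp⟩⟩,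
    fun _ hy => ⟨hy.1.trans hw.1, hy.2⟩⟩

theorem Bs_mem {z : X} {t : Set (J × Set D)} (h : Good z t) : z ∈ Bs z t :=
  ⟨subset_rfl, fun p hp => (h.2 p hp).2⟩

theorem fresh (z w : X) {b : Set J} (hb : b.Countable) : ∃ i, i ∉ lev z ∧ i ∉ lev w ∧ i ∉ b := by
  obtain ⟨g, v, hz⟩ := rep z
  obtain ⟨g', v', hw⟩ := rep w
  obtain ⟨U, hU⟩ := rk_bound ((hb.insert v').insert v)
  obtain ⟨i, hi⟩ := no_top U
  obtain ⟨h, hh⟩ := hU v (by simp)
  obtain ⟨h', hh'⟩ := hU v' (by simp)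
  refine ⟨i, ?_, ?_, fun hi' => (hU i (by simp [hi'])).elim hi⟩
  · rintro ⟨f, hf⟩
    exact hi (f ∘ g ∘ h) (by rw [hf, hz, hh]; rfl)
  · rintro ⟨f, hf⟩
    exact hi (f ∘ g' ∘ h') (by rw [hf, hw, hh']; rfl)

instance : T2Space X := by
  refine ⟨fun z w hzw => ?_⟩
  obtain ⟨A, hA, hA'⟩ : ∃ A, A ∈ z.1 ∧ A ∉ w.1 := by
    by_contra hc
    push Not at hc
    exact hzw (Subtype.ext (Ultrafilter.eq_of_le (f := w.1) (g := z.1) hc).symm)
  obtain ⟨E, hE, hz⟩ := z.2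
  obtain ⟨E', hE', hw⟩ := w.2
  obtain ⟨i, h1, h2, h3⟩ := fresh z w (b := ⋃ d ∈ E ∪ E', Prod.fst '' (q d : Set (J × D)))
    ((hE.union hE').biUnion fun d _ => ((q d).finite_toSet.image _).countable)
  have h4 : ∀ d ∈ E ∪ E', ph i d = d := fun d hd =>
    ph_of fun e he => h3 (mem_biUnion hd ⟨(i, e), he, rfl⟩)
  have g1 : Good z {(i, A)} := ⟨finite_singleton _, by
    rintro _ rfl
    refine ⟨h1, ?_⟩
    filter_upwards [hA, hz] with d a1 a2
    exact show ph i d ∈ A by rwa [h4 d (Or.inl a2)]⟩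
  have g2 : Good w {(i, Aᶜ)} := ⟨finite_singleton _, by
    rintro _ rfl
    refine ⟨h2, ?_⟩
    filter_upwards [Ultrafilter.compl_mem_iff_notMem.2 hA', hw] with d a1 a2
    exact show ph i d ∈ Aᶜ by rwa [h4 d (Or.inr a2)]⟩
  exact ⟨_, _, Bs_open g1, Bs_open g2, Bs_mem g1, Bs_mem g2, disjoint_left.2 fun y a1 a2 =>
    Ultrafilter.compl_mem_iff_notMem.1 (a2.2 _ rfl) (a1.2 _ rfl)⟩

theorem high {F : Set X} (hF : IsClosed F) (hi : F.Infinite) {b : Set J} (hb : b.Countable) :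
    ∃ y ∈ F, b ⊆ lev y := by
  obtain ⟨x', hx', f, hf⟩ := disc (hi.image Subtype.val_injective.injOn)
  choose x hx hxx using hx'
  choose g v hv using fun n => rep (x n)
  obtain ⟨U, hU⟩ := rk_bound (hb.union (countable_range v))
  have hm : ∀ S, S ∈ U.bind (fun n => (x n).1) ↔ {n | S ∈ (x n).1} ∈ U := fun S => mem_bind'
  let y : X := ⟨U.bind fun n => (x n).1, ⋃ n, range (g n),
    countable_iUnion fun n => countable_range _, (hm _).2 (univ_mem' fun n => by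
      change _ ∈ (x n).1
      rw [hv n]
      exact Ultrafilter.mem_map.2 (univ_mem' fun k => mem_iUnion.2 ⟨n, k, rfl⟩))⟩
  have hy : y.1.map f = U := by
    refine Ultrafilter.eq_of_le fun S hS => (hm _).2 (mem_of_superset hS fun n hn => ?_)
    have := hf n
    rw [← hxx n] at this
    exact mem_of_superset this fun d hd => show f d ∈ S from hd ▸ hn
  have hl : ∀ h : ℕ → ℕ, U.map h ∈ lev y := fun h => ⟨h ∘ f, by rw [← hy]; rfl⟩
  refine ⟨y, ?_, fun u hu => (hU u (Or.inl hu)).elim fun h hh => hh ▸ hl h⟩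
  by_contra hc
  obtain ⟨t, ht, ht2⟩ := open_iff.1 hF.isOpen_compl y hc
  have h1 : ∀ᶠ n in (U : Filter ℕ), ∀ p ∈ t, ph p.1 ⁻¹' p.2 ∈ (x n).1 :=
    (eventually_all_finite ht.1).2 fun p hp => (hm _).1 (ht.2 p hp).2
  obtain ⟨n, hn⟩ := h1.exists
  refine ht2 ⟨?_, hn⟩ (hx n)
  rintro _ ⟨f', rfl⟩
  obtain ⟨h, hh⟩ := hU (v n) (Or.inr ⟨n, rfl⟩)
  have : (x n).1.map f' = U.map (f' ∘ g n ∘ h) := by rw [hv n, hh]; rfl
  exact this ▸ hl _

theorem meet {z w : X} {t t' : Set (J × Set D)} (h : Good z t) (h' : Good w t')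
    (hd : ∀ p ∈ t, ∀ p' ∈ t', p.1 ≠ p'.1) : (Bs z t ∩ Bs w t').Nonempty := by
  classical
  obtain ⟨d0, h0⟩ := ((eventually_all_finite h.1).2 fun p hp => (h.2 p hp).2 :
    ∀ᶠ d in (z.1 : Filter D), ∀ p ∈ t, ph p.1 d ∈ p.2).exists
  obtain ⟨d1, h1⟩ := ((eventually_all_finite h'.1).2 fun p hp => (h'.2 p hp).2 :
    ∀ᶠ d in (w.1 : Filter D), ∀ p ∈ t', ph p.1 d ∈ p.2).exists
  obtain ⟨d, hd2⟩ := ph_ex ((h.1.union h'.1).image Prod.fst)
    fun i => if i ∈ Prod.fst '' t then ph i d0 else ph i d1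
  refine ⟨pt d, ⟨lev_pt _ _, fun p hp => ?_⟩, lev_pt _ _, fun p hp => ?_⟩
  · change ph p.1 d ∈ p.2
    rw [hd2 _ ⟨p, Or.inl hp, rfl⟩, if_pos ⟨p, hp, rfl⟩]
    exact h0 p hp
  · change ph p.1 d ∈ p.2
    rw [hd2 _ ⟨p, Or.inr hp, rfl⟩, if_neg fun ⟨p', h2, h3⟩ => hd p' h2 p hp h3]
    exact h1 p hp

theorem sel (ι : Type) [Countable ι] : Sel X ι ℵ₀ := by
  classical
  intro F hF 𝓤 hU hc
  have hc' : ∀ y ∈ F, ∃ i, ∃ U ∈ 𝓤 i, y ∈ U := fun y hy => by simpa using hc hy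
  rcases F.finite_or_infinite with hfin | hinf
  · choose! c W hW using fun y : F => hc' y y.2
    haveI := hfin.to_subtype
    refine ⟨fun i => range W ∩ 𝓤 i, fun i => ⟨inter_subset_right, ?_⟩, fun y hy => ?_⟩
    · exact Cardinal.le_aleph0_iff_set_countable.2 ((countable_range W).mono inter_subset_left)
    · exact mem_iUnion.2 ⟨c ⟨y, hy⟩, subset_closure
        ⟨W ⟨y, hy⟩, ⟨⟨_, rfl⟩, (hW ⟨y, hy⟩).1⟩, (hW ⟨y, hy⟩).2⟩⟩
  have key : ∃ n, ∀ b : Set J, b.Countable → ∃ y ∈ F, b ⊆ lev y ∧ ∃ U ∈ 𝓤 n, y ∈ U := by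
    by_contra hcon
    push Not at hcon
    choose b hb hb2 using hcon
    obtain ⟨y, hy, hy2⟩ := high hF hinf (countable_iUnion hb)
    obtain ⟨i, U, h1, h2⟩ := hc' y hy
    exact hb2 i y hy ((subset_iUnion b i).trans hy2) U h1 h2
  obtain ⟨n, hn⟩ := key
  have step : ∀ b : {b : Set J // b.Countable}, ∃ (y : X) (t : Set (J × Set D)) (U : Set X),
      Good y t ∧ b.1 ⊆ lev y ∧ U ∈ 𝓤 n ∧ Bs y t ⊆ U := by
    intro b
    obtain ⟨y, -, h1, U, h2, h3⟩ := hn b.1 b.2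
    obtain ⟨t, h4, h5⟩ := open_iff.1 (hU n U h2) y h3
    exact ⟨y, t, U, h4, h1, h2, h5⟩
  choose y t U hG hb hUU hB using step
  let b : ℕ → {b : Set J // b.Countable} := fun k => Nat.rec ⟨∅, countable_empty⟩
    (fun _ a => ⟨a.1 ∪ Prod.fst '' t a, a.2.union ((hG a).1.image _).countable⟩) k
  have hmono : Monotone fun k => (b k).1 := monotone_nat_of_le_succ fun k => subset_union_left
  have hdis : ∀ j k, j < k → ∀ p ∈ t (b j), ∀ p' ∈ t (b k), p.1 ≠ p'.1 := by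
    intro j k hjk p hp p' hp' e
    refine ((hG (b k)).2 p' hp').1 (hb (b k) (hmono (show j + 1 ≤ k from hjk) ?_))
    exact Or.inr ⟨p, hp, e⟩
  refine ⟨fun i => range (fun k => U (b k)) ∩ 𝓤 i, fun i => ⟨inter_subset_right, ?_⟩,
    fun z _ => mem_iUnion.2 ⟨n, mem_closure_iff.2 fun W hW hz => ?_⟩⟩
  · exact Cardinal.le_aleph0_iff_set_countable.2 ((countable_range _).mono inter_subset_left)
  obtain ⟨s, hs, hs2⟩ := open_iff.1 hW z hz
  obtain ⟨k, hk⟩ : ∃ k, ∀ p ∈ s, ∀ p' ∈ t (b k), p.1 ≠ p'.1 := by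
    by_contra hcon
    push Not at hcon
    choose p hp p' hp' e using hcon
    haveI := hs.1.to_subtype
    obtain ⟨j, k, hjk, h⟩ := Finite.exists_ne_map_eq_of_infinite fun k => (⟨p k, hp k⟩ : s)
    have h1 : (p' j).1 = (p' k).1 := by rw [← e j, ← e k, show p j = p k from congrArg Subtype.val h]
    rcases lt_or_gt_of_ne hjk with h2 | h2
    · exact hdis j k h2 _ (hp' j) _ (hp' k) h1
    · exact hdis k j h2 _ (hp' k) _ (hp' j) h1.symm
  obtain ⟨w, h1, h2⟩ := meet hs (hG (b k)) hk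
  exact ⟨w, hs2 h1, U (b k), ⟨⟨k, rfl⟩, hUU _⟩, hB _ h2⟩

theorem chi_le : chi X ≤ #K := by
  have h0 : ℵ₀ ≤ #K := Cardinal.aleph0_le_mk K
  refine Cardinal.add_le_of_le h0 h0 (ciSup_le' fun z => ?_)
  obtain ⟨g, v, hz⟩ := rep z
  let tt : K → Set (J × Set D) := fun k => (fun i => (i, ph i '' (g '' k.2))) '' (k.1 : Set J)
  refine le_trans (csInf_le' ⟨(fun k => Bs z (tt k)) '' {k | Good z (tt k)},
    ⟨fun W => ⟨fun hW => ?_, ?_⟩⟩, rfl⟩) (Cardinal.mk_image_le.trans (Cardinal.mk_set_le _))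
  · obtain ⟨W', h1, h2, h3⟩ := mem_nhds_iff.1 hW
    obtain ⟨t, h4, h5⟩ := open_iff.1 h2 z h3
    have h6 : {n | ∀ p ∈ t, ph p.1 (g n) ∈ p.2} ∈ v :=
      (eventually_all_finite h4.1).2 fun p hp => by
        have := (h4.2 p hp).2
        rwa [hz] at this
    refine ⟨_, ⟨((h4.1.image Prod.fst).toFinset, {n | ∀ p ∈ t, ph p.1 (g n) ∈ p.2}),
      ⟨(Finset.finite_toSet _).image _, ?_⟩, rfl⟩, fun w hw => h1 (h5 ⟨hw.1, fun p hp => ?_⟩)⟩
    · rintro _ ⟨i, hi, rfl⟩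
      obtain ⟨p, hp, rfl⟩ := (Finite.mem_toFinset _).1 hi
      refine ⟨(h4.2 p hp).1, ?_⟩
      have h7 : ∀ S : Set D, g ⁻¹' S ∈ v → S ∈ z.1 := fun S hS => by rw [hz]; exact hS
      exact h7 _ (mem_of_superset h6 fun n hn => ⟨g n, ⟨n, hn, rfl⟩, rfl⟩)
    · refine mem_of_superset (hw.2 _ ⟨p.1, (Finite.mem_toFinset _).2 ⟨p, hp, rfl⟩, rfl⟩) ?_
      rintro d ⟨_, ⟨n, hn, rfl⟩, e⟩
      exact show ph p.1 d ∈ p.2 from e ▸ hn p hp
  · rintro ⟨_, ⟨k, hk, rfl⟩, h⟩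
    exact mem_of_superset ((Bs_open hk).mem_nhds (Bs_mem hk)) h

theorem big : 2 ^ chi X < #X :=
  ((Cardinal.power_le_power_left two_ne_zero chi_le).trans_lt KD).trans_le
    (Cardinal.mk_le_of_injective (f := pt) fun _ _ h =>
      Ultrafilter.pure_injective (congrArg Subtype.val h))

theorem not_sel : ¬ Sel X J ℵ₀ := by
  classical
  intro h
  let Uo : J → Set D → Set X := fun i E => {z | i ∉ lev z ∧ ph i ⁻¹' E ∈ z.1}
  have hUo : ∀ i E, IsOpen (Uo i E) := fun i E z hz =>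
    ⟨{(i, E)}, ⟨finite_singleton _, by rintro _ rfl; exact hz⟩, fun w hw =>
      ⟨fun h1 => hz.1 (hw.1 h1), hw.2 _ rfl⟩⟩
  obtain ⟨V, hV, hV2⟩ := h univ isClosed_univ (fun i => Uo i '' {E | E.Countable})
    (by rintro i _ ⟨E, -, rfl⟩; exact hUo i E) (by
      intro z _
      obtain ⟨i, hi, -⟩ := fresh z z countable_empty
      obtain ⟨E, hE, hz⟩ := z.2
      exact mem_iUnion.2 ⟨i, _, ⟨ph i '' E, hE.image _, rfl⟩, hi,
        mem_of_superset hz (subset_preimage_image _ _)⟩)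
  have : ∀ i, ∃ C : Set D, C.Countable ∧ ∀ W ∈ V i, ∀ z ∈ W, ph i ⁻¹' C ∈ z.1 := by
    intro i
    have h9 : ∀ W ∈ V i, ∃ E : Set D, E.Countable ∧ Uo i E = W := fun W hW => (hV i).1 hW
    choose! E hE hE2 using h9
    refine ⟨⋃ W ∈ V i, E W, (Cardinal.le_aleph0_iff_set_countable.1 (hV i).2).biUnion
      fun W hW => hE W hW, fun W hW z hz => ?_⟩
    rw [← hE2 W hW] at hz
    exact mem_of_superset hz.2 fun d hd => mem_biUnion hW hd
  choose C hC hC2 using this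
  have h0 : ℵ₀ ≤ #K := Cardinal.aleph0_le_mk K
  have h1 : #(⋃ i, C i) ≤ #K := by
    refine Cardinal.mk_iUnion_le_sum_mk.trans ((Cardinal.sum_le_sum _ (fun _ => #K) fun i =>
      (Cardinal.le_aleph0_iff_set_countable.2 (hC i)).trans h0).trans ?_)
    rw [Cardinal.sum_const']
    exact (mul_le_mul_left JK _).trans (Cardinal.mul_eq_self h0).le
  let r : D → D := fun e => q.symm {(pure 0, e)}
  have hr : Function.Injective r := fun a b hab => by simpa [r] using hab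
  obtain ⟨e, he⟩ : ∃ e, e ∉ (⋃ i, C i) ∪ r ⁻¹' ⋃ i, C i := by
    by_contra hcon
    push Not at hcon
    have := (Cardinal.mk_union_le _ _).trans (Cardinal.add_le_of_le h0 h1
      ((Cardinal.mk_preimage_of_injective r _ hr).trans h1))
    rw [eq_univ_of_forall hcon, Cardinal.mk_univ] at this
    exact not_le.2 KD' this
  obtain ⟨i, hi⟩ := mem_iUnion.1 (hV2 (mem_univ (pt (r e))))
  have hph : ph i (r e) ∉ C i := by
    by_cases h2 : ∃ e', (i, e') ∈ q (r e)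
    · have := ph_mem h2
      generalize ph i _ = c at this ⊢
      simp only [r, Equiv.apply_symm_apply, Finset.mem_singleton, Prod.mk.injEq] at this
      rw [this.2]
      exact fun h3 => he (Or.inl (mem_iUnion.2 ⟨i, h3⟩))
    · rw [ph_of (not_exists.1 h2)]
      exact fun h3 => he (Or.inr (mem_iUnion.2 ⟨i, h3⟩))
  obtain ⟨w, -, W, hW, hw⟩ := mem_closure_iff.1 hi univ isOpen_univ trivial
  obtain ⟨E, -, rfl⟩ := (hV i).1 hW
  obtain ⟨z, h3, W', h4, h5⟩ := mem_closure_iff.1 hi _ (hUo i (C i)ᶜ)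
    ⟨fun h3 => hw.1 (lev_pt _ _ h3), hph⟩
  exact Ultrafilter.compl_mem_iff_notMem.1 h3.2 (hC2 i W' h4 z h5)

end Pool.Agent.Lib.helper32.SQL
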