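import Pool.Agent.Lib.helper32.Luz

set_option autoImplicit false

namespace Pool.Agent.Lib.helper32.Tau

open Filter Topology Set MeasureTheory

variable {G : Type} [TopologicalSpace G] [MeasurableSpace G] [OpensMeasurableSpace G]
  {ν : Measure G} [IsFiniteMeasure ν] {S : Set G}

theorem meas_ev {α : Type} [MeasurableSpace α] {p : ℕ → α → Prop}
    (h : ∀ k, MeasurableSet {x | p k x}) : MeasurableSet {x | ∀ᶠ k in atTop, p k x} := by
  simp only [eventually_atTop, setOf_exists, setOf_forall]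
  exact .iUnion fun _ => .iInter fun k => .iInter fun _ => h k

theorem sg_sier (h1 : ∀ B, ν B = 0 → (B ∩ S).Countable)
    (h2 : ∀ B, MeasurableSet B → Disjoint B S → ν B = 0) : SG S := by
  intro O o1 o2
  let E : ℕ → ℕ → Set G := fun n j => ⋃ k ∈ Ici j, (O n k)ᶜ
  have e1 : ∀ n j, MeasurableSet (E n j) := fun n j =>
    .biUnion (to_countable _) fun k _ => (o1 n k).measurableSet.compl
  have e2 : ∀ n, ∃ j, ν (E n j) < 2⁻¹ ^ n := fun n => by
    have c1 := tendsto_measure_iInter_atTop (μ := ν) (s := E n) (fun j => (e1 n j).nullMeasurableSet)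
      (fun i j h => biUnion_subset_biUnion_left (Ici_subset_Ici.2 h)) ⟨0, measure_ne_top _ _⟩
    rw [h2 _ (.iInter (e1 n)) (disjoint_left.2 fun x c2 hx => by
      obtain ⟨j, hj⟩ := eventually_atTop.1 (o2 n x hx)
      obtain ⟨k, c3, c4⟩ := mem_iUnion₂.1 (mem_iInter.1 c2 j)
      exact c4 (hj k c3))] at c1
    exact (c1.eventually (gt_mem_nhds (ENNReal.pow_pos (by simp) n))).exists
  choose j hj using e2
  have e3 := h1 _ (ae_iff.1 (ae_eventually_notMem (μ := ν) (s := fun n => E n (j n))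
    (ne_top_of_le_ne_top (by simp) (ENNReal.tsum_le_tsum fun n => (hj n).le))))
  obtain ⟨c, hc⟩ := countable_iff_exists_injOn.1 e3
  have e4 : ∀ n, {x ∈ {a | ¬∀ᶠ n in atTop, a ∉ E n (j n)} ∩ S | c x < n}.Finite := fun n =>
    Finite.of_injOn (f := c) (fun _ h => h.2) (hc.mono fun _ h => h.1) (finite_lt_nat n)
  choose k k1 k2 using fun n => (((eventually_all_finite (e4 n)).2 fun x hx =>
    o2 n x hx.1.2).and (eventually_ge_atTop (j n))).exists
  refine ⟨k, fun x hx => ?_⟩
  by_cases c1 : ∀ᶠ n in atTop, x ∉ E n (j n)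
  · exact c1.mono fun n c2 => not_not.1 fun c3 => c2 (mem_biUnion (k2 n) c3)
  · exact (eventually_gt_atTop (c x)).mono fun n c2 => k1 n x ⟨⟨c1, hx⟩, c2⟩

theorem tg_sier (h1 : ∀ B, ν B = 0 → (B ∩ S).Countable)
    (h2 : ∀ B, MeasurableSet B → Disjoint B S → ν B = 0) : TG S := by
  intro V v1 v2
  let le : G → G → Prop := fun x y => ∀ᶠ k in atTop, x ∈ V k → y ∈ V k
  have l1 : ∀ x y z, le x y → le y z → le x z := fun x y z a b =>
    (a.and b).mono fun k h c => h.2 (h.1 c)
  have l2 : MeasurableSet {p : G × G | le p.2 p.1} := meas_ev fun k =>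
    ((v1 k).measurableSet.preimage measurable_snd).imp ((v1 k).measurableSet.preimage measurable_fst)
  have l3 : ∀ x, MeasurableSet {y | le y x} := fun x => l2.preimage (measurable_prodMk_left (x := x))
  refine by_contra fun h => ?_
  have h3 : ∀ Q : Set G, Q.Countable → Q ⊆ S → ∃ x ∈ S, ∀ q ∈ Q, ¬ le q x := fun Q a b =>
    by_contra fun c => h (tg_coi v2 a b fun z hz => by_contra fun d =>
      c ⟨z, hz, fun q hq e => d ⟨q, hq, e⟩⟩)
  obtain ⟨a, a1, a2⟩ : ∃ a ∈ S, ∀ x ∈ S, ν {y | le y a} ≤ ν {y | le y x} := by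
    have c1 : ∀ r : {r : ℚ | ∃ x ∈ S, ν {y | le y x} < Real.toNNReal r},
        ∃ x ∈ S, ν {y | le y x} < Real.toNNReal r.1 := fun r => r.2
    choose x c1 c2 using c1
    obtain ⟨a, a1, a2⟩ := h3 _ (countable_range x) (range_subset_iff.2 c1)
    refine ⟨a, a1, fun z hz => not_lt.1 fun c3 => ?_⟩
    obtain ⟨r, -, c4, c5⟩ := ENNReal.lt_iff_exists_rat_btwn.1 c3
    exact c5.not_gt ((measure_mono fun y hy => l1 _ _ _ hy ((v2.2 a a1 _ (c1 _)).resolve_right
      (a2 _ ⟨⟨r, z, hz, c4⟩, rfl⟩))).trans_lt (c2 ⟨r, z, hz, c4⟩))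
  have l4 : MeasurableSet {p : G × G | le p.1 a → le p.2 a → le p.2 p.1} :=
    ((l3 a).preimage measurable_fst).imp (((l3 a).preimage measurable_snd).imp l2)
  have h4 : ∀ᵐ x ∂ν, ∀ᵐ y ∂ν, le x a → le y a → le y x := by
    refine ae_iff.2 (h2 _ ?_ (disjoint_left.2 fun x c1 hx => c1 ?_))
    · simp only [ae_iff]
      exact ((measurable_measure_prodMk_left (ν := ν) l4.compl) (measurableSet_singleton 0)).compl
    · by_cases c2 : le x a
      · have c3 : ν ({y | le y a} \ {y | le y x}) = 0 := by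
          rw [measure_diff (s₁ := {y | le y a}) (s₂ := {y | le y x}) (fun y hy => l1 _ _ _ hy c2)
            (l3 x).nullMeasurableSet (measure_ne_top _ _)]
          exact tsub_eq_zero_of_le (a2 x hx)
        exact ae_iff.2 (measure_mono_null (fun y hy => Classical.not_imp.1 fun c => hy fun _ => c) c3)
      · exact .of_forall fun _ c => absurd c c2
  have h5 := h1 _ (ae_iff.1 ((Measure.ae_ae_comm (p := fun x y => le x a → le y a → le y x)
    l4).1 h4))
  obtain ⟨y, y1, y2⟩ := h3 _ (h5.insert a) (insert_subset a1 inter_subset_right)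
  have y3 : le y a := (v2.2 y y1 a a1).resolve_right (y2 a (mem_insert _ _))
  have y4 : ∀ᵐ x ∂ν, le x a → le y a → le y x := by_contra fun c =>
    y2 y (Or.inr ⟨c, y1⟩) (.of_forall fun _ => id)
  obtain ⟨z, z1, z2⟩ := h3 _ (((h1 _ (ae_iff.1 y4)).insert a).insert y)
    (insert_subset y1 (insert_subset a1 inter_subset_right))
  refine z2 z (Or.inr (Or.inr ⟨fun c => z2 y (Or.inl rfl) (c ?_ y3), z1⟩)) (.of_forall fun _ => id)
  exact (v2.2 z z1 a a1).resolve_right (z2 a (Or.inr (Or.inl rfl)))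

abbrev GZ : Type := ℕ → ZMod 2

theorem small [MeasurableSpace GZ] [BorelSpace GZ] {μ : Measure GZ} [μ.IsAddHaarMeasure]
    [NullSingletonClass μ] {S : Set GZ} (h : μ S ≠ 0) :
    ∃ f : ℕ → ℕ, ∀ w : ℕ → GZ, ∃ z ∈ S, ∀ n, ∃ i < f n, z i ≠ w n i := by
  let C : ℕ → Set GZ := fun m => ⋂ i ∈ Iio m, {z | z i = 0}
  have c1 : ∀ m, MeasurableSet (C m) := fun m => .biInter (to_countable _) fun i _ =>
    (isClosed_eq (continuous_apply i) continuous_const).measurableSet
  have c2 := tendsto_measure_iInter_atTop (μ := μ) (s := C) (fun j => (c1 j).nullMeasurableSet)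
    (fun i j h => biInter_subset_biInter_left (Iio_subset_Iio h)) ⟨0, measure_ne_top _ _⟩
  rw [measure_mono_null (s := ⋂ n, C n) (t := {0}) (fun z hz => (funext fun i =>
    mem_iInter₂.1 (mem_iInter.1 hz (i + 1)) i (Nat.lt_succ_self i) : z = 0))
    (measure_singleton 0)] at c2
  obtain ⟨ε, e1, e2⟩ := ENNReal.exists_pos_sum_of_countable' h ℕ
  choose f hf using fun n => (c2.eventually (gt_mem_nhds (e1 n))).exists
  refine ⟨f, fun w => by_contra fun c3 => e2.not_ge ((measure_mono (t := ⋃ n,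
    (· + -w n) ⁻¹' C (f n)) fun z hz => by_contra fun c4 => c3 ⟨z, hz, fun n => by_contra fun c5 =>
      c4 (mem_iUnion.2 ⟨n, mem_iInter₂.2 fun i hi => ?_⟩)⟩).trans ((measure_iUnion_le _).trans
        (ENNReal.tsum_le_tsum fun n => (measure_preimage_add_right μ _ _).trans_le (hf n).le)))⟩
  have c6 : z i = w n i := by_contra fun c6 => c5 ⟨i, hi, c6⟩
  show z i + -w n i = 0
  rw [c6, add_neg_cancel]

theorem sier' (hCH : Cardinal.continuum.{0} = Cardinal.aleph 1) : ∃ S : Set GZ, (SG S ∧ TG S ∧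
    (∀ x ∈ S, ∀ y ∈ S, {i | x i = y i}.Infinite) ∧
      ∀ a : Set ℕ, a.Infinite → ∃ x ∈ S, ∃ y ∈ S, {i | x i = y i} = a) ∧
        ∃ f : ℕ → ℕ, ∀ w : ℕ → GZ, ∃ z ∈ S, ∀ n, ∃ i < f n, z i ≠ w n i := by
  classical
  borelize GZ
  let μ : Measure GZ := Measure.addHaar
  have : NullSingletonClass μ := ⟨fun x => by_contra fun c => (measure_ne_top μ univ)
    (infinite_univ.meas_eq_top ⟨_, c, fun y _ => ((Measure.addHaar_singleton μ x).trans
      (Measure.addHaar_singleton μ y).symm).le⟩)⟩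
  have m0 : ∀ s : Set GZ, s.Countable → μ s = 0 := fun s hs => hs.measure_zero μ
  obtain ⟨T, ⟨d⟩⟩ : ∃ T : Type, Nonempty (T ≃
    ({B : Set GZ // MeasurableSet B ∧ μ B = 0} × {a : Set ℕ // a.Infinite})) := ⟨_, ⟨.refl _⟩⟩
  have hI : Cardinal.mk T ≤ Cardinal.aleph 1 := by
    have c1 : Cardinal.mk {B : Set GZ // MeasurableSet B ∧ μ B = 0} ≤ Cardinal.continuum := by
      refine (Cardinal.mk_subtype_mono fun B hB => ?_).trans
        (MeasurableSpace.cardinal_measurableSet_le_continuum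
          (s := MeasurableSpace.countableGeneratingSet GZ)
          ((Cardinal.le_aleph0_iff_set_countable.2
            MeasurableSpace.countable_countableGeneratingSet).trans Cardinal.aleph0_le_continuum))
      rw [MeasurableSpace.generateFrom_countableGeneratingSet]
      exact hB.1
    have c2 : Cardinal.mk {a : Set ℕ // a.Infinite} ≤ Cardinal.continuum :=
      (Cardinal.mk_subtype_le _).trans (by simp)
    rw [← hCH, Cardinal.mk_congr d, Cardinal.mk_prod, Cardinal.lift_id,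
      Cardinal.lift_id]
    exact (mul_le_mul' c1 c2).trans_eq Cardinal.continuum_mul_self
  obtain ⟨lo, _, ho⟩ := Cardinal.exists_ord_eq_type_lt T
  have h0 : ∀ j : T, (Iio j).Countable := fun j =>
    (Cardinal.countable_iff_lt_aleph_one _).2 ((Cardinal.mk_Iio_lt j ho).trans_le hI)
  let u : T → GZ := fun j i => if i ∈ (d j).2.1 then 0 else 1
  let K : GZ → Set GZ := fun p => {x | {i | x i = p i}.Finite}
  have k1 : ∀ p, (K p).Countable := fun p =>
    countable_of_injective_of_countable_image (f := fun x => {i | x i = p i}) (fun x _ y _ e => by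
      funext i
      have c := Set.ext_iff.1 e i
      simp only [mem_setOf_eq] at c
      revert c
      generalize x i = a, y i = b, p i = c
      decide +revert) (Countable.ofPred_finite.mono (by rintro _ ⟨x, hx, rfl⟩; exact hx))
  let N : T → (T → GZ) → Set GZ := fun j f => ⋃ i ∈ Iio j, (d i).1.1 ∪ (K (f i) ∪ K (f i + u i))
  have n1 : ∀ j f, μ (N j f) = 0 := fun j f => (measure_biUnion_null_iff (h0 j)).2 fun i _ =>
    measure_union_null (d i).1.2.2 (m0 _ ((k1 _).union (k1 _)))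
  obtain ⟨p, hp⟩ := NormalWL.rec_ex (T := T) (Y := GZ) (fun j f x => x ∉ N j f ∧ x + u j ∉ N j f)
    (fun j f => by_contra fun c => (IsOpen.measure_pos μ isOpen_univ univ_nonempty).ne'
      (measure_mono_null (fun x _ => by_contra fun d => c ⟨x, not_or.1 d⟩)
        (measure_union_null (n1 j f) ((measure_preimage_add_right μ (u j) _).trans (n1 j f)))))
    fun j f g y e h => by
      rwa [show N j g = N j f from iUnion₂_congr fun i hi => by rw [e i hi]]
  let S : Set GZ := ⋃ j, {p j, p j + u j}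
  have s0 : ∀ j, ∀ x ∈ ({p j, p j + u j} : Set GZ), x ∉ N j p := by
    rintro j x (rfl | rfl)
    exacts [(hp j).1, (hp j).2]
  have s1 : ∀ B, μ.restrict S B = 0 → (B ∩ S).Countable := fun B hB => by
    obtain ⟨M, c1, c2, c3⟩ := exists_measurable_superset_of_null
      (le_antisymm ((Measure.le_restrict_apply S B).trans hB.le) bot_le)
    obtain ⟨j, hj⟩ := d.surjective ⟨⟨M, c2, c3⟩, univ, infinite_univ⟩
    refine (((h0 j).insert j).biUnion fun i _ => to_countable {p i, p i + u i}).mono fun x hx => ?_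
    obtain ⟨i, hi⟩ := mem_iUnion.1 hx.2
    refine mem_biUnion (x := i) (by_contra fun c5 => s0 i x hi (mem_biUnion (x := j) ?_
      (Or.inl (by rw [hj]; exact c1 hx)))) hi
    exact lt_of_le_of_ne (not_lt.1 fun e => c5 (Or.inr e)) fun e => c5 (Or.inl e.symm)
  have s2 : ∀ B, MeasurableSet B → Disjoint B S → μ.restrict S B = 0 := fun B c1 c2 => by
    rw [Measure.restrict_apply c1, c2.inter_eq, measure_empty]
  have s3 : ∀ j, {i | p j i = (p j + u j) i} = (d j).2.1 := fun j => Set.ext fun i => by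
    by_cases c : i ∈ (d j).2.1 <;> simp [u, c]
  have s4 : ∀ i j, i < j → ∀ x ∈ ({p j, p j + u j} : Set GZ), ∀ y ∈ ({p i, p i + u i} : Set GZ),
      {i | x i = y i}.Infinite := fun i j e x hx y hy c => s0 j x hx (mem_biUnion (x := i) e (by
    rcases hy with rfl | rfl
    exacts [Or.inr (Or.inl c), Or.inr (Or.inr c)]))
  have s5 : ∀ a : Set ℕ, a.Infinite → ∃ x ∈ S, ∃ y ∈ S, {i | x i = y i} = a := fun a ha =>
    ⟨_, mem_iUnion.2 ⟨d.symm ⟨⟨∅, .empty, measure_empty⟩, a, ha⟩, Or.inl rfl⟩, _,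
      mem_iUnion.2 ⟨_, Or.inr rfl⟩, (s3 _).trans (by rw [d.apply_symm_apply])⟩
  refine ⟨S, ⟨sg_sier s1 s2, tg_sier s1 s2, fun x hx y hy => ?_, s5⟩,
    small (μ := μ) fun c => ?_⟩
  swap
  · have c1 : S.Countable := inter_self S ▸ s1 S ((Measure.restrict_apply_self μ S).trans c)
    have : Uncountable (Set ℕ) := Cardinal.aleph0_lt_mk_iff.1 (by
      simpa using Cardinal.aleph0_lt_continuum)
    refine not_countable_univ (α := Set ℕ) ((Countable.ofPred_finite.union
      (c1.image2 c1 fun x y => {i | x i = y i})).mono fun a _ => ?_)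
    exact a.finite_or_infinite.imp id (s5 a)
  obtain ⟨i, hi⟩ := mem_iUnion.1 hx
  obtain ⟨j, hj⟩ := mem_iUnion.1 hy
  rcases lt_trichotomy i j with e | rfl | e
  · simpa only [eq_comm] using s4 i j e y hj x hi
  · rcases hi with rfl | rfl <;> rcases hj with rfl | rfl
    · simpa using infinite_univ
    · exact s3 i ▸ (d i).2.2
    · simpa only [eq_comm] using (s3 i ▸ (d i).2.2 : {l | p i l = (p i + u i) l}.Infinite)
    · simpa using infinite_univ
  · exact s4 j i e x hi y hj

theorem sier (hCH : Cardinal.continuum.{0} = Cardinal.aleph 1) : ∃ S : Set GZ, SG S ∧ TG S ∧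
    (∀ x ∈ S, ∀ y ∈ S, {i | x i = y i}.Infinite) ∧
      ∀ a : Set ℕ, a.Infinite → ∃ x ∈ S, ∃ y ∈ S, {i | x i = y i} = a :=
  (sier' hCH).imp fun _ h => h.1

end Pool.Agent.Lib.helper32.Tau
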