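import Pool.Agent.Lib.helper32.Sier

set_option autoImplicit false

namespace Pool.Agent.Lib.helper32.Tau

open Filter Topology Set Hom

theorem opn {O : Set ℕ → Prop} (h : Op O) : IsOpen {z : GZ | O {i | z i = 0}} :=
  isOpen_iff_mem_nhds.2 fun z hz => by
    obtain ⟨c, hc⟩ := h _ hz
    have h1 : ∀ i ∈ Iio c, ∀ᶠ w in 𝓝 z, w i = z i := fun i _ =>
      tendsto_pure.1 (nhds_discrete (ZMod 2) ▸ (continuous_apply i).tendsto z)
    exact ((eventually_all_finite (finite_Iio c)).2 h1).mono fun w hw =>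
      hc _ fun i hi => by rw [mem_setOf_eq, mem_setOf_eq, hw i hi]

theorem exs (hCH : Cardinal.continuum.{0} = Cardinal.aleph 1) :
    ∃ X : Set ℝ, S1 (Z := X) Ta Ga ∧ ¬ S1 (Z := X) Cover Cover ∧
      ¬ Sfin (Z := Fin 2 → X) Ga Cover := by
  classical
  obtain ⟨S, ⟨s1, s2, s3, s4⟩, f, s5⟩ := sier' hCH
  obtain ⟨X, e, e1, e2, e3, e4, e5⟩ := wrap ((fun z : GZ => {i | z i = 0}) '' S)
  choose ζ z1 z2 using e1
  have z3 : ∀ z ∈ S, ∃ x, e x = {i | z i = 0} := fun z hz => e2 _ ⟨z, hz, rfl⟩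
  have z4 : ∀ a b : ZMod 2, (a = 0 ↔ b = 0) ↔ a = b := by decide
  have h1 : ∀ a : Set ℕ, a.Infinite → ∃ q : Fin 2 → X, ∀ i, (i ∈ e (q 0) ↔ i ∈ e (q 1)) ↔ i ∈ a :=
    fun a ha => by
      obtain ⟨x, x1, y, y1, rfl⟩ := s4 a ha
      obtain ⟨x, hx⟩ := z3 x x1
      obtain ⟨y, hy⟩ := z3 y y1
      exact ⟨![x, y], fun i => by simpa [hx, hy] using z4 _ _⟩
  have : Nonempty X := ⟨(h1 _ infinite_univ).choose 0⟩
  refine ⟨X, fun 𝓤 h => ?_, fun h => ?_, fun h => ?_⟩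
  · have t1 : TG (univ : Set X) := fun V v1 v2 => by
      choose O o1 o2 using fun k => e5 _ (v1 k)
      obtain ⟨φ, c1, c2⟩ := s2 (fun k => {z | O k {i | z i = 0}}) (fun k => opn (o1 k))
        ⟨fun z hz => by
          obtain ⟨x, hx⟩ := z3 z hz
          simpa only [mem_setOf_eq, ← hx, ← o2] using v2.1 x trivial, fun z hz w hw => by
          obtain ⟨x, hx⟩ := z3 z hz
          obtain ⟨y, hy⟩ := z3 w hw
          have c := v2.2 x trivial y trivial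
          simp only [o2, hx, hy] at c
          exact c⟩
      exact ⟨φ, c1, fun x _ => (c2 _ (z1 x)).mono fun j hj => (o2 _ _).2 (z2 x ▸ hj)⟩
    choose U u1 u2 u3 using fun n => tg_seq t1 (h n)
    choose O o1 o2 using fun n k => e5 _ ((h n).1.1 _ (u2 n k))
    obtain ⟨k, hk⟩ := s1 (fun n k => {z | O n k {i | z i = 0}}) (fun n k => opn (o1 n k))
      fun n z hz => by
        obtain ⟨x, hx⟩ := z3 z hz
        simpa only [mem_setOf_eq, ← hx, ← o2] using u3 n x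
    exact ⟨fun n => U n (k n), fun n => u2 _ _, ga_range (fun n => (h n).1.1 _ (u2 _ _))
      (fun n c => (h n).1.2.2 (c ▸ u2 _ _))
      fun x => (hk _ (z1 x)).mono fun j hj => (o2 _ _ _).2 (z2 x ▸ hj)⟩
  · have p4 : ∀ i (q : Prop), IsClopen {x | i ∈ e x ↔ q} := fun i q => by
      by_cases hq : q
      · simpa [hq] using e4 i
      · simpa [hq, compl_setOf] using (e4 i).compl
    obtain ⟨U, h2, h3⟩ := h (fun n => range fun t : Set ℕ =>
      ⋂ i ∈ Iio (f n + 1), {x | i ∈ e x ↔ i ∈ t}) fun n => ⟨by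
        rintro _ ⟨t, rfl⟩
        exact (finite_Iio _).isOpen_biInter fun i _ => (p4 _ _).isOpen,
      eq_univ_of_forall fun x => ⟨_, ⟨e x, rfl⟩, mem_iInter₂.2 fun _ _ => Iff.rfl⟩, fun ⟨t, c⟩ => by
        obtain ⟨q, hq⟩ := h1 _ (Ici_infinite 1)
        have c1 : ∀ x, 0 ∈ e x ↔ 0 ∈ t := fun x =>
          mem_iInter₂.1 (eq_univ_iff_forall.1 c x) 0 (Nat.succ_pos _)
        exact Nat.not_succ_le_zero 0 ((hq 0).1 ((c1 _).trans (c1 _).symm))⟩
    choose t ht using h2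
    obtain ⟨z, c1, c2⟩ := s5 fun n i => if i ∈ t n then 0 else 1
    obtain ⟨x, hx⟩ := z3 z c1
    obtain ⟨_, ⟨n, rfl⟩, c3⟩ := (h3.2.1 ▸ mem_univ x : x ∈ ⋃₀ range U)
    obtain ⟨i, c4, c5⟩ := c2 n
    rw [← ht] at c3
    have c6 := mem_iInter₂.1 c3 i (Nat.lt_succ_of_lt c4)
    rw [mem_setOf_eq, hx, mem_setOf_eq] at c6
    refine c5 ((z4 _ _).1 ?_)
    rw [c6]
    split_ifs with c7 <;> simp [c7]
  let U : ℕ → ℕ → Set (Fin 2 → X) := fun n m =>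
    ⋃ s ∈ {s : Finset ℕ | s.card = n + 1 ∧ ∀ i ∈ s, i < m}, ⋂ i ∈ s, {q | i ∈ e (q 0) ↔ i ∈ e (q 1)}
  obtain ⟨𝓕, h2, h3⟩ := h (fun n => range (U n)) fun n => ga_range
    (fun m => isOpen_biUnion fun s _ => isOpen_biInter_finset fun i _ => by
      have c0 := (e4 i).preimage (continuous_apply (A := fun _ : Fin 2 => X) 0)
      have c1 := (e4 i).preimage (continuous_apply (A := fun _ : Fin 2 => X) 1)
      convert ((c0.inter c1).union (c0.compl.inter c1.compl)).isOpen using 1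
      ext q
      simp only [mem_setOf_eq, mem_union, mem_inter_iff, mem_preimage, mem_compl_iff]
      tauto) (fun m c => by
      obtain ⟨q, hq⟩ := h1 _ (Ici_infinite m)
      obtain ⟨s, c1, c2⟩ := mem_iUnion₂.1 (c ▸ mem_univ q : q ∈ U n m)
      obtain ⟨i, hi⟩ := Finset.card_pos.1 (c1.1 ▸ Nat.succ_pos n : 0 < s.card)
      exact (c1.2 i hi).not_ge ((hq i).1 (mem_iInter₂.1 c2 i hi))) fun q => by
      obtain ⟨s, c1, c2⟩ := (s3 _ (z1 (q 0)) _ (z1 (q 1))).exists_subset_card_eq (n + 1)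
      refine (eventually_gt_atTop (s.sup id)).mono fun m hm => mem_biUnion (x := s)
        ⟨c2, fun i hi => (Finset.le_sup (f := id) hi).trans_lt hm⟩ (mem_iInter₂.2 fun i hi => ?_)
      rw [mem_setOf_eq, ← z2, ← z2]
      exact (z4 _ _).2 (c1 hi)
  have h4 : ∀ n, ∃ g, ∀ W ∈ 𝓕 n, W ⊆ U n g := fun n =>
    ((eventually_all_finite (h2 n).1).2 fun W hW => by
      obtain ⟨m, rfl⟩ := (h2 n).2 hW
      exact (eventually_ge_atTop m).mono fun g hg => biUnion_subset_biUnion_left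
        fun s hs => ⟨hs.1, fun i hi => (hs.2 i hi).trans_le hg⟩).exists
  choose g hg using h4
  let b : ℕ → ℕ := fun n => ∑ i ∈ Finset.range (n + 1), (g i + 1)
  have b1 : StrictMono b := strictMono_nat_of_lt_succ fun n => by
    simp only [b, Finset.sum_range_succ _ (n + 1)]; omega
  obtain ⟨q, hq⟩ := h1 _ (infinite_range_of_injective b1.injective)
  obtain ⟨W, c1, c2⟩ := (h3.2.1 ▸ mem_univ q : q ∈ ⋃₀ ⋃ n, 𝓕 n)
  obtain ⟨n, hn⟩ := mem_iUnion.1 c1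
  obtain ⟨s, c3, c4⟩ := mem_iUnion₂.1 (hg n W hn c2)
  obtain ⟨i, c5, c6⟩ := Finset.exists_mem_notMem_of_card_lt_card
    (s := (Finset.range n).image b) (t := s)
    (Finset.card_image_le.trans_lt (by rw [Finset.card_range, c3.1]; omega))
  obtain ⟨j, rfl⟩ := (hq i).1 (mem_iInter₂.1 c4 i c5)
  have c7 : b n ≤ b j := b1.monotone (not_lt.1 fun c =>
    c6 (Finset.mem_image_of_mem b (Finset.mem_range.2 c)))
  have c8 := c3.2 _ c5
  simp only [b, Finset.sum_range_succ _ n] at c7 c8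
  omega

theorem sq_of {Z : Type*} [TopologicalSpace Z] (h : Sfin (Z := Z) Om Om) :
    Sfin (Z := Fin 2 → Z) Ga Cover := by
  classical
  intro 𝓤 h0
  have h1 := fun n => ga_om (h0 n)
  have h2 : ∀ n, ∀ F : Finset Z, ∃ V ∈ {V : Set Z | IsOpen V ∧
      ∃ U ∈ 𝓤 n, Set.pi univ (fun _ => V) ⊆ U}, (F : Set Z) ⊆ V := fun n F => by
    obtain ⟨U, h2, h3⟩ := (h1 n).2 (Fintype.piFinset fun _ => F)
    have h4 : ∀ p : Fintype.piFinset fun _ : Fin 2 => F, ∃ W : Fin 2 → Set Z,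
        (∀ i, IsOpen (W i) ∧ p.1 i ∈ W i) ∧ Set.pi univ W ⊆ U := fun p =>
      isOpen_pi_iff'.1 ((h1 n).1.1 U h2) p.1 (h3 p.2)
    choose W h4 h5 using h4
    let N : Z → Set Z := fun x => ⋂ p, ⋂ i, ⋂ _ : p.1 i = x, W p i
    have h6 : ∀ x, IsOpen (N x) := fun x => isOpen_iInter_of_finite fun p =>
      isOpen_iInter_of_finite fun i => isOpen_iInter_of_finite fun _ => (h4 p i).1
    refine ⟨⋃ x ∈ F, N x, ⟨isOpen_biUnion fun x _ => h6 x, U, h2, fun q hq => ?_⟩,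
      fun x hx => mem_biUnion hx (mem_iInter.2 fun p => mem_iInter₂.2 fun i e => e ▸ (h4 p i).2)⟩
    have h7 : ∀ i, ∃ x ∈ F, q i ∈ N x := fun i => by
      obtain ⟨x, h7, h8⟩ := mem_iUnion₂.1 (hq i trivial)
      exact ⟨x, h7, h8⟩
    choose x h7 h8 using h7
    exact h5 ⟨x, Fintype.mem_piFinset.2 h7⟩ fun i _ =>
      mem_iInter₂.1 (mem_iInter.1 (h8 i) ⟨x, Fintype.mem_piFinset.2 h7⟩) i rfl
  obtain ⟨𝓕, h3, h4⟩ := h
    (fun n => {V | IsOpen V ∧ ∃ U ∈ 𝓤 n, Set.pi univ (fun _ => V) ⊆ U}) fun n =>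
      ⟨⟨fun _ h => h.1, eq_univ_of_forall fun x => by
        obtain ⟨V, h3, h4⟩ := h2 n {x}
        exact ⟨V, h3, h4 (by simp)⟩, by
        rintro ⟨-, U, h3, h4⟩
        exact (h1 n).1.2.2 (eq_univ_of_forall (fun q => h4 fun _ _ => trivial) ▸ h3)⟩, h2 n⟩
  choose! u h5 h6 using fun n V (hV : V ∈ 𝓕 n) => ((h3 n).2 hV).2
  have h7 : ∀ n, u n '' 𝓕 n ⊆ 𝓤 n := fun n => by
    rintro _ ⟨V, hV, rfl⟩
    exact h5 n V hV
  refine ⟨fun n => u n '' 𝓕 n, fun n => ⟨(h3 n).1.image _, h7 n⟩, fun U hU => ?_,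
    eq_univ_of_forall fun q => ?_, fun hU => ?_⟩
  · obtain ⟨n, hn⟩ := mem_iUnion.1 hU
    exact (h1 n).1.1 U (h7 n hn)
  · obtain ⟨V, c1, c2⟩ := h4.2 (Finset.univ.image q)
    obtain ⟨n, hn⟩ := mem_iUnion.1 c1
    exact ⟨_, mem_iUnion.2 ⟨n, V, hn, rfl⟩, h6 n V hn fun i _ => c2 (by simp)⟩
  · obtain ⟨n, hn⟩ := mem_iUnion.1 hU
    exact (h1 n).1.2.2 (h7 n hn)

end Pool.Agent.Lib.helper32.Tau
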