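import Pool.Agent.Lib.helper32.Hom

set_option autoImplicit false

namespace Pool.Agent.Lib.helper32.Hom

open Filter Set

def Sat (G : ℕ → Finset ℕ) (A : Set ℕ) : Prop :=
  ∀ᶠ n in atTop, n ∈ A → ∃ i, n ∈ G i ∧ (G i : Set ℕ) ⊆ A

def Le (G' G : ℕ → Finset ℕ) : Prop := ∀ᶠ n in atTop, ∀ j, n ∈ G' j → ∃ i, n ∈ G i ∧ G i ⊆ G' j

def Ev (A B : Set ℕ) : Prop := ∀ᶠ n in atTop, n ∈ A ↔ n ∈ B

def comp (G H : ℕ → Finset ℕ) (j : ℕ) : Finset ℕ := (H j).biUnion G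

def sd (s : Finset ℕ) (B : Set ℕ) : Set ℕ := {n | n ∈ B ↔ n ∉ s}

variable {G H K : ℕ → Finset ℕ}

theorem mem_un {M : Set ℕ} {n : ℕ} : n ∈ un G M ↔ ∃ i ∈ M, n ∈ G i := by simp [un]

theorem un_comp (N : Set ℕ) : un (comp G H) N = un G (un H N) := by
  ext n
  simp only [mem_un, comp, Finset.mem_biUnion]
  exact ⟨fun ⟨j, a, i, b, c⟩ => ⟨i, ⟨j, a, b⟩, c⟩, fun ⟨i, ⟨j, a, b⟩, c⟩ => ⟨j, a, i, b, c⟩⟩

theorem blk_comp (hG : Blk G) (hH : Blk H) : Blk (comp G H) := by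
  refine ⟨fun j => ?_, fun i j n hi hj => ?_⟩
  · obtain ⟨i, hi⟩ := hH.1 j
    exact (hG.1 i).mono (Finset.subset_biUnion_of_mem G hi)
  · obtain ⟨a, a1, a2⟩ := Finset.mem_biUnion.1 hi
    obtain ⟨b, b1, b2⟩ := Finset.mem_biUnion.1 hj
    exact hH.2 i j a a1 (hG.2 a b n a2 b2 ▸ b1)

theorem le_comp : Le (comp G H) G := .of_forall fun _ _ h =>
  let ⟨i, a1, a2⟩ := Finset.mem_biUnion.1 h; ⟨i, a2, Finset.subset_biUnion_of_mem G a1⟩

theorem Le.trans (h1 : Le K H) (h2 : Le H G) : Le K G := (h1.and h2).mono fun _ h j hj =>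
  let ⟨i, a1, a2⟩ := h.1 j hj; let ⟨l, b1, b2⟩ := h.2 i a1; ⟨l, b1, b2.trans a2⟩

theorem Sat.le {A : Set ℕ} (h1 : Sat H A) (h2 : Le H G) : Sat G A := (h1.and h2).mono fun _ h hn =>
  let ⟨i, a1, a2⟩ := h.1 hn; let ⟨l, b1, b2⟩ := h.2 i a1
  ⟨l, b1, (Finset.coe_subset.2 b2).trans a2⟩

theorem sat_un (M : Set ℕ) : Sat G (un G M) := .of_forall fun _ h =>
  let ⟨i, a1, a2⟩ := mem_un.1 h; ⟨i, a2, fun _ b => mem_un.2 ⟨i, a1, b⟩⟩

theorem ev_notMem (s : Finset ℕ) : ∀ᶠ n in atTop, n ∉ s :=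
  (eventually_gt_atTop (s.sup id)).mono fun _ h hn => h.not_ge (Finset.le_sup (f := id) hn)

theorem ev_blk (hG : Blk G) {p : ℕ → Prop} (h : ∀ᶠ n in atTop, p n) :
    ∀ᶠ i in atTop, ∀ n ∈ G i, p n := by
  obtain ⟨c, hc⟩ := eventually_atTop.1 h
  have h1 : ∀ n ∈ Finset.range c, ∀ᶠ i in atTop, n ∉ G i := fun n _ => by
    by_cases h1 : ∃ i, n ∈ G i
    · obtain ⟨i, hi⟩ := h1
      exact (eventually_gt_atTop i).mono fun j hj e => hj.ne (hG.2 i j n hi e)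
    · exact .of_forall fun i e => h1 ⟨i, e⟩
  exact ((eventually_all_finset _).2 h1).mono fun i hi n hn =>
    hc n (not_lt.1 fun e => hi n (Finset.mem_range.2 e) hn)

theorem Sat.ev {A B : Set ℕ} (hG : Blk G) (h1 : Sat G A) (h2 : Ev B A) : Sat G B := by
  obtain ⟨c, hc⟩ := eventually_atTop.1 (ev_blk hG h2)
  filter_upwards [h1, h2, ev_notMem ((Finset.range c).biUnion G)] with n a1 a2 a3 a4
  obtain ⟨i, b1, b2⟩ := a1 (a2.1 a4)
  exact ⟨i, b1, fun x hx => (hc i (not_lt.1 fun e =>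
    a3 (Finset.mem_biUnion.2 ⟨i, Finset.mem_range.2 e, b1⟩)) x hx).2 (b2 hx)⟩

theorem ev_sd {A B : Set ℕ} (h : Ev A B) : ∃ s, A = sd s B := by
  rw [Ev, ← Nat.cofinite_eq_atTop, eventually_cofinite] at h
  refine ⟨h.toFinset, Set.ext fun n => ?_⟩
  simp only [sd, mem_setOf_eq, Finite.mem_toFinset]
  tauto

theorem sd_ev (s : Finset ℕ) (B : Set ℕ) : Ev (sd s B) B :=
  (ev_notMem s).mono fun n hn => by simp [sd, hn]

theorem op_un (hG : Blk G) {W : Set ℕ → Prop} (h : Op W) : Op fun M => W (un G M) := fun M hM => by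
  obtain ⟨c, hc⟩ := h _ hM
  obtain ⟨d, hd⟩ := eventually_atTop.1 (ev_blk hG (eventually_ge_atTop c))
  refine ⟨d, fun L hL => hc _ fun n hn => ?_⟩
  have h1 : ∀ i, n ∈ G i → i < d := fun i hi => not_le.1 fun e => hn.not_ge (hd i e n hi)
  simp only [mem_un]
  exact ⟨fun ⟨i, a, b⟩ => ⟨i, (hL i (h1 i b)).1 a, b⟩, fun ⟨i, a, b⟩ => ⟨i, (hL i (h1 i b)).2 a, b⟩⟩

theorem op_sd (s : Finset ℕ) {W : Set ℕ → Prop} (h : Op W) : Op fun M => W (sd s M) :=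
  fun _ hM => (h _ hM).imp fun _ hc L hL => hc _ fun n hn => iff_congr (hL n hn) Iff.rfl

theorem un_inf (hG : Blk G) {M : Set ℕ} (hM : M.Infinite) : (un G M).Infinite := by
  choose a ha using hG.1
  exact (hM.image (f := a) fun i _ j _ e => hG.2 i j _ (ha i) (e ▸ ha j)).mono
    (by rintro _ ⟨i, hi, rfl⟩; exact mem_un.2 ⟨i, hi, ha i⟩)

theorem seq_blk {p : ℕ → Finset ℕ → Prop}
    (h : ∀ j b, ∃ F : Finset ℕ, F.Nonempty ∧ (∀ n ∈ F, b ≤ n) ∧ p j F) :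
    ∃ B, Blk B ∧ ∀ j, p j (B j) := by
  choose f h1 h2 h3 using h
  let β : ℕ → ℕ := fun j => j.rec 0 fun j b => (f j b).sup id + 1
  have h5 : ∀ j, ∀ i ∈ f j (β j), β j ≤ i ∧ i < β (j + 1) := fun j i hi =>
    ⟨h2 _ _ i hi, Nat.lt_succ_of_le (Finset.le_sup (f := id) hi)⟩
  have h4 : StrictMono β := strictMono_nat_of_lt_succ fun j =>
    let ⟨i, hi⟩ := h1 j (β j); (h5 j i hi).1.trans_lt (h5 j i hi).2
  refine ⟨fun j => f j (β j), ⟨fun j => h1 _ _, fun i j n hi hj => ?_⟩, fun j => h3 _ _⟩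
  have a1 : i < j + 1 := h4.lt_iff_lt.1 ((h5 i n hi).1.trans_lt (h5 j n hj).2)
  have a2 : j < i + 1 := h4.lt_iff_lt.1 ((h5 j n hj).1.trans_lt (h5 i n hi).2)
  omega

theorem low (𝓖 : ℕ → ℕ → Finset ℕ) (h1 : ∀ l, Blk (𝓖 l))
    (h2 : ∀ l m, l ≠ m → Le (𝓖 l) (𝓖 m) ∨ Le (𝓖 m) (𝓖 l)) : ∃ G, Blk G ∧ ∀ l, Le G (𝓖 l) := by
  have h0 : ∀ l, Le (𝓖 l) (𝓖 l) := fun l => .of_forall fun n j hj => ⟨j, hj, Finset.Subset.refl _⟩
  have h3 : ∀ j, ∃ m, ∀ l < j, Le (𝓖 m) (𝓖 l) := fun j => by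
    induction j with
    | zero => exact ⟨0, fun _ h => absurd h (Nat.not_lt_zero _)⟩
    | succ j ih =>
      obtain ⟨m, hm⟩ := ih
      rcases (em (m = j)).elim (fun e => Or.inl (e ▸ h0 m)) (h2 m j) with e | e
      · exact ⟨m, fun l hl => (Nat.lt_succ_iff_lt_or_eq.1 hl).elim (hm l) fun c => c ▸ e⟩
      · exact ⟨j, fun l hl => (Nat.lt_succ_iff_lt_or_eq.1 hl).elim (fun c => e.trans (hm l c))
          fun c => c ▸ h0 j⟩
  obtain ⟨B, b1, b2⟩ := seq_blk (p := fun j F => ∀ l < j, ∀ n ∈ F, ∃ i, n ∈ 𝓖 l i ∧ 𝓖 l i ⊆ F)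
    fun j b => by
      obtain ⟨m, hm⟩ := h3 j
      obtain ⟨i, hi⟩ := (ev_blk (h1 m) ((eventually_ge_atTop b).and
        ((eventually_all_finite (finite_lt_nat j)).2 hm))).exists
      exact ⟨𝓖 m i, (h1 m).1 i, fun n hn => (hi n hn).1, fun l hl n hn => (hi n hn).2 l hl i hn⟩
  exact ⟨B, b1, fun l => (ev_notMem ((Finset.range (l + 1)).biUnion B)).mono fun n hn j hj =>
    b2 j l (not_le.1 fun e => hn (Finset.mem_biUnion.2
      ⟨j, Finset.mem_range.2 (Nat.lt_succ_of_le e), hj⟩)) n hj⟩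

theorem kill (hG : Blk G) (D : Set ℕ) :
    ∃ G', Blk G' ∧ Le G' G ∧ (D.Infinite → (D \ un G' univ).Infinite) := by
  have h1 : ∀ r, Blk fun j => ({2 * j + r} : Finset ℕ) := fun r =>
    ⟨fun _ => Finset.singleton_nonempty _, fun i j n hi hj => by
      rw [Finset.mem_singleton] at hi hj; omega⟩
  by_cases h : (D \ un (comp G fun j => {2 * j + 0}) univ).Infinite
  · exact ⟨_, blk_comp hG (h1 0), le_comp, fun _ => h⟩
  · refine ⟨_, blk_comp hG (h1 1), le_comp, fun hD => (hD.diff (not_infinite.1 h)).mono ?_⟩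
    rintro n ⟨a1, a2⟩
    refine ⟨a1, fun a3 => a2 ⟨a1, fun a4 => ?_⟩⟩
    simp only [mem_un, comp, Finset.singleton_biUnion] at a3 a4
    obtain ⟨i, -, hi⟩ := a3
    obtain ⟨j, -, hj⟩ := a4
    have := hG.2 _ _ _ hi hj
    omega

def Good (O : ℕ → ℕ → Set ℕ → Prop) (Y : Set (Set ℕ)) (G : ℕ → Finset ℕ) : Prop :=
  ∃ k m : ℕ → ℕ, StrictMono k ∧ StrictMono m ∧ (∀ A ∈ Y, ∀ᶠ j in atTop, O (k j) (m j) A) ∧
    ∀ A : Set ℕ, A.Infinite → Sat G A → (∀ᶠ j in atTop, O (k j) (m j) A) ∨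
      ∀ᶠ j in atTop, O (k j) (m j) A ↔ (G (j / 2) : Set ℕ) ⊆ A

theorem stage (hG : Blk G) {O : ℕ → ℕ → Set ℕ → Prop} (hO : ∀ n m, Op (O n m)) {Y : Set (Set ℕ)}
    (hY : Y.Countable) (h1 : ∀ B, Ev B (un G univ) → B ∈ Y)
    (h2 : ∀ n, ∀ F : Set (Set ℕ), F.Finite → F ⊆ Y → ∃ᶠ m in atTop, ∀ A ∈ F, O n m A) :
    ∃ G', Blk G' ∧ Le G' G ∧ Good O Y G' := by
  classical
  obtain ⟨z, rfl⟩ := hY.exists_eq_range ⟨_, h1 _ (.of_forall fun _ => Iff.rfl)⟩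
  have h3 : ∀ (k : ℕ) (q : ℕ × ℕ), ∃ r : ℕ × ℕ, q.1 < r.1 ∧ q.2 < r.2 ∧ (∀ i < k, O k r.2 (z i)) ∧
      ∀ s ⊆ Finset.range k, ∀ M, Ico q.1 r.1 ⊆ M → O k r.2 (sd s (un G M)) := fun k q => by
    let w : Finset ℕ → Finset ℕ → Set ℕ := fun s t => sd s (un G (t ∪ Ici q.1))
    obtain ⟨m, a1, a2⟩ := ((h2 k (z '' {i | i < k} ∪ image2 w (Finset.range k).powerset
      (Finset.range q.1).powerset) (((finite_lt_nat k).image z).union
        ((Finset.finite_toSet _).image2 _ (Finset.finite_toSet _))) (by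
      rintro _ (⟨i, -, rfl⟩ | ⟨s, -, t, -, rfl⟩)
      · exact ⟨i, rfl⟩
      · refine h1 _ ?_
        filter_upwards [sd_ev s (un G (t ∪ Ici q.1)), ev_notMem ((Finset.range q.1).biUnion G)]
          with n b1 b2
        rw [b1, mem_un, mem_un]
        exact ⟨fun ⟨i, _, b⟩ => ⟨i, trivial, b⟩, fun ⟨i, _, b⟩ => ⟨i, Or.inr (not_lt.1 fun e =>
          b2 (Finset.mem_biUnion.2 ⟨i, Finset.mem_range.2 e, b⟩)), b⟩⟩)).and_eventually
      (eventually_gt_atTop q.2)).exists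
    have a3 : ∀ s ∈ (Finset.range k).powerset, ∀ t ∈ (Finset.range q.1).powerset,
        ∀ᶠ c in atTop, ∀ L : Set ℕ, (∀ i < c, i ∈ L ↔ i ∈ (t : Set ℕ) ∪ Ici q.1) →
          O k m (sd s (un G L)) := fun s hs t ht => by
      obtain ⟨c, hc⟩ := op_un hG (op_sd s (hO k m)) _ (a1 _ (Or.inr ⟨s, hs, t, ht, rfl⟩))
      exact (eventually_ge_atTop c).mono fun d hd L hL => hc L fun i hi => hL i (hi.trans_le hd)
    obtain ⟨c, a4, a5⟩ := ((eventually_gt_atTop q.1).and ((eventually_all_finset _).2 fun s hs =>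
      (eventually_all_finset _).2 (a3 s hs))).exists
    refine ⟨(c, m), a4, a2, fun i hi => a1 _ (Or.inl ⟨i, hi, rfl⟩), fun s hs M hM =>
      a5 s (Finset.mem_powerset.2 hs) ((Finset.range q.1).filter (· ∈ M))
        (Finset.mem_powerset.2 (Finset.filter_subset _ _)) M fun i hi => ?_⟩
    simp only [Finset.coe_filter, Finset.mem_range, mem_union, mem_setOf_eq, mem_Ici]
    exact ⟨fun e => (lt_or_ge i q.1).imp (fun b => ⟨b, e⟩) id,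
      fun e => e.elim And.right fun b => hM ⟨b, hi⟩⟩
  choose r r1 r2 r3 r4 using h3
  let q : ℕ → ℕ × ℕ := fun k => k.rec (0, 0) r
  have q1 : StrictMono fun k => (q k).1 := strictMono_nat_of_lt_succ fun k => r1 k _
  have q2 : StrictMono fun k => (q (k + 1)).2 := strictMono_nat_of_lt_succ fun k => r2 (k + 1) _
  let H : ℕ → Finset ℕ := fun k => Finset.Ico (q k).1 (q (k + 1)).1
  have hH : Blk H := ⟨fun k => Finset.nonempty_Ico.2 (r1 k _), fun i j n hi hj => by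
    have a1 : i < j + 1 := q1.lt_iff_lt.1
      ((Finset.mem_Ico.1 hi).1.trans_lt (Finset.mem_Ico.1 hj).2)
    have a2 : j < i + 1 := q1.lt_iff_lt.1
      ((Finset.mem_Ico.1 hj).1.trans_lt (Finset.mem_Ico.1 hi).2)
    omega⟩
  obtain ⟨K, κ, k1, k2, k3, k4⟩ := hom (fun s k L => O k (q (k + 1)).2 (sd s (un G (un H L))))
    fun s k => op_un hH (op_un hG (op_sd s (hO _ _)))
  let Pr : ℕ → Finset ℕ := fun i => {2 * i, 2 * i + 1}
  have p1 : ∀ i j, j ∈ Pr i ↔ j / 2 = i := fun i j => by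
    simp only [Pr, Finset.mem_insert, Finset.mem_singleton]; omega
  have hPr : Blk Pr := ⟨fun i => Finset.insert_nonempty _ _,
    fun i j n hi hj => ((p1 _ _).1 hi).symm.trans ((p1 _ _).1 hj)⟩
  have b0 : Blk (comp (comp (comp G H) K) Pr) := blk_comp (blk_comp (blk_comp hG hH) k1) hPr
  refine ⟨_, b0, (le_comp.trans le_comp).trans le_comp, κ, fun j => (q (κ j + 1)).2, k2,
    q2.comp k2, ?_, fun A a1 a2 => ?_⟩
  · rintro _ ⟨i, rfl⟩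
    exact (k2.tendsto_atTop.eventually (eventually_gt_atTop i)).mono fun j hj => r3 _ _ i hj
  let N : Set ℕ := {i | (comp (comp (comp G H) K) Pr i : Set ℕ) ⊆ A}
  have a3 : Ev A (un (comp (comp (comp G H) K) Pr) N) := a2.mono fun n hn =>
    ⟨fun e => let ⟨i, c1, c2⟩ := hn e; mem_un.2 ⟨i, c2, c1⟩,
      fun e => let ⟨_, c1, c2⟩ := mem_un.1 e; c1 c2⟩
  have a4 : N.Infinite := fun a4 => by
    obtain ⟨n, c1, c2, c3⟩ := ((Nat.frequently_atTop_iff_infinite.2 a1).and_eventually (a3.and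
      (ev_notMem (a4.toFinset.biUnion (comp (comp (comp G H) K) Pr))))).exists
    obtain ⟨i, c4, c5⟩ := mem_un.1 (c2.1 c1)
    exact c3 (Finset.mem_biUnion.2 ⟨i, a4.mem_toFinset.2 c4, c5⟩)
  obtain ⟨s, hs⟩ := ev_sd a3
  rw [un_comp, un_comp, un_comp] at hs
  have p2 : ∀ j, j ∈ un Pr N ↔ j / 2 ∈ N := fun j => by simp [mem_un, p1]
  obtain ⟨ρ, a5⟩ := k4 s _ (un_inf hPr a4)
  have a6 : ∀ᶠ j in atTop, j ∈ un Pr N → O (κ j) (q (κ j + 1)).2 A := by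
    filter_upwards [k2.tendsto_atTop.eventually (eventually_gt_atTop (s.sup id))] with j c1 c2
    rw [hs]
    exact r4 (κ j) _ s (fun n hn => Finset.mem_range.2 ((Finset.le_sup (f := id) hn).trans_lt c1)) _
      fun i hi => mem_un.2 ⟨κ j, mem_un.2 ⟨j, c2, k3 j⟩, Finset.mem_Ico.2 hi⟩
  rw [← hs] at a5
  by_cases hρ : ρ
  · exact Or.inl ((a5.and a6).mono fun j c => (em _).elim c.2 fun e => (c.1 e).2 hρ)
  · exact Or.inr ((a5.and a6).mono fun j c => ⟨fun e => (p2 j).1 (by_contra fun e' =>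
      hρ ((c.1 e').1 e)), fun e => c.2 ((p2 j).2 e)⟩)

end Pool.Agent.Lib.helper32.Hom
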