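import Mathlib

set_option autoImplicit false

namespace Pool.Agent.Lib.helper32.Tau

open Filter Topology Set

variable {Z : Type*} [TopologicalSpace Z]

def Cover (𝓤 : Set (Set Z)) : Prop := (∀ U ∈ 𝓤, IsOpen U) ∧ ⋃₀ 𝓤 = univ ∧ univ ∉ 𝓤

def Om (𝓤 : Set (Set Z)) : Prop := Cover 𝓤 ∧ ∀ F : Finset Z, ∃ U ∈ 𝓤, (F : Set Z) ⊆ U

def Ga (𝓤 : Set (Set Z)) : Prop := Cover 𝓤 ∧ 𝓤.Infinite ∧ ∀ x, {U ∈ 𝓤 | x ∉ U}.Finite

def Ta (𝓤 : Set (Set Z)) : Prop := Cover 𝓤 ∧ (∀ x, {U ∈ 𝓤 | x ∈ U}.Infinite) ∧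
  ∀ x y, {U ∈ 𝓤 | x ∈ U ∧ y ∉ U}.Finite ∨ {U ∈ 𝓤 | y ∈ U ∧ x ∉ U}.Finite

def S1 (A B : Set (Set Z) → Prop) : Prop := ∀ 𝓤 : ℕ → Set (Set Z), (∀ n, A (𝓤 n)) →
  ∃ U : ℕ → Set Z, (∀ n, U n ∈ 𝓤 n) ∧ B (range U)

theorem cov_of_large {𝓤 : Set (Set Z)} (h : ∀ x, {U ∈ 𝓤 | x ∈ U}.Infinite) : ⋃₀ 𝓤 = univ :=
  eq_univ_of_forall fun x => let ⟨U, h1, h2⟩ := (h x).nonempty; ⟨U, h1, h2⟩

theorem ga_large {𝓤 : Set (Set Z)} (h1 : 𝓤.Infinite) (h2 : ∀ x, {U ∈ 𝓤 | x ∉ U}.Finite) (x : Z) :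
    {U ∈ 𝓤 | x ∈ U}.Infinite :=
  (h1.diff (h2 x)).mono fun _ h => ⟨h.1, not_not.1 fun h3 => h.2 ⟨h.1, h3⟩⟩

theorem ga_ta {𝓤 : Set (Set Z)} (h : Ga 𝓤) : Ta 𝓤 :=
  ⟨h.1, ga_large h.2.1 h.2.2, fun _ y => Or.inl ((h.2.2 y).subset fun _ h => ⟨h.1, h.2.2⟩)⟩

theorem ga_om {𝓤 : Set (Set Z)} (h : Ga 𝓤) : Om 𝓤 := by
  refine ⟨h.1, fun F => ?_⟩
  obtain ⟨U, h1, h2⟩ := (h.2.1.diff (F.finite_toSet.biUnion fun x _ => h.2.2 x)).nonempty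
  exact ⟨U, h1, fun x hx => not_not.1 fun h3 => h2 (mem_biUnion hx ⟨h1, h3⟩)⟩

theorem ga_range {U : ℕ → Set Z} (h1 : ∀ n, IsOpen (U n)) (h2 : ∀ n, U n ≠ univ)
    (h3 : ∀ x, ∀ᶠ n in atTop, x ∈ U n) : Ga (range U) := by
  have h4 : (range U).Infinite := fun h4 => by
    have h5 : ∀ W ∈ range U, ∀ᶠ n in atTop, U n ≠ W := by
      rintro _ ⟨m, rfl⟩
      obtain ⟨x, hx⟩ := (ne_univ_iff_exists_notMem _).1 (h2 m)
      exact (h3 x).mono fun n hn e => hx (e ▸ hn)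
    obtain ⟨n, hn⟩ := ((eventually_all_finite h4).2 h5).exists
    exact hn _ ⟨n, rfl⟩ rfl
  have h5 : ∀ x, {W ∈ range U | x ∉ W}.Finite := fun x => by
    have h5 := h3 x
    rw [← Nat.cofinite_eq_atTop, eventually_cofinite] at h5
    refine (h5.image U).subset ?_
    rintro _ ⟨⟨n, rfl⟩, hn⟩
    exact ⟨n, hn, rfl⟩
  exact ⟨⟨by rintro _ ⟨n, rfl⟩; exact h1 n, cov_of_large (ga_large h4 h5),
    by rintro ⟨n, hn⟩; exact h2 n hn⟩, h4, h5⟩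

theorem ga_diff {𝓤 𝓕 : Set (Set Z)} (h : Ga 𝓤) (h1 : 𝓕.Finite) : Ga (𝓤 \ 𝓕) := by
  have h2 : ∀ x, {U ∈ 𝓤 \ 𝓕 | x ∉ U}.Finite := fun x => (h.2.2 x).subset fun _ h => ⟨h.1.1, h.2⟩
  exact ⟨⟨fun U hU => h.1.1 U hU.1, cov_of_large (ga_large (h.2.1.diff h1) h2),
    fun h3 => h.1.2.2 h3.1⟩, h.2.1.diff h1, h2⟩

theorem fto {A B : Set (Set Z) → Prop} (h : S1 A B) {𝓦 : ℕ → Set (Set Z)}
    (h1 : ∀ n, (𝓦 n).Countable) (h2 : ∀ n, ∀ 𝓕 : Set (Set Z), 𝓕.Finite → A (𝓦 n \ 𝓕)) :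
    ∃ U : ℕ → Set Z, (∀ n, U n ∈ 𝓦 n) ∧ B (range U) ∧
      ∀ 𝓕 : Set (Set Z), 𝓕.Finite → ∀ᶠ n in atTop, U n ∉ 𝓕 := by
  obtain ⟨e, he⟩ := countable_iff_exists_subset_range.1 (countable_iUnion h1)
  obtain ⟨U, h3, h4⟩ := h _ fun n => h2 n _ ((finite_lt_nat n).image e)
  refine ⟨U, fun n => (h3 n).1, h4, fun 𝓕 h5 => ?_⟩
  have h6 : ∀ W ∈ 𝓕, ∀ᶠ n in atTop, U n ≠ W := fun W _ => by
    by_cases h6 : W ∈ range e
    · obtain ⟨i, rfl⟩ := h6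
      exact (eventually_gt_atTop i).mono fun n hn e => (h3 n).2 ⟨i, hn, e.symm⟩
    · exact .of_forall fun n e => h6 (e ▸ he (mem_iUnion.2 ⟨n, (h3 n).1⟩))
  exact ((eventually_all_finite h5).2 h6).mono fun n hn h7 => hn _ h7 rfl

def Bad (A : Set (Set Z) → Prop) (C : Set Z) : Prop := ∃ 𝓐 : ℕ → Set (Set Z),
  (∀ n, (𝓐 n).Countable) ∧ (∀ n, ∀ 𝓕 : Set (Set Z), 𝓕.Finite → A (𝓐 n \ 𝓕)) ∧
    (∀ n, ∀ U ∈ 𝓐 n, Cᶜ ⊆ U) ∧
      ∀ U : ℕ → Set Z, (∀ n, U n ∈ 𝓐 n) → ∃ x ∈ C, ∃ᶠ n in atTop, x ∉ U n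

theorem two {A : Set (Set Z) → Prop} (h : S1 A Ta) {C D : Set Z} (hd : Disjoint C D)
    (hC : Bad A C) (hD : Bad A D) : False := by
  obtain ⟨𝓐, a1, a2, a3, a4⟩ := hC
  obtain ⟨𝓑, b1, b2, b3, b4⟩ := hD
  obtain ⟨U, h1, h2, h3⟩ := fto h (𝓦 := fun n => if n % 2 = 0 then 𝓐 (n / 2) else 𝓑 (n / 2))
    (fun n => by split_ifs; exacts [a1 _, b1 _]) fun n => by split_ifs; exacts [a2 _, b2 _]
  have h4 : ∀ n, U (2 * n) ∈ 𝓐 n := fun n => by simpa using h1 (2 * n)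
  have h5 : ∀ n, U (2 * n + 1) ∈ 𝓑 n := fun n => by
    have h5 := h1 (2 * n + 1)
    have h6 : (2 * n + 1) / 2 = n := by omega
    rwa [if_neg (by omega), h6] at h5
  obtain ⟨x, h6, h7⟩ := a4 _ h4
  obtain ⟨y, h8, h9⟩ := b4 _ h5
  have t1 : Tendsto (fun n : ℕ => 2 * n) atTop atTop :=
    tendsto_atTop_mono (fun n => by simp only [id]; omega) tendsto_id
  have t2 : Tendsto (fun n : ℕ => 2 * n + 1) atTop atTop :=
    tendsto_atTop_mono (fun n => by simp only [id]; omega) tendsto_id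
  rcases h2.2.2 x y with e | e
  · obtain ⟨n, c1, c2⟩ := (h9.and_eventually (t2.eventually (h3 _ e))).exists
    exact c2 ⟨⟨_, rfl⟩, b3 n _ (h5 n) (hd.notMem_of_mem_left h6), c1⟩
  · obtain ⟨n, c1, c2⟩ := (h7.and_eventually (t1.eventually (h3 _ e))).exists
    exact c2 ⟨⟨_, rfl⟩, a3 n _ (h4 n) (hd.notMem_of_mem_right h8), c1⟩

theorem loc [T3Space Z] [SecondCountableTopology Z] {P : Set Z → Prop}
    (h1 : ∀ C D, IsClosed C → IsClosed D → Disjoint C D → P C ∨ P D)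
    (h2 : ∀ C : Set Z, C.Subsingleton → P C) :
    ∃ C : ℕ → Set Z, (∀ n, P (C n)) ∧ ∀ x, ∃ n, x ∈ C n := by
  let B : Set Z := {x | ∀ C ∈ 𝓝 x, ¬ P C}
  have h3 : B.Subsingleton := fun x hx y hy => by_contra fun e => by
    obtain ⟨s, h3, t, h4, h5⟩ := exists_nhds_disjoint_closure e
    exact (h1 _ _ isClosed_closure isClosed_closure h5).elim
      (hx _ (mem_of_superset h3 subset_closure)) (hy _ (mem_of_superset h4 subset_closure))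
  have h4 : ∀ x ∈ Bᶜ, ∃ C ∈ 𝓝 x, P C := fun x hx => by simpa [B] using hx
  choose! f h4 h5 using h4
  obtain ⟨t, h6, h7, h8⟩ := TopologicalSpace.countable_cover_nhdsWithin (f := f) (s := Bᶜ)
    fun x hx => mem_nhdsWithin_of_mem_nhds (h4 x hx)
  obtain ⟨C, hC⟩ := ((h7.image f).insert B).exists_eq_range (insert_nonempty _ _)
  refine ⟨C, fun n => ?_, fun x => ?_⟩
  · rcases (hC ▸ ⟨n, rfl⟩ : C n ∈ insert B (f '' t)) with e | ⟨x, h9, e⟩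
    · exact e ▸ h2 B h3
    · exact e ▸ h5 x (h6 h9)
  · by_cases hx : x ∈ B
    · obtain ⟨n, hn⟩ := (hC ▸ mem_insert _ _ : B ∈ range C)
      exact ⟨n, hn ▸ hx⟩
    · obtain ⟨z, h9, h10⟩ := mem_iUnion₂.1 (h8 hx)
      obtain ⟨n, hn⟩ := (hC ▸ mem_insert_of_mem _ ⟨z, h9, rfl⟩ : f z ∈ range C)
      exact ⟨n, hn ▸ h10⟩

def SG (C : Set Z) : Prop := ∀ O : ℕ → ℕ → Set Z, (∀ n k, IsOpen (O n k)) →
  (∀ n, ∀ x ∈ C, ∀ᶠ k in atTop, x ∈ O n k) → ∃ k : ℕ → ℕ, ∀ x ∈ C, ∀ᶠ n in atTop, x ∈ O n (k n)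

theorem sg_bad {C : Set Z} (hC : IsClosed C) (h : ¬ SG C) : Bad Ga C := by
  classical
  simp only [SG, not_forall] at h
  obtain ⟨O, h1, h2, h3⟩ := h
  obtain ⟨m, hm⟩ : ∃ m, ∀ k, ¬ C ⊆ O m k := by_contra fun h => by
    push Not at h
    choose k hk using h
    exact h3 ⟨k, fun x hx => .of_forall fun n => hk n hx⟩
  let ν : ℕ → ℕ := fun n => if ∃ k, C ⊆ O n k then m else n
  refine ⟨fun n => range fun k => O (ν n) k ∪ Cᶜ, fun n => countable_range _,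
    fun n 𝓕 h4 => ga_diff (ga_range (fun k => (h1 _ k).union hC.isOpen_compl) (fun k e => ?_)
      fun x => ?_) h4, ?_, fun U h4 => by_contra fun h5 => h3 ?_⟩
  · have h5 : C ⊆ O (ν n) k := fun x hx =>
      (e ▸ mem_univ x : x ∈ O (ν n) k ∪ Cᶜ).resolve_right (not_not.2 hx)
    by_cases h6 : ∃ k, C ⊆ O n k
    · exact hm k (by simpa only [ν, if_pos h6] using h5)
    · exact h6 ⟨k, by simpa only [ν, if_neg h6] using h5⟩
  · by_cases hx : x ∈ C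
    · exact (h2 _ x hx).mono fun _ => Or.inl
    · exact .of_forall fun _ => Or.inr hx
  · rintro n _ ⟨k, rfl⟩
    exact subset_union_right
  · have h6 : ∀ n, ∃ k, C ∩ U n ⊆ O n k := fun n => by
      by_cases h6 : ∃ k, C ⊆ O n k
      · exact h6.imp fun k hk => inter_subset_left.trans hk
      · obtain ⟨k, hk⟩ := h4 n
        simp only [ν, if_neg h6] at hk
        exact ⟨k, fun x hx => (hk ▸ hx.2 : x ∈ O n k ∪ Cᶜ).resolve_right (not_not.2 hx.1)⟩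
    choose k hk using h6
    push Not at h5
    exact ⟨k, fun x hx => (h5 x hx).mono fun n hn => hk n ⟨hx, hn⟩⟩

theorem sg_strong {C : Set Z} (h : SG C) (O : ℕ → ℕ → Set Z) (h1 : ∀ n k, IsOpen (O n k))
    (h2 : ∀ n, ∀ x ∈ C, ∀ᶠ k in atTop, x ∈ O n k) : ∃ ψ : ℕ → ℕ → ℕ, (∀ n m, m ≤ ψ n m) ∧
      ∀ x ∈ C, ∀ᶠ n in atTop, ∀ m, x ∈ O n (ψ n m) := by
  obtain ⟨k, hk⟩ := h (fun i k => O i.unpair.1 (k + i.unpair.2)) (fun _ _ => h1 _ _)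
    fun i x hx => (tendsto_add_atTop_nat _).eventually (h2 _ x hx)
  refine ⟨fun n m => k (n.pair m) + m, fun n m => Nat.le_add_left _ _, fun x hx => ?_⟩
  obtain ⟨N, hN⟩ := eventually_atTop.1 (hk x hx)
  filter_upwards [eventually_ge_atTop N] with n hn m
  simpa using hN _ (hn.trans (Nat.left_le_pair n m))

theorem sg_union {C : ℕ → Set Z} (h : ∀ i, SG (C i)) : SG (⋃ i, C i) := by
  intro O h1 h2
  have h3 : ∀ (i : ℕ) (κ : ℕ → ℕ → ℕ), ∃ ψ : ℕ → ℕ → ℕ, (∀ n m, m ≤ ψ n m) ∧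
      ((∀ n m, m ≤ κ n m) → ∀ x ∈ C i, ∀ᶠ n in atTop, ∀ m, x ∈ O n (κ n (ψ n m))) := fun i κ => by
    by_cases hκ : ∀ n m, m ≤ κ n m
    · obtain ⟨ψ, h3, h4⟩ := sg_strong (h i) (fun n m => O n (κ n m)) (fun _ _ => h1 _ _)
        fun n x hx => (tendsto_atTop_mono (hκ n) tendsto_id).eventually
          (h2 n x (mem_iUnion.2 ⟨i, hx⟩))
      exact ⟨ψ, h3, fun _ => h4⟩
    · exact ⟨fun _ m => m, fun _ _ => le_rfl, fun h => absurd h hκ⟩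
  choose ψ h3 h4 using h3
  let κ : ℕ → ℕ → ℕ → ℕ := fun i => i.rec (fun _ m => m) fun i κ n m => κ n (ψ i κ n m)
  have h5 : ∀ i n m, m ≤ κ i n m := fun i => by
    induction i with
    | zero => exact fun _ _ => le_rfl
    | succ i ih => exact fun n m => (h3 i (κ i) n m).trans (ih n _)
  have h6 : ∀ i j, i ≤ j → ∀ n m, ∃ l, κ j n m = κ i n l := fun i j hij => by
    induction hij with
    | refl => exact fun _ m => ⟨m, rfl⟩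
    | step _ ih => exact fun n m => ih n _
  refine ⟨fun n => κ n n 0, fun x hx => ?_⟩
  obtain ⟨i, hi⟩ := mem_iUnion.1 hx
  filter_upwards [h4 i (κ i) (h5 i) x hi, eventually_gt_atTop i] with n h7 h8
  obtain ⟨l, hl⟩ := h6 (i + 1) n h8 n 0
  exact hl ▸ h7 l

theorem sg_of [T3Space Z] [SecondCountableTopology Z] (h : S1 (Z := Z) Ga Ta) :
    SG (univ : Set Z) := by
  obtain ⟨C, h1, h2⟩ := loc (P := SG (Z := Z)) (fun C D hC hD hd => by_contra fun h1 =>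
    two h hd (sg_bad hC fun h2 => h1 (Or.inl h2)) (sg_bad hD fun h2 => h1 (Or.inr h2)))
    fun C hC O _ h2 => by
      choose k hk using fun n => ((eventually_all_finite hC.finite).2 (h2 n)).exists
      exact ⟨k, fun x hx => .of_forall fun n => hk n x hx⟩
  exact (iUnion_eq_univ_iff.2 h2) ▸ sg_union h1

theorem sg_s1 (h : SG (univ : Set Z)) : S1 (Z := Z) Ga Ga := by
  intro 𝓤 h1
  let O : ℕ → ℕ → Set Z := fun n k => (h1 n).2.1.natEmbedding _ k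
  have h2 : ∀ n k, O n k ∈ 𝓤 n := fun n k => ((h1 n).2.1.natEmbedding _ k).2
  obtain ⟨k, hk⟩ := h O (fun n k => (h1 n).1.1 _ (h2 n k)) fun n x _ => by
    rw [← Nat.cofinite_eq_atTop, eventually_cofinite]
    exact Finite.of_injOn (f := O n) (t := {U ∈ 𝓤 n | x ∉ U}) (fun k hk => ⟨h2 n k, hk⟩)
      (Subtype.val_injective.comp ((h1 n).2.1.natEmbedding _).injective).injOn ((h1 n).2.2 x)
  exact ⟨fun n => O n (k n), fun n => h2 _ _, ga_range (fun n => (h1 n).1.1 _ (h2 _ _))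
    (fun n e => (h1 n).1.2.2 (e ▸ h2 _ _)) fun x => hk x trivial⟩

theorem sg_hur [SecondCountableTopology Z] (h : SG (univ : Set Z)) (𝓤 : ℕ → Set (Set Z))
    (h1 : ∀ n, (∀ V ∈ 𝓤 n, IsOpen V) ∧ ⋃₀ 𝓤 n = univ) :
    ∃ F : ℕ → Finset (Set Z), (∀ n, (F n : Set (Set Z)) ⊆ 𝓤 n) ∧
      ∀ x, ∀ᶠ n in atTop, x ∈ ⋃₀ (F n : Set (Set Z)) := by
  choose T h2 h3 h4 using fun n => TopologicalSpace.isOpen_sUnion_countable _ (h1 n).1
  choose e he using fun n => countable_iff_exists_injOn.1 (h2 n)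
  have h5 : ∀ n k, {W ∈ T n | e n W < k}.Finite := fun n k =>
    Finite.of_injOn (f := e n) (fun _ h => h.2) ((he n).mono fun _ h => h.1) (finite_lt_nat k)
  obtain ⟨k, hk⟩ := h (fun n k => ⋃₀ {W ∈ T n | e n W < k})
    (fun n k => isOpen_sUnion fun W hW => (h1 n).1 W (h3 n hW.1)) fun n x _ => by
      obtain ⟨W, h6, h7⟩ := ((h4 n).trans (h1 n).2 ▸ mem_univ x : x ∈ ⋃₀ T n)
      exact (eventually_gt_atTop (e n W)).mono fun k hk => ⟨W, ⟨h6, hk⟩, h7⟩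
  exact ⟨fun n => (h5 n (k n)).toFinset, fun n W hW => h3 n ((h5 n _).mem_toFinset.1 hW).1,
    fun x => by simpa only [Finite.coe_toFinset] using hk x trivial⟩

end Pool.Agent.Lib.helper32.Tau
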