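import Pool.Agent.Lib.helper32.Tau

set_option autoImplicit false

namespace Pool.Agent.Lib.helper32.Tau

open Filter Topology Set

variable {Z : Type*} [TopologicalSpace Z]

def IT (C : Set Z) (V : ℕ → Set Z) : Prop := (∀ x ∈ C, ∃ᶠ k in atTop, x ∈ V k) ∧
  ∀ x ∈ C, ∀ y ∈ C, (∀ᶠ k in atTop, x ∈ V k → y ∈ V k) ∨ ∀ᶠ k in atTop, y ∈ V k → x ∈ V k

def TG (C : Set Z) : Prop := ∀ V : ℕ → Set Z, (∀ k, IsOpen (V k)) → IT C V →
  ∃ φ : ℕ → ℕ, Tendsto φ atTop atTop ∧ ∀ x ∈ C, ∀ᶠ j in atTop, x ∈ V (φ j)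

omit [TopologicalSpace Z] in
theorem it_om {C : Set Z} {V : ℕ → Set Z} (h : IT C V) {F : Set Z} (hF : F.Finite) (h1 : F ⊆ C) :
    ∃ᶠ k in atTop, F ⊆ V k := by
  have h2 : F = ∅ ∨ ∃ z ∈ C, ∀ᶠ k in atTop, z ∈ V k → F ⊆ V k := by
    induction F, hF using Finite.induction_on with
    | empty => exact Or.inl rfl
    | @insert a s _ _ ih =>
      have ha : a ∈ C := h1 (mem_insert _ _)
      rcases ih ((subset_insert _ _).trans h1) with rfl | ⟨z, h2, h3⟩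
      · exact Or.inr ⟨a, ha, .of_forall fun k hk => by simpa using hk⟩
      · rcases h.2 a ha z h2 with h4 | h4
        · exact Or.inr ⟨a, ha, (h3.and h4).mono fun k hk h5 => insert_subset h5 (hk.1 (hk.2 h5))⟩
        · exact Or.inr ⟨z, h2, (h3.and h4).mono fun k hk h5 => insert_subset (hk.2 h5) (hk.1 h5)⟩
  rcases h2 with rfl | ⟨z, h3, h4⟩
  · exact .of_forall fun _ => empty_subset _
  · exact ((h.1 z h3).and_eventually h4).mono fun k hk => hk.2 hk.1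

theorem tg_bad {C : Set Z} (hC : IsClosed C) (h : ¬ TG C) :
    Bad (fun 𝓤 => Ta 𝓤 ∧ Om 𝓤) C := by
  simp only [TG, not_forall] at h
  obtain ⟨V, h1, h2, h3⟩ := h
  have h4 : ∀ᶠ k in atTop, ¬ C ⊆ V k := not_frequently.1 fun h4 => by
    obtain ⟨φ, h5, h6⟩ := extraction_of_frequently_atTop h4
    exact h3 ⟨φ, h5.tendsto_atTop, fun x hx => .of_forall fun j => h6 j hx⟩
  let 𝓐 : Set (Set Z) := (fun k => V k ∪ Cᶜ) '' {k | ¬ C ⊆ V k}
  have h5 : ∀ k, C ⊆ V k ∪ Cᶜ → C ⊆ V k := fun k h5 x hx => (h5 hx).resolve_right (not_not.2 hx)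
  have h6 : ∀ 𝓕 : Set (Set Z), 𝓕.Finite → ∀ G : Set Z, G.Finite → ∃ W ∈ 𝓐 \ 𝓕, G ⊆ W :=
    fun 𝓕 h6 G h7 => by
      have h8 : ∀ W : {W | W ∈ 𝓕 ∧ ¬ C ⊆ W}, ∃ z ∈ C, z ∉ W.1 := fun W => not_subset.1 W.2.2
      choose z h8 h9 using h8
      have : Finite {W | W ∈ 𝓕 ∧ ¬ C ⊆ W} := (h6.subset fun _ h => h.1).to_subtype
      obtain ⟨k, c1, c2⟩ := ((it_om h2 ((finite_range z).union (h7.inter_of_left C))
        (union_subset (range_subset_iff.2 h8) inter_subset_right)).and_eventually h4).exists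
      refine ⟨_, ⟨⟨k, c2, rfl⟩, fun c3 => ?_⟩, fun x hx => ?_⟩
      · exact h9 ⟨_, c3, fun c4 => c2 (h5 k c4)⟩ (Or.inl (c1 (Or.inl ⟨_, rfl⟩)))
      · exact (em (x ∈ C)).imp (fun c3 => c1 (Or.inr ⟨hx, c3⟩)) id
  refine ⟨fun _ => 𝓐, fun _ => (to_countable _).image _, fun _ 𝓕 h7 => ?_, ?_,
    fun U h7 => by_contra fun h8 => h3 ?_⟩
  · have h8 : ∀ x, {U ∈ 𝓐 \ 𝓕 | x ∈ U}.Infinite := fun x h8 => by
      obtain ⟨W, c1, c2⟩ := h6 _ (h7.union h8) _ (finite_singleton x)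
      exact c1.2 (Or.inr ⟨⟨c1.1, fun c3 => c1.2 (Or.inl c3)⟩, c2 rfl⟩)
    have h9 : Cover (𝓐 \ 𝓕) := ⟨by
      rintro _ ⟨⟨k, -, rfl⟩, -⟩
      exact (h1 k).union hC.isOpen_compl, cov_of_large h8, by
      rintro ⟨⟨k, c1, c2⟩, -⟩
      exact c1 (h5 k (by rw [show V k ∪ Cᶜ = univ from c2]; exact subset_univ _))⟩
    have h10 : ∀ x y, (y ∈ C → ∀ᶠ k in atTop, x ∈ V k ∪ Cᶜ → y ∈ V k) →
        {U ∈ 𝓐 \ 𝓕 | x ∈ U ∧ y ∉ U}.Finite := fun x y c1 => by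
      by_cases hy : y ∈ C
      · have c2 := c1 hy
        rw [← Nat.cofinite_eq_atTop, eventually_cofinite] at c2
        refine (c2.image fun k => V k ∪ Cᶜ).subset ?_
        rintro _ ⟨⟨⟨k, -, rfl⟩, -⟩, c3, c4⟩
        exact ⟨k, fun c5 => c4 (Or.inl (c5 c3)), rfl⟩
      · refine finite_empty.subset ?_
        rintro _ ⟨⟨⟨k, -, rfl⟩, -⟩, -, c4⟩
        exact c4 (Or.inr hy)
    refine ⟨⟨h9, h8, fun x y => ?_⟩, h9, fun F => h6 _ h7 _ F.finite_toSet⟩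
    by_cases hx : x ∈ C
    · by_cases hy : y ∈ C
      · exact (h2.2 x hx y hy).imp
          (fun c1 => h10 x y fun _ => c1.mono fun k c2 c3 => c2 (c3.resolve_right (not_not.2 hx)))
          fun c1 => h10 y x fun _ => c1.mono fun k c2 c3 => c2 (c3.resolve_right (not_not.2 hy))
      · exact Or.inl (h10 x y fun c1 => absurd c1 hy)
    · exact Or.inr (h10 y x fun c1 => absurd c1 hx)
  · rintro n _ ⟨k, -, rfl⟩
    exact subset_union_right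
  · push Not at h8
    choose φ c1 c2 using h7
    have c3 : ∀ x ∈ C, ∀ᶠ j in atTop, x ∈ V (φ j) := fun x hx => (h8 x hx).mono fun j c3 =>
      (by rw [← c2 j] at c3; exact c3 : x ∈ V (φ j) ∪ Cᶜ).resolve_right (not_not.2 hx)
    refine ⟨φ, tendsto_atTop.2 fun m => ?_, c3⟩
    have c4 : ∀ k ∈ {k | k < m}, ∀ᶠ j in atTop, φ j ≠ k := fun k _ => by
      by_cases c4 : C ⊆ V k
      · exact .of_forall fun j e => c1 j (e ▸ c4)
      · obtain ⟨x, c5, c6⟩ := not_subset.1 c4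
        exact (c3 x c5).mono fun j c7 e => c6 (e ▸ c7)
    exact ((eventually_all_finite (finite_lt_nat m)).2 c4).mono fun j c5 =>
      not_lt.1 fun c6 => c5 _ c6 rfl

theorem tg_fin {C : Set Z} {V : ℕ → Set Z} (h : IT C V) {x : ℕ → Z} (hx : ∀ n, x n ∈ C) :
    ∃ φ : ℕ → ℕ, Tendsto φ atTop atTop ∧ ∀ n, ∀ᶠ j in atTop, x n ∈ V (φ j) := by
  choose φ h1 h2 using fun j => ((it_om h ((finite_lt_nat j).image x)
    (by rintro _ ⟨n, -, rfl⟩; exact hx n)).and_eventually (eventually_ge_atTop j)).exists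
  exact ⟨φ, tendsto_atTop_mono h2 tendsto_id,
    fun n => (eventually_gt_atTop n).mono fun j hj => h1 j ⟨n, hj, rfl⟩⟩

theorem tg_union {C : ℕ → Set Z} (h : ∀ n, TG (C n)) (h1 : ∀ x, ∃ n, x ∈ C n) :
    TG (univ : Set Z) := by
  intro V h2 h3
  by_cases h4 : ∃ n, ∀ x, ∃ z ∈ C n, ∀ᶠ k in atTop, z ∈ V k → x ∈ V k
  · obtain ⟨n, h4⟩ := h4
    obtain ⟨φ, h5, h6⟩ := h n V h2 ⟨fun x _ => h3.1 x trivial, fun x _ y _ => h3.2 x trivial y trivial⟩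
    refine ⟨φ, h5, fun x _ => ?_⟩
    obtain ⟨z, h7, h8⟩ := h4 x
    exact ((h6 z h7).and (h5.eventually h8)).mono fun j hj => hj.2 hj.1
  · simp only [not_exists, not_forall, not_and] at h4
    choose x h4 using h4
    obtain ⟨φ, h5, h6⟩ := tg_fin h3 (x := x) fun _ => trivial
    refine ⟨φ, h5, fun z _ => ?_⟩
    obtain ⟨n, hn⟩ := h1 z
    exact ((h6 n).and (h5.eventually ((h3.2 z trivial (x n) trivial).resolve_left
      (h4 n z hn)))).mono fun j hj => hj.2 hj.1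

theorem tg_of [T3Space Z] [SecondCountableTopology Z]
    (h : S1 (Z := Z) (fun 𝓤 => Ta 𝓤 ∧ Om 𝓤) Ta) : TG (univ : Set Z) := by
  obtain ⟨C, h1, h2⟩ := loc (P := TG (Z := Z)) (fun C D hC hD hd => by_contra fun h1 =>
    two h hd (tg_bad hC fun h2 => h1 (Or.inl h2)) (tg_bad hD fun h2 => h1 (Or.inr h2)))
    fun C hC V _ h2 => by
      obtain ⟨φ, h3, h4⟩ := extraction_of_frequently_atTop (it_om h2 hC.finite Subset.rfl)
      exact ⟨φ, h3.tendsto_atTop, fun x hx => .of_forall fun j => h4 j hx⟩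
  exact tg_union h1 h2

theorem ta_seq {f : ℕ → Set Z} (h : Ta (range f)) :
    ∃ e : ℕ → Set Z, (∀ k, e k ∈ range f) ∧ IT univ e := by
  obtain ⟨a, -⟩ := (ne_univ_iff_exists_notMem (f 0)).1 fun e => h.1.2.2 ⟨0, e⟩
  obtain ⟨_⟩ := countable_infinite_iff_nonempty_denumerable.1
    ⟨countable_range f, (h.2.1 a).mono fun _ h => h.1⟩
  let e : ℕ → Set Z := fun k => ((Denumerable.eqv (range f)).symm k).1
  have h1 : ∀ k, e k ∈ range f := fun k => ((Denumerable.eqv (range f)).symm k).2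
  have h2 : Function.Injective e := Subtype.val_injective.comp (Equiv.injective _)
  have h3 : ∀ x y, {U ∈ range f | x ∈ U ∧ y ∉ U}.Finite → ∀ᶠ k in atTop, x ∈ e k → y ∈ e k :=
    fun x y h3 => by
      rw [← Nat.cofinite_eq_atTop, eventually_cofinite]
      exact Finite.of_injOn (f := e) (t := {U ∈ range f | x ∈ U ∧ y ∉ U})
        (fun k hk => ⟨h1 k, Classical.not_imp.1 hk⟩) h2.injOn h3
  refine ⟨e, h1, fun x _ => ?_, fun x _ y _ => (h.2.2 x y).imp (h3 x y) (h3 y x)⟩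
  rw [← Nat.cofinite_eq_atTop, frequently_cofinite_iff_infinite]
  refine fun h4 => h.2.1 x ((h4.image e).subset fun U hU => ?_)
  exact ⟨Denumerable.eqv (range f) ⟨U, hU.1⟩, by simpa [e] using hU.2, by simp [e]⟩

theorem s1_seq [T3Space Z] [SecondCountableTopology Z] {A : Set (Set Z) → Prop}
    (hA : ∀ 𝓤, Ta 𝓤 → Om 𝓤 → A 𝓤) (h : S1 A Ta) (𝓤 : ℕ → Set (Set Z)) (h1 : ∀ n, A (𝓤 n)) :
    ∃ U : ℕ → Set Z, (∀ n, U n ∈ 𝓤 n ∧ IsOpen (U n) ∧ U n ≠ univ) ∧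
      ∀ x, ∀ᶠ n in atTop, x ∈ U n := by
  have h2 := tg_of (Z := Z) fun 𝓤 h2 => h 𝓤 fun n => hA _ (h2 n).1 (h2 n).2
  have h3 := sg_of (Z := Z) fun 𝓤 h2 => h 𝓤 fun n => hA _ (ga_ta (h2 n)) (ga_om (h2 n))
  have h4 : ∀ n, ∃ O : ℕ → Set Z, (∀ k, O k ∈ 𝓤 n ∧ IsOpen (O k) ∧ O k ≠ univ) ∧
      ∀ x, ∀ᶠ k in atTop, x ∈ O k := fun n => by
    obtain ⟨f, h4, h5⟩ := h _ fun _ => h1 n
    obtain ⟨e, h6, h7⟩ := ta_seq h5
    obtain ⟨φ, -, h8⟩ := h2 e (fun k => h5.1.1 _ (h6 k)) h7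
    exact ⟨fun j => e (φ j), fun j => ⟨range_subset_iff.2 h4 (h6 _), h5.1.1 _ (h6 _),
      fun c => h5.1.2.2 (c ▸ h6 _)⟩, fun x => h8 x trivial⟩
  choose O h4 h5 using h4
  obtain ⟨k, hk⟩ := h3 O (fun n k => (h4 n k).2.1) fun n x _ => h5 n x
  exact ⟨fun n => O n (k n), fun n => h4 _ _, fun x => hk x trivial⟩

theorem s1_ga [T3Space Z] [SecondCountableTopology Z] {A : Set (Set Z) → Prop}
    (hA : ∀ 𝓤, Ta 𝓤 → Om 𝓤 → A 𝓤) (h : S1 A Ta) : S1 A Ga := fun 𝓤 h1 =>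
  let ⟨U, h2, h3⟩ := s1_seq hA h 𝓤 h1
  ⟨U, fun n => (h2 n).1, ga_range (fun n => (h2 n).2.1) (fun n => (h2 n).2.2) h3⟩

end Pool.Agent.Lib.helper32.Tau
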