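import Pool.Agent.Lib.helper32.TowerCH

set_option autoImplicit false

namespace Pool.Agent.Lib.helper32.Hom

open Filter Set Cardinal

theorem towc (hCH : continuum.{0} = aleph 1) : ∃ X : Set (Set ℕ), (∀ A ∈ X, A.Infinite) ∧
    (∀ C ∈ X, {A ∈ X | ¬ ∀ᶠ n in atTop, n ∈ A → n ∈ C}.Countable) ∧
    (∀ g : ℕ → ℕ, ∃ A ∈ X, ∃ᶠ n in atTop, ∀ i ∈ A, i < n ∨ g n ≤ i) ∧
    ∀ O : ℕ → ℕ → Set ℕ → Prop, (∀ n m, Op (O n m)) → Om' O X →
      ∃ k m : ℕ → ℕ, StrictMono k ∧ StrictMono m ∧ (∀ A ∈ X, ∃ᶠ j in atTop, O (k j) (m j) A) ∧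
        ∀ A ∈ X, ∀ B ∈ X, (∀ᶠ j in atTop, O (k j) (m j) A → O (k j) (m j) B) ∨
          ∀ᶠ j in atTop, O (k j) (m j) B → O (k j) (m j) A := by
  obtain ⟨lo, _, ho⟩ := exists_ord_eq_type_lt Tk
  have hI : #Tk = aleph 1 := by rw [← hCH, Tk]; simp
  have h0 : ∀ j : Tk, (Iio j).Countable := fun j =>
    (countable_iff_lt_aleph_one _).2 (hI ▸ mk_Iio_lt j ho)
  obtain ⟨p, hp⟩ := NormalWL.rec_ex (T := Tk) (Y := Set ℕ × (ℕ → Finset ℕ))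
    (fun j f y => (∀ x ∈ f '' Iio j, Blk x.2) →
      (∀ x ∈ f '' Iio j, ∀ y ∈ f '' Iio j, Le x.2 y.2 ∨ Le y.2 x.2) → Stp j (f '' Iio j) y)
    (fun j f => by
      by_cases h1 : ∀ x ∈ f '' Iio j, Blk x.2
      · by_cases h2 : ∀ x ∈ f '' Iio j, ∀ y ∈ f '' Iio j, Le x.2 y.2 ∨ Le y.2 x.2
        · exact (stp j ((h0 j).image f) h1 h2).imp fun _ h _ _ => h
        · exact ⟨(∅, fun _ => ∅), fun _ h => absurd h h2⟩
      · exact ⟨(∅, fun _ => ∅), fun h => absurd h h1⟩)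
    fun j f g y e h => by rwa [← image_congr (s := Iio j) (f := f) (g := g) e]
  have h1 : ∀ j, Stp j (p '' Iio j) (p j) := fun j => by
    induction j using WellFoundedLT.induction with
    | ind j ih =>
      refine hp j (by rintro _ ⟨i, hi, rfl⟩; exact (ih i hi).1) ?_
      rintro _ ⟨i, hi, rfl⟩ _ ⟨l, hl, rfl⟩
      rcases lt_trichotomy i l with e | rfl | e
      · exact Or.inr ((ih l hl).2.1 _ ⟨i, e, rfl⟩).1
      · exact Or.inl (.of_forall fun n j hj => ⟨j, hj, Finset.Subset.refl _⟩)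
      · exact Or.inl ((ih i hi).2.1 _ ⟨l, e, rfl⟩).1
  have h2 : ∀ i j, i ≤ j → ∀ᶠ n in atTop, n ∈ (p j).1 → n ∈ (p i).1 := fun i j e =>
    e.eq_or_lt.elim (fun e => .of_forall fun _ h => e ▸ h) fun e =>
      (h1 i).2.2.2.1 _ ((h1 j).2.1 _ ⟨i, e, rfl⟩).2
  have h3 : ∀ A ∈ {B | ∃ j, Ev B (p j).1}, A.Infinite := fun A ⟨j, hj⟩ =>
    Nat.frequently_atTop_iff_infinite.1 (((Nat.frequently_atTop_iff_infinite.2
      (h1 j).2.2.1).and_eventually hj).mono fun n h => h.2.2 h.1)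
  have h4 : ∀ A ∈ {B | ∃ j, Ev B (p j).1}, ∀ B ∈ {B | ∃ j, Ev B (p j).1},
      (∀ᶠ n in atTop, n ∈ A → n ∈ B) ∨ ∀ᶠ n in atTop, n ∈ B → n ∈ A := by
    rintro A ⟨i, hi⟩ B ⟨j, hj⟩
    exact (le_total j i).imp
      (fun e => ((h2 _ _ e).and (hi.and hj)).mono fun n h c => h.2.2.2 (h.1 (h.2.1.1 c)))
      fun e => ((h2 _ _ e).and (hi.and hj)).mono fun n h c => h.2.1.2 (h.1 (h.2.2.1 c))
  have a9 : ∀ A, {B | Ev B A}.Countable := fun A =>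
    (countable_range fun s => sd s A).mono fun B hB => (ev_sd hB).imp fun _ e => e.symm
  have a10 : ∀ C ∈ {B | ∃ j, Ev B (p j).1}, {A ∈ {B | ∃ j, Ev B (p j).1} |
      ¬ ∀ᶠ n in atTop, n ∈ A → n ∈ C}.Countable := by
    rintro C ⟨j, hj⟩
    refine ((h0 j).biUnion fun i _ => a9 (p i).1).mono ?_
    rintro A ⟨⟨i, hi⟩, c⟩
    have c1 : i < j := not_le.1 fun e => c
      (((h2 _ _ e).and (hi.and hj)).mono fun n h c => h.2.2.2 (h.1 (h.2.1.1 c)))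
    exact mem_iUnion₂.2 ⟨i, c1, hi⟩
  refine ⟨{B | ∃ j, Ev B (p j).1}, h3, a10,
    fun g => ⟨(p (fun _ _ => ∅, g)).1,
      ⟨_, .of_forall fun _ => Iff.rfl⟩, (h1 _).2.2.2.2.1⟩, fun O a1 a2 => ?_⟩
  choose τ hτ using fun n m => wc_rep (a1 n m)
  obtain rfl : (fun n m => Wc (τ n m)) = O := funext₂ hτ
  let j : Tk := (τ, id)
  obtain ⟨k, m, b1, b2, b3, b4⟩ := (h1 j).2.2.2.2.2 fun n F c1 c2 => a2 n F c1 (c2.trans (by
    rintro B ⟨_, rfl | ⟨i, -, rfl⟩, c3⟩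
    exacts [⟨j, c3⟩, ⟨i, c3⟩]))
  have b5 : ∀ A ∈ {B | ∃ j, Ev B (p j).1}, (∀ᶠ l in atTop, Wc (τ (k l) (m l)) A) ∨
      (∃ᶠ i in atTop, ((p j).2 i : Set ℕ) ⊆ A) ∧
        ∀ᶠ l in atTop, Wc (τ (k l) (m l)) A ↔ ((p j).2 (l / 2) : Set ℕ) ⊆ A := by
    rintro A ⟨i, hi⟩
    rcases lt_trichotomy i j with e | rfl | e
    · exact Or.inl (b3 A ⟨_, Or.inr ⟨i, e, rfl⟩, hi⟩)
    · exact Or.inl (b3 A ⟨_, Or.inl rfl, hi⟩)
    · have c1 := ((h1 i).2.1 _ ⟨j, e, rfl⟩).2.ev (h1 j).1 hi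
      exact (b4 A (h3 A ⟨i, hi⟩) c1).imp id fun c2 => ⟨sat_freq (h3 A ⟨i, hi⟩) c1, c2⟩
  have t1 : Tendsto (fun n : ℕ => 2 * n) atTop atTop :=
    tendsto_atTop_mono (fun n => by simp only [id]; omega) tendsto_id
  have t3 : Tendsto (fun n : ℕ => n / 2) atTop atTop := Nat.tendsto_div_const_atTop two_ne_zero
  refine ⟨k, m, b1, b2, fun A hA => ?_, fun A hA B hB => ?_⟩
  · rcases b5 A hA with c | ⟨c1, c2⟩
    · exact c.frequently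
    · exact t1.frequently ((c1.and_eventually (t1.eventually c2)).mono fun i h =>
        h.2.2 (by rw [show 2 * i / 2 = i by omega]; exact h.1))
  · rcases b5 B hB with c | ⟨-, c1⟩
    · exact Or.inl (c.mono fun _ h _ => h)
    rcases b5 A hA with c | ⟨-, c2⟩
    · exact Or.inr (c.mono fun _ h _ => h)
    exact (h4 A hA B hB).imp
      (fun e => ((t3.eventually (ev_blk (p := fun n => n ∈ A → n ∈ B) (h1 j).1 e)).and (c1.and c2)).mono fun l h c =>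
        h.2.1.2 fun n hn => h.1 n hn (h.2.2.1 c hn))
      fun e => ((t3.eventually (ev_blk (p := fun n => n ∈ B → n ∈ A) (h1 j).1 e)).and (c1.and c2)).mono fun l h c =>
        h.2.2.2 fun n hn => h.1 n hn (h.2.1.1 c hn)

end Pool.Agent.Lib.helper32.Hom
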