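import Pool.Agent.Lib.helper32.Stage
import Pool.Agent.Lib.helper32.NormalWL

set_option autoImplicit false

namespace Pool.Agent.Lib.helper32.Hom

open Filter Set Cardinal

variable {G : ℕ → Finset ℕ}

theorem gap (hG : Blk G) (g : ℕ → ℕ) :
    ∃ G', Blk G' ∧ Le G' G ∧ ∃ᶠ n in atTop, ∀ i ∈ un G' univ, i < n ∨ g n ≤ i := by
  choose f hf using fun b => (ev_blk hG ((eventually_ge_atTop b).and
    (eventually_ge_atTop (g b)))).exists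
  let β : ℕ → ℕ := fun j => j.rec 0 fun _ b => (G (f b)).sup id + 1
  have h5 : ∀ j, ∀ i ∈ G (f (β j)), β j ≤ i ∧ i < β (j + 1) := fun j i hi =>
    ⟨(hf _ i hi).1, Nat.lt_succ_of_le (Finset.le_sup (f := id) hi)⟩
  have h4 : StrictMono β := strictMono_nat_of_lt_succ fun j =>
    let ⟨i, hi⟩ := hG.1 (f (β j)); (h5 j i hi).1.trans_lt (h5 j i hi).2
  refine ⟨fun j => G (f (β j)), ⟨fun j => hG.1 _, fun i j n hi hj => ?_⟩,
    .of_forall fun n j hj => ⟨_, hj, Finset.Subset.refl _⟩, frequently_atTop.2 fun j =>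
      ⟨β j, h4.id_le j, fun i hi => ?_⟩⟩
  · have a1 : i < j + 1 := h4.lt_iff_lt.1 ((h5 i n hi).1.trans_lt (h5 j n hj).2)
    have a2 : j < i + 1 := h4.lt_iff_lt.1 ((h5 j n hj).1.trans_lt (h5 i n hi).2)
    omega
  · obtain ⟨l, -, hl⟩ := mem_un.1 hi
    rcases lt_trichotomy l j with e | rfl | e
    · exact Or.inl ((h5 l i hl).2.trans_le (h4.monotone e))
    · exact Or.inr (hf _ i hl).2
    · obtain ⟨x, hx⟩ := hG.1 (f (β j))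
      exact Or.inr ((hf _ x hx).2.trans ((h5 j x hx).2.le.trans
        ((h4.monotone e).trans (h5 l i hl).1)))

theorem sat_freq {A : Set ℕ} (h1 : A.Infinite) (h2 : Sat G A) :
    ∃ᶠ i in atTop, (G i : Set ℕ) ⊆ A := Nat.frequently_atTop_iff_infinite.2 fun a4 => by
  obtain ⟨n, c1, c2, c3⟩ := ((Nat.frequently_atTop_iff_infinite.2 h1).and_eventually (h2.and
    (ev_notMem (a4.toFinset.biUnion G)))).exists
  obtain ⟨i, c4, c5⟩ := c2 c1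
  exact c3 (Finset.mem_biUnion.2 ⟨i, a4.mem_toFinset.2 c5, c4⟩)

def Wc (τ : Set (ℕ × Finset ℕ)) (M : Set ℕ) : Prop := ∃ p ∈ τ, ∀ i < p.1, i ∈ M ↔ i ∈ p.2

theorem op_wc (τ : Set (ℕ × Finset ℕ)) : Op (Wc τ) := fun _ ⟨p, h1, h2⟩ =>
  ⟨p.1, fun _ hL => ⟨p, h1, fun i hi => (hL i hi).trans (h2 i hi)⟩⟩

theorem wc_rep {P : Set ℕ → Prop} (h : Op P) : ∃ τ, Wc τ = P := by
  classical
  refine ⟨{p | ∀ L : Set ℕ, (∀ i < p.1, i ∈ L ↔ i ∈ p.2) → P L}, funext fun M => propext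
    ⟨fun ⟨p, h1, h2⟩ => h1 M h2, fun hM => ?_⟩⟩
  obtain ⟨c, hc⟩ := h M hM
  have h1 : ∀ i < c, i ∈ M ↔ i ∈ (Finset.range c).filter (· ∈ M) := fun i hi => by simp [hi]
  exact ⟨(c, (Finset.range c).filter (· ∈ M)),
    fun L hL => hc L fun i hi => (hL i hi).trans (h1 i hi).symm, h1⟩

def Tk : Type := (ℕ → ℕ → Set (ℕ × Finset ℕ)) × (ℕ → ℕ)

def Om' (O : ℕ → ℕ → Set ℕ → Prop) (Y : Set (Set ℕ)) : Prop :=
  ∀ n, ∀ F : Set (Set ℕ), F.Finite → F ⊆ Y → ∃ᶠ m in atTop, ∀ A ∈ F, O n m A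

def Stp (t : Tk) (S : Set (Set ℕ × (ℕ → Finset ℕ))) (y : Set ℕ × (ℕ → Finset ℕ)) : Prop :=
  Blk y.2 ∧ (∀ x ∈ S, Le y.2 x.2 ∧ Sat x.2 y.1) ∧ y.1.Infinite ∧
    (∀ B, Sat y.2 B → ∀ᶠ n in atTop, n ∈ B → n ∈ y.1) ∧
    (∃ᶠ n in atTop, ∀ i ∈ y.1, i < n ∨ t.2 n ≤ i) ∧
    (Om' (fun n m => Wc (t.1 n m)) {B | ∃ x ∈ insert y S, Ev B x.1} →
      Good (fun n m => Wc (t.1 n m)) {B | ∃ x ∈ insert y S, Ev B x.1} y.2)

theorem stp (t : Tk) {S : Set (Set ℕ × (ℕ → Finset ℕ))} (h1 : S.Countable)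
    (h2 : ∀ x ∈ S, Blk x.2) (h3 : ∀ x ∈ S, ∀ y ∈ S, Le x.2 y.2 ∨ Le y.2 x.2) :
    ∃ y, Stp t S y := by
  have a0 : ∀ G, Le G fun i => {i} := fun G => .of_forall fun n j hj =>
    ⟨n, Finset.mem_singleton_self n, Finset.singleton_subset_iff.2 hj⟩
  obtain ⟨𝓖, a1⟩ := ((h1.image Prod.snd).insert fun i => {i}).exists_eq_range (insert_nonempty _ _)
  have a2 : ∀ l, 𝓖 l = (fun i => {i}) ∨ ∃ x ∈ S, x.2 = 𝓖 l := fun l =>
    (a1 ▸ ⟨l, rfl⟩ : 𝓖 l ∈ insert (fun i => ({i} : Finset ℕ)) (Prod.snd '' S))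
  obtain ⟨G0, a3, a4⟩ := low 𝓖 (fun l => by
    rcases a2 l with e | ⟨x, hx, e⟩
    · exact e ▸ ⟨fun _ => Finset.singleton_nonempty _, fun i j n hi hj =>
        (Finset.mem_singleton.1 hi).symm.trans (Finset.mem_singleton.1 hj)⟩
    · exact e ▸ h2 x hx) fun l m _ => by
    rcases a2 l with e | ⟨x, hx, e⟩
    · exact Or.inr (e ▸ a0 _)
    · rcases a2 m with e' | ⟨y, hy, e'⟩
      · exact Or.inl (e' ▸ a0 _)
      · exact e ▸ e' ▸ h3 x hx y hy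
  obtain ⟨G1, a5, a6, a7⟩ := gap a3 t.2
  have a8 : ∀ x ∈ S, Le G1 x.2 := fun x hx => by
    obtain ⟨l, hl⟩ := (a1 ▸ mem_insert_of_mem _ ⟨x, hx, rfl⟩ : x.2 ∈ range 𝓖)
    exact a6.trans (hl ▸ a4 l)
  let Y : Set (Set ℕ) := {B | Ev B (un G1 univ) ∨ ∃ x ∈ S, Ev B x.1}
  have a9 : ∀ A, {B | Ev B A}.Countable := fun A =>
    (countable_range fun s => sd s A).mono fun B hB => (ev_sd hB).imp fun _ e => e.symm
  have a10 : Y.Countable := ((a9 _).union (h1.biUnion fun x _ => a9 x.1)).mono fun B hB =>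
    hB.imp id fun ⟨x, b1, b2⟩ => mem_biUnion b1 b2
  obtain ⟨G2, b1, b2, b3⟩ : ∃ G2, Blk G2 ∧ Le G2 G1 ∧
      (Om' (fun n m => Wc (t.1 n m)) Y → Good (fun n m => Wc (t.1 n m)) Y G2) := by
    by_cases h : Om' (fun n m => Wc (t.1 n m)) Y
    · obtain ⟨G2, b1, b2, b3⟩ := stage a5 (fun n m => op_wc _) a10 (fun B hB => Or.inl hB) h
      exact ⟨G2, b1, b2, fun _ => b3⟩
    · exact ⟨G1, a5, .of_forall fun n j hj => ⟨j, hj, Finset.Subset.refl _⟩, fun e => absurd e h⟩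
  refine ⟨(un G1 univ, G2), b1, fun x hx => ⟨b2.trans (a8 x hx), (sat_un _).le (a8 x hx)⟩,
    un_inf a5 infinite_univ, fun B hB => (hB.le b2).mono fun n hn e =>
      let ⟨i, c, _⟩ := hn e; mem_un.2 ⟨i, trivial, c⟩, a7, ?_⟩
  simpa only [mem_insert_iff, exists_eq_or_imp] using b3

theorem tower (hCH : continuum.{0} = aleph 1) : ∃ X : Set (Set ℕ),
    (∀ A ∈ X, ∀ B, Ev B A → B ∈ X) ∧ (∀ A ∈ X, A.Infinite) ∧
    (∀ A ∈ X, ∀ B ∈ X, (∀ᶠ n in atTop, n ∈ A → n ∈ B) ∨ ∀ᶠ n in atTop, n ∈ B → n ∈ A) ∧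
    (∀ g : ℕ → ℕ, ∃ A ∈ X, ∃ᶠ n in atTop, ∀ i ∈ A, i < n ∨ g n ≤ i) ∧
    ∀ O : ℕ → ℕ → Set ℕ → Prop, (∀ n m, Op (O n m)) → Om' O X →
      ∃ k m : ℕ → ℕ, StrictMono k ∧ StrictMono m ∧
        (∀ A ∈ X, ∃ᶠ i in atTop, O (k (2 * i)) (m (2 * i)) A ∧
          O (k (2 * i + 1)) (m (2 * i + 1)) A) ∧
        ∀ A ∈ X, ∀ B ∈ X, (∀ᶠ j in atTop, O (k j) (m j) A → O (k j) (m j) B) ∨
          ∀ᶠ j in atTop, O (k j) (m j) B → O (k j) (m j) A := by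
  obtain ⟨lo, _, ho⟩ := exists_ord_eq_type_lt Tk
  have hI : #Tk = aleph 1 := by rw [← hCH, Tk]; simp
  have h0 : ∀ j : Tk, (Iio j).Countable := fun j =>
    (countable_iff_lt_aleph_one _).2 (hI ▸ mk_Iio_lt j ho)
  obtain ⟨p, hp⟩ := NormalWL.rec_ex (T := Tk) (Y := Set ℕ × (ℕ → Finset ℕ))
    (fun j f y => (∀ x ∈ f '' Iio j, Blk x.2) →
      (∀ x ∈ f '' Iio j, ∀ y ∈ f '' Iio j, Le x.2 y.2 ∨ Le y.2 x.2) → Stp j (f '' Iio j) y)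
    (fun j f => by
      by_cases h1 : ∀ x ∈ f '' Iio j, Blk x.2
      · by_cases h2 : ∀ x ∈ f '' Iio j, ∀ y ∈ f '' Iio j, Le x.2 y.2 ∨ Le y.2 x.2
        · exact (stp j ((h0 j).image f) h1 h2).imp fun _ h _ _ => h
        · exact ⟨(∅, fun _ => ∅), fun _ h => absurd h h2⟩
      · exact ⟨(∅, fun _ => ∅), fun h => absurd h h1⟩)
    fun j f g y e h => by rwa [← image_congr (s := Iio j) (f := f) (g := g) e]
  have h1 : ∀ j, Stp j (p '' Iio j) (p j) := fun j => by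
    induction j using WellFoundedLT.induction with
    | ind j ih =>
      refine hp j (by rintro _ ⟨i, hi, rfl⟩; exact (ih i hi).1) ?_
      rintro _ ⟨i, hi, rfl⟩ _ ⟨l, hl, rfl⟩
      rcases lt_trichotomy i l with e | rfl | e
      · exact Or.inr ((ih l hl).2.1 _ ⟨i, e, rfl⟩).1
      · exact Or.inl (.of_forall fun n j hj => ⟨j, hj, Finset.Subset.refl _⟩)
      · exact Or.inl ((ih i hi).2.1 _ ⟨l, e, rfl⟩).1
  have h2 : ∀ i j, i ≤ j → ∀ᶠ n in atTop, n ∈ (p j).1 → n ∈ (p i).1 := fun i j e =>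
    e.eq_or_lt.elim (fun e => .of_forall fun _ h => e ▸ h) fun e =>
      (h1 i).2.2.2.1 _ ((h1 j).2.1 _ ⟨i, e, rfl⟩).2
  have h3 : ∀ A ∈ {B | ∃ j, Ev B (p j).1}, A.Infinite := fun A ⟨j, hj⟩ =>
    Nat.frequently_atTop_iff_infinite.1 (((Nat.frequently_atTop_iff_infinite.2
      (h1 j).2.2.1).and_eventually hj).mono fun n h => h.2.2 h.1)
  have h4 : ∀ A ∈ {B | ∃ j, Ev B (p j).1}, ∀ B ∈ {B | ∃ j, Ev B (p j).1},
      (∀ᶠ n in atTop, n ∈ A → n ∈ B) ∨ ∀ᶠ n in atTop, n ∈ B → n ∈ A := by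
    rintro A ⟨i, hi⟩ B ⟨j, hj⟩
    exact (le_total j i).imp
      (fun e => ((h2 _ _ e).and (hi.and hj)).mono fun n h c => h.2.2.2 (h.1 (h.2.1.1 c)))
      fun e => ((h2 _ _ e).and (hi.and hj)).mono fun n h c => h.2.1.2 (h.1 (h.2.2.1 c))
  refine ⟨{B | ∃ j, Ev B (p j).1}, fun A ⟨j, hj⟩ B hB => ⟨j, (hB.and hj).mono fun n h =>
    h.1.trans h.2⟩, h3, h4, fun g => ⟨(p (fun _ _ => ∅, g)).1,
      ⟨_, .of_forall fun _ => Iff.rfl⟩, (h1 _).2.2.2.2.1⟩, fun O a1 a2 => ?_⟩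
  choose τ hτ using fun n m => wc_rep (a1 n m)
  obtain rfl : (fun n m => Wc (τ n m)) = O := funext₂ hτ
  let j : Tk := (τ, id)
  obtain ⟨k, m, b1, b2, b3, b4⟩ := (h1 j).2.2.2.2.2 fun n F c1 c2 => a2 n F c1 (c2.trans (by
    rintro B ⟨_, rfl | ⟨i, -, rfl⟩, c3⟩
    exacts [⟨j, c3⟩, ⟨i, c3⟩]))
  have b5 : ∀ A ∈ {B | ∃ j, Ev B (p j).1}, (∀ᶠ l in atTop, Wc (τ (k l) (m l)) A) ∨
      (∃ᶠ i in atTop, ((p j).2 i : Set ℕ) ⊆ A) ∧
        ∀ᶠ l in atTop, Wc (τ (k l) (m l)) A ↔ ((p j).2 (l / 2) : Set ℕ) ⊆ A := by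
    rintro A ⟨i, hi⟩
    rcases lt_trichotomy i j with e | rfl | e
    · exact Or.inl (b3 A ⟨_, Or.inr ⟨i, e, rfl⟩, hi⟩)
    · exact Or.inl (b3 A ⟨_, Or.inl rfl, hi⟩)
    · have c1 := ((h1 i).2.1 _ ⟨j, e, rfl⟩).2.ev (h1 j).1 hi
      exact (b4 A (h3 A ⟨i, hi⟩) c1).imp id fun c2 => ⟨sat_freq (h3 A ⟨i, hi⟩) c1, c2⟩
  have t1 : Tendsto (fun n : ℕ => 2 * n) atTop atTop :=
    tendsto_atTop_mono (fun n => by simp only [id]; omega) tendsto_id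
  have t2 : Tendsto (fun n : ℕ => 2 * n + 1) atTop atTop :=
    tendsto_atTop_mono (fun n => by simp only [id]; omega) tendsto_id
  have t3 : Tendsto (fun n : ℕ => n / 2) atTop atTop := Nat.tendsto_div_const_atTop two_ne_zero
  refine ⟨k, m, b1, b2, fun A hA => ?_, fun A hA B hB => ?_⟩
  · rcases b5 A hA with c | ⟨c1, c2⟩
    · exact ((t1.eventually c).and (t2.eventually c)).frequently
    · exact (c1.and_eventually ((t1.eventually c2).and (t2.eventually c2))).mono fun i h =>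
        ⟨h.2.1.2 (by rw [show 2 * i / 2 = i by omega]; exact h.1),
          h.2.2.2 (by rw [show (2 * i + 1) / 2 = i by omega]; exact h.1)⟩
  · rcases b5 B hB with c | ⟨-, c1⟩
    · exact Or.inl (c.mono fun _ h _ => h)
    rcases b5 A hA with c | ⟨-, c2⟩
    · exact Or.inr (c.mono fun _ h _ => h)
    exact (h4 A hA B hB).imp
      (fun e => ((t3.eventually (ev_blk (p := fun n => n ∈ A → n ∈ B) (h1 j).1 e)).and (c1.and c2)).mono fun l h c =>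
        h.2.1.2 fun n hn => h.1 n hn (h.2.2.1 c hn))
      fun e => ((t3.eventually (ev_blk (p := fun n => n ∈ B → n ∈ A) (h1 j).1 e)).and (c1.and c2)).mono fun l h c =>
        h.2.2.2 fun n hn => h.1 n hn (h.2.1.1 c hn)

end Pool.Agent.Lib.helper32.Hom
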