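import Pool.Agent.Lib.helper32.TowerCH
import Pool.Agent.Lib.helper32.Tau2

set_option autoImplicit false

namespace Pool.Agent.Lib.helper32.Tau

open Filter Topology Set Hom

variable {Z : Type*} [TopologicalSpace Z]

def Sfin (A B : Set (Set Z) → Prop) : Prop := ∀ 𝓤 : ℕ → Set (Set Z), (∀ n, A (𝓤 n)) →
  ∃ 𝓕 : ℕ → Set (Set Z), (∀ n, (𝓕 n).Finite ∧ 𝓕 n ⊆ 𝓤 n) ∧ B (⋃ n, 𝓕 n)

def Split (A B : Set (Set Z) → Prop) : Prop := ∀ 𝓤, A 𝓤 → ∃ 𝓥 𝓦, Disjoint 𝓥 𝓦 ∧ 𝓥 ∪ 𝓦 = 𝓤 ∧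
  (∃ 𝓥' ⊆ 𝓥, B 𝓥') ∧ ∃ 𝓦' ⊆ 𝓦, B 𝓦'

omit [TopologicalSpace Z] in
theorem avoid {𝓤 𝓕 : Set (Set Z)} (h1 : univ ∉ 𝓤) (h2 : ∀ F : Set Z, F.Finite → ∃ U ∈ 𝓤, F ⊆ U)
    (h3 : 𝓕.Finite) {G : Set Z} (h4 : G.Finite) : ∃ U ∈ 𝓤 \ 𝓕, G ⊆ U := by
  have h8 : ∀ W : {W | W ∈ 𝓕 ∧ W ≠ univ}, ∃ z, z ∉ W.1 := fun W =>
    (ne_univ_iff_exists_notMem _).1 W.2.2
  choose z h8 using h8
  have : Finite {W | W ∈ 𝓕 ∧ W ≠ univ} := (h3.subset fun _ h => h.1).to_subtype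
  obtain ⟨U, c1, c2⟩ := h2 _ ((finite_range z).union h4)
  exact ⟨U, ⟨c1, fun c3 => h8 ⟨U, c3, fun c4 => h1 (c4 ▸ c1)⟩ (c2 (Or.inl ⟨_, rfl⟩))⟩,
    subset_union_right.trans c2⟩

theorem it_ta {V : ℕ → Set Z} (h1 : ∀ k, IsOpen (V k)) (h2 : ∀ k, V k ≠ univ) (h : IT univ V) :
    Ta (range V) ∧ Om (range V) := by
  have h3 : univ ∉ range V := fun ⟨k, hk⟩ => h2 k hk
  have h4 : ∀ F : Set Z, F.Finite → ∃ U ∈ range V, F ⊆ U := fun F hF =>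
    let ⟨k, hk⟩ := (it_om h hF (subset_univ _)).exists; ⟨_, ⟨k, rfl⟩, hk⟩
  have h5 : ∀ x, {U ∈ range V | x ∈ U}.Infinite := fun x h5 =>
    let ⟨_, c1, c2⟩ := avoid h3 h4 h5 (finite_singleton x); c1.2 ⟨c1.1, c2 rfl⟩
  have h6 : Cover (range V) := ⟨by rintro _ ⟨k, rfl⟩; exact h1 k, cov_of_large h5, h3⟩
  have h7 : ∀ x y, (∀ᶠ k in atTop, x ∈ V k → y ∈ V k) →
      {U ∈ range V | x ∈ U ∧ y ∉ U}.Finite := fun x y c2 => by
    rw [← Nat.cofinite_eq_atTop, eventually_cofinite] at c2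
    refine (c2.image V).subset ?_
    rintro _ ⟨⟨k, rfl⟩, c3, c4⟩
    exact ⟨k, fun c5 => c4 (c5 c3), rfl⟩
  exact ⟨⟨h6, h5, fun x y => (h.2 x trivial y trivial).imp (h7 x y) (h7 y x)⟩, h6,
    fun F => h4 _ F.finite_toSet⟩

theorem om_seq [SecondCountableTopology Z] {𝓤 : Set (Set Z)} (h : Om 𝓤) :
    ∃ U : ℕ → Set Z, Function.Injective U ∧ (∀ m, U m ∈ 𝓤) ∧
      ∀ F : Set Z, F.Finite → ∃ᶠ m in atTop, F ⊆ U m := by
  choose T h1 h2 using fun k => TopologicalSpace.isOpen_iUnion_countable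
    (fun U : 𝓤 => Set.pi univ fun _ : Fin k => U.1)
    fun U => isOpen_set_pi finite_univ fun _ _ => h.1.1 _ U.2
  let 𝓥 : Set (Set Z) := Subtype.val '' ⋃ k, T k
  have h3 : 𝓥 ⊆ 𝓤 := by rintro _ ⟨U, -, rfl⟩; exact U.2
  have h4 : ∀ F : Set Z, F.Finite → ∃ U ∈ 𝓥, F ⊆ U := fun F hF => by
    obtain ⟨U, c1, c2⟩ := h.2 hF.toFinset
    obtain ⟨k, q, -, rfl⟩ := hF.fin_param
    obtain ⟨W, c3, c4⟩ := mem_iUnion₂.1 ((h2 k).symm ▸ mem_iUnion.2 ⟨⟨U, c1⟩, fun i _ =>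
      c2 (by simp)⟩ : q ∈ ⋃ U ∈ T k, Set.pi univ fun _ : Fin k => U.1)
    exact ⟨W, ⟨W, mem_iUnion.2 ⟨k, c3⟩, rfl⟩, range_subset_iff.2 fun i => c4 i trivial⟩
  have h5 : univ ∉ 𝓥 := fun c => h.1.2.2 (h3 c)
  obtain ⟨_⟩ := countable_infinite_iff_nonempty_denumerable.1
    ⟨((countable_iUnion h1).image _ : 𝓥.Countable), fun c =>
      let ⟨_, c1, _⟩ := avoid h5 h4 c finite_empty; c1.2 c1.1⟩
  let e : ℕ → Set Z := fun k => ((Denumerable.eqv 𝓥).symm k).1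
  refine ⟨e, Subtype.val_injective.comp (Equiv.injective _),
    fun k => h3 ((Denumerable.eqv 𝓥).symm k).2, fun F hF =>
      Nat.frequently_atTop_iff_infinite.2 fun c => ?_⟩
  obtain ⟨U, c1, c2⟩ := avoid h5 h4 (c.image e) hF
  exact c1.2 ⟨Denumerable.eqv 𝓥 ⟨U, c1.1⟩, by simpa [e] using c2, by simp [e]⟩

def Core (Z : Type*) [TopologicalSpace Z] : Prop :=
  ∀ U : ℕ → ℕ → Set Z, (∀ n m, IsOpen (U n m)) →
    (∀ n, ∀ F : Set Z, F.Finite → ∃ᶠ m in atTop, F ⊆ U n m) →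
      ∃ k m : ℕ → ℕ, StrictMono k ∧ StrictMono m ∧ IT univ (fun j => U (k (2 * j)) (m (2 * j))) ∧
        IT univ fun j => U (k (2 * j + 1)) (m (2 * j + 1))

def Tow (C : ℕ → Set Z) : Prop := (∀ n, IsClopen (C n)) ∧
  (∀ (x : Z) (s : Finset ℕ), ∃ y, ∀ n, y ∈ C n ↔ (x ∈ C n ↔ n ∉ s)) ∧ IT univ C ∧
    ∀ g : ℕ → ℕ, ∃ x, ∃ᶠ n in atTop, ∀ i, x ∈ C i → i < n ∨ g n ≤ i

theorem ex (hCH : Cardinal.continuum.{0} = Cardinal.aleph 1) :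
    ∃ (X : Set ℝ) (C : ℕ → Set X), Tow C ∧ Core X := by
  classical
  obtain ⟨Y, a1, a2, a3, a4, a5⟩ := tower hCH
  obtain ⟨f, -, f1, f2⟩ := Perfect.exists_nat_bool_injection (C := (univ : Set ℝ))
    ⟨isClosed_univ, PerfectSpace.univ_preperfect⟩ univ_nonempty
  let χ : Set ℕ → ℕ → Bool := fun A n => decide (n ∈ A)
  have c0 : Function.Injective χ := fun A B e => Set.ext fun n => by
    simpa [χ] using congrFun e n
  have c1 : ∀ x : (f ∘ χ) '' Y, ∃ A ∈ Y, f (χ A) = x := fun x => x.2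
  choose e e1 e2 using c1
  have e3 : ∀ A (hA : A ∈ Y), e ⟨_, A, hA, rfl⟩ = A := fun A hA => c0 (f2 (e2 _))
  have c2 : ∀ n b, IsClosed {x | χ (e x) n = b} := fun n b => by
    convert ((isClosed_eq (continuous_apply n) (continuous_const (y := b))).isCompact.image
      f1).isClosed.preimage (continuous_subtype_val (p := (· ∈ (f ∘ χ) '' Y))) using 1
    exact Set.ext fun x => ⟨fun h => ⟨_, h, e2 x⟩, fun ⟨g, h1, h2⟩ => by
      rw [mem_setOf_eq, f2 ((e2 x).trans h2.symm)]; exact h1⟩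
  have t1 : Tendsto (fun n : ℕ => 2 * n) atTop atTop :=
    tendsto_atTop_mono (fun n => by simp only [id]; omega) tendsto_id
  have t2 : Tendsto (fun n : ℕ => 2 * n + 1) atTop atTop :=
    tendsto_atTop_mono (fun n => by simp only [id]; omega) tendsto_id
  refine ⟨(f ∘ χ) '' Y, fun n => {x | n ∈ e x}, ⟨fun n => ⟨by simpa [χ] using c2 n true,
    isClosed_compl_iff.1 (by simpa [χ, compl_setOf] using c2 n false)⟩, fun x s =>
      ⟨⟨_, _, a1 _ (e1 x) _ (sd_ev s _), rfl⟩, fun n => by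
        rw [mem_setOf_eq, e3 _ (a1 _ (e1 x) _ (sd_ev s _))]; rfl⟩,
    ⟨fun x _ => Nat.frequently_atTop_iff_infinite.2 (a2 _ (e1 x)),
      fun x _ y _ => a3 _ (e1 x) _ (e1 y)⟩, fun g => ?_⟩, fun U u1 u2 => ?_⟩
  · obtain ⟨A, hA, h⟩ := a4 g
    exact ⟨⟨_, A, hA, rfl⟩, by simpa only [mem_setOf_eq, e3 A hA] using h⟩
  choose V v1 v2 using fun n m => isOpen_induced_iff.1 (u1 n m)
  have v3 : ∀ n m x, x ∈ U n m ↔ f (χ (e x)) ∈ V n m := fun n m x => by rw [e2, ← v2]; rfl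
  obtain ⟨k, m, b1, b2, b3, b4⟩ := a5 (fun n m A => f (χ A) ∈ V n m) (fun n m A hA => by
      obtain ⟨I, t, c3, c4⟩ := isOpen_pi_iff.1 ((v1 n m).preimage f1) _ hA
      exact ⟨I.sup id + 1, fun L hL => c4 fun i hi => by
        have c5 : χ L i = χ A i := by
          simp [χ, hL i (Nat.lt_succ_of_le (Finset.le_sup (f := id) hi))]
        exact c5 ▸ (c3 i hi).2⟩) fun n F c3 c4 =>
    (u2 n (e ⁻¹' F) (c3.preimage fun x _ y _ h => Subtype.ext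
      ((e2 x).symm.trans (h ▸ e2 y)))).mono fun m hm A hA => by
        have c5 := (v3 n m ⟨_, A, c4 hA, rfl⟩).1 (hm (by rw [mem_preimage, e3 _ (c4 hA)]; exact hA))
        rwa [e3 _ (c4 hA)] at c5
  exact ⟨k, m, b1, b2, ⟨fun x _ => by
      simpa only [v3] using (b3 _ (e1 x)).mono fun _ h => h.1,
    fun x _ y _ => by
      simpa only [v3] using (b4 _ (e1 x) _ (e1 y)).imp t1.eventually t1.eventually⟩,
    fun x _ => by simpa only [v3] using (b3 _ (e1 x)).mono fun _ h => h.2,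
    fun x _ y _ => by
      simpa only [v3] using (b4 _ (e1 x) _ (e1 y)).imp t2.eventually t2.eventually⟩

theorem Core.sfin [SecondCountableTopology Z] (h : Core Z) : Sfin (Z := Z) Om Ta := by
  intro 𝓤 h1
  choose U u1 u2 u3 using fun n => om_seq (h1 n)
  obtain ⟨k, m, b1, -, b2, -⟩ := h U (fun n m => (h1 n).1.1 _ (u2 n m)) u3
  refine ⟨fun n => (fun j => U (k (2 * j)) (m (2 * j))) '' {j | k (2 * j) = n}, fun n =>
    ⟨(Subsingleton.finite fun i hi j hj => by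
      have := b1.injective (hi.trans hj.symm); omega).image _, ?_⟩, ?_⟩
  · rintro _ ⟨j, rfl, rfl⟩
    exact u2 _ _
  · rw [← image_iUnion, (iUnion_eq_univ_iff (f := fun n => {j | k (2 * j) = n})).2
      fun j => ⟨_, rfl⟩, image_univ]
    exact (it_ta (fun j => (h1 _).1.1 _ (u2 _ _)) (fun j e => (h1 _).1.2.2 (e ▸ u2 _ _)) b2).1

theorem Core.split [SecondCountableTopology Z] (h : Core Z) : Split (Z := Z) Om Ta := by
  intro 𝓤 h1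
  obtain ⟨U, u1, u2, u3⟩ := om_seq h1
  obtain ⟨k, m, -, b1, b2, b3⟩ := h (fun _ => U) (fun n m => h1.1.1 _ (u2 m)) fun _ => u3
  refine ⟨range fun j => U (m (2 * j)), 𝓤 \ range fun j => U (m (2 * j)), disjoint_sdiff_right,
    union_diff_cancel (range_subset_iff.2 fun j => u2 _), ⟨_, Subset.rfl, (it_ta
      (fun j => h1.1.1 _ (u2 _)) (fun j e => h1.1.2.2 (e ▸ u2 _)) b2).1⟩, _, ?_, (it_ta
      (fun j => h1.1.1 _ (u2 _)) (fun j e => h1.1.2.2 (e ▸ u2 _)) b3).1⟩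
  rintro _ ⟨j, rfl⟩
  refine ⟨u2 _, fun ⟨i, e⟩ => ?_⟩
  have := b1.injective (u1 e)
  omega

theorem Tow.pat {C : ℕ → Set Z} (h : Tow C) (s : Finset ℕ) (p : ℕ → Prop) :
    ∃ y, ∀ n ∈ s, y ∈ C n ↔ p n := by
  classical
  obtain ⟨x, -⟩ := h.2.2.2 id
  obtain ⟨y, hy⟩ := h.2.1 x (s.filter fun n => ¬ (x ∈ C n ↔ p n))
  refine ⟨y, fun n hn => ?_⟩
  rw [hy, Finset.mem_filter]
  tauto

theorem Tow.ne {C : ℕ → Set Z} (h : Tow C) (n : ℕ) : C n ≠ univ := fun e =>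
  let ⟨y, hy⟩ := h.pat {n} fun _ => False
  (hy n (Finset.mem_singleton_self n)).1 (e ▸ mem_univ y)

theorem Tow.nop {C : ℕ → Set Z} (h : Tow C) {D : Set ℕ} (hD : D.Infinite) :
    ∃ x, {n ∈ D | x ∉ C n}.Infinite := by
  choose a a1 a2 using hD.exists_gt
  obtain ⟨x, hx⟩ := h.2.2.2 fun n => a n + 1
  refine ⟨x, infinite_of_forall_exists_gt fun b => ?_⟩
  obtain ⟨n, c1, c2⟩ := (hx.and_eventually (eventually_ge_atTop b)).exists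
  exact ⟨a n, ⟨a1 n, fun e => by have := c1 _ e; have := a2 n; omega⟩, c2.trans_lt (a2 n)⟩

theorem Tow.nga {C : ℕ → Set Z} (h : Tow C) {𝓥 : Set (Set Z)} (h1 : 𝓥 ⊆ range C) : ¬ Ga 𝓥 := by
  intro h2
  have h3 : Function.Injective C := fun n m e => by_contra fun c => by
    obtain ⟨y, hy⟩ := h.pat {n, m} (· = n)
    exact c ((hy m (by simp)).1 (e ▸ (hy n (by simp)).2 rfl)).symm
  obtain ⟨x, hx⟩ := h.nop (D := C ⁻¹' 𝓥) (h2.2.1.preimage h1)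
  exact hx ((h2.2.2 x).preimage h3.injOn)

end Pool.Agent.Lib.helper32.Tau
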