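import Pool.Agent.Lib.helper32.TowerR

set_option autoImplicit false

namespace Pool.Agent.Lib.helper32.Tau

open Filter Topology Set

variable {Z : Type*} [TopologicalSpace Z]

def Ufin (A B : Set (Set Z) → Prop) : Prop := ∀ 𝓤 : ℕ → Set (Set Z), (∀ n, A (𝓤 n)) →
  (∀ n, ¬ ∃ 𝓕 ⊆ 𝓤 n, 𝓕.Finite ∧ ⋃₀ 𝓕 = univ) →
    ∃ 𝓕 : ℕ → Set (Set Z), (∀ n, (𝓕 n).Finite ∧ 𝓕 n ⊆ 𝓤 n) ∧ B (range fun n => ⋃₀ 𝓕 n)

theorem Tow.nhur {C : ℕ → Set Z} (h : Tow C) : ¬ Ufin (Z := Z) Ga Ga := by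
  intro h1
  let V : ℕ → ℕ → Set Z := fun n m => ⋃ i ∈ Ico n m, C i
  have h2 : ∀ n m, V n m ≠ univ := fun n m e => by
    obtain ⟨y, hy⟩ := h.pat (Finset.Ico n m) fun _ => False
    obtain ⟨i, c1, c2⟩ := mem_iUnion₂.1 (e ▸ mem_univ y : y ∈ V n m)
    exact (hy i (Finset.mem_Ico.2 c1)).1 c2
  have h3 : ∀ n, ∀ 𝓕 : Set (Set Z), 𝓕.Finite → 𝓕 ⊆ range (V n) → ∃ g, ⋃₀ 𝓕 ⊆ V n g :=
    fun n 𝓕 c1 c2 => by
      have c3 : ∀ W ∈ 𝓕, ∀ᶠ g in atTop, W ⊆ V n g := fun W hW => by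
        obtain ⟨m, rfl⟩ := c2 hW
        exact (eventually_ge_atTop m).mono fun g hg => biUnion_subset_biUnion_left
          (Ico_subset_Ico_right hg)
      exact ((eventually_all_finite c1).2 c3).exists.imp fun g hg => sUnion_subset hg
  obtain ⟨𝓕, h4, h5⟩ := h1 (fun n => range (V n)) (fun n => ga_range
    (fun m => isOpen_biUnion fun i _ => (h.1 i).isOpen) (h2 n) fun x => by
      obtain ⟨i, c1, c2⟩ := ((h.2.2.1.1 x trivial).and_eventually (eventually_ge_atTop n)).exists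
      exact (eventually_gt_atTop i).mono fun m hm => mem_biUnion (⟨c2, hm⟩ : i ∈ Ico n m) c1)
    fun n ⟨𝓕, c1, c2, c3⟩ => let ⟨g, hg⟩ := h3 n 𝓕 c2 c1; h2 n g (univ_subset_iff.1 (c3 ▸ hg))
  choose g hg using fun n => h3 n _ (h4 n).1 (h4 n).2
  have h6 : ∀ b, ∃ n, ⋃₀ 𝓕 n ∉ (fun n => ⋃₀ 𝓕 n) '' {i | i < b} := fun b => by
    obtain ⟨_, ⟨n, rfl⟩, c⟩ := (h5.2.1.diff ((finite_lt_nat b).image fun n => ⋃₀ 𝓕 n)).nonempty
    exact ⟨n, c⟩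
  choose ν hν using h6
  obtain ⟨x, hx⟩ := h.2.2.2 fun b => g (ν b)
  have h7 : ∀ W ∈ {W ∈ range fun n => ⋃₀ 𝓕 n | x ∉ W}, ∀ᶠ b in atTop, ⋃₀ 𝓕 (ν b) ≠ W := by
    rintro _ ⟨⟨i, rfl⟩, -⟩
    exact (eventually_gt_atTop i).mono fun b hb e => hν b ⟨i, hb, e.symm⟩
  obtain ⟨b, c1, c2⟩ := (hx.and_eventually ((eventually_all_finite (h5.2.2 x)).2 h7)).exists
  obtain ⟨i, c3, c4⟩ := mem_iUnion₂.1 (hg _ (not_not.1 fun e => c2 _ ⟨⟨ν b, rfl⟩, e⟩ rfl))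
  have c5 : b ≤ ν b := not_lt.1 fun e => hν b ⟨ν b, e, rfl⟩
  have c6 := c1 i c4
  have c7 := c3.1
  have c8 := c3.2
  omega

theorem Tow.sq {C : ℕ → Set Z} (h : Tow C) :
    ∃ 𝓤 : Set (Set (Fin 2 → Z)), Om 𝓤 ∧ ∀ 𝓥 ⊆ 𝓤, ¬ Ta 𝓥 := by
  obtain ⟨p, -⟩ := h.2.2.2 id
  let W : ℕ → Set (Fin 2 → Z) := fun n => {q | q 0 ∈ C n ↔ q 1 ∈ C n}
  have w0 : ∀ n x y, ![x, y] ∈ W n ↔ (x ∈ C n ↔ y ∈ C n) := fun _ _ _ => Iff.rfl
  have h1 : ∀ F : Set (Fin 2 → Z), F.Finite → ∃ U ∈ W '' {n | p ∈ C n}, F ⊆ U := fun F hF => by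
    obtain ⟨n, hn⟩ := (it_om h.2.2.1 (((hF.image (· 0)).union (hF.image (· 1))).insert p)
      (subset_univ _)).exists
    exact ⟨_, ⟨n, hn (Or.inl rfl), rfl⟩, fun q hq => iff_of_true
      (hn (Or.inr (Or.inl ⟨q, hq, rfl⟩))) (hn (Or.inr (Or.inr ⟨q, hq, rfl⟩)))⟩
  have h2 : Function.Injective W := fun n m e => by_contra fun c => by
    obtain ⟨y, hy⟩ := h.pat {n, m} (· = n)
    obtain ⟨z, hz⟩ := h.pat {n, m} fun _ => True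
    have c1 : ![y, z] ∈ W m := e ▸ (w0 n y z).2 (iff_of_true ((hy n (by simp)).2 rfl)
      ((hz n (by simp)).2 trivial))
    exact c ((hy m (by simp)).1 (((w0 m y z).1 c1).2 ((hz m (by simp)).2 trivial))).symm
  refine ⟨W '' {n | p ∈ C n}, ⟨⟨?_, eq_univ_of_forall fun q => ?_, ?_⟩,
    fun F => h1 _ F.finite_toSet⟩, fun 𝓥 h3 h4 => ?_⟩
  · rintro _ ⟨n, -, rfl⟩
    have c0 := (h.1 n).preimage (continuous_apply (A := fun _ : Fin 2 => Z) 0)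
    have c1 := (h.1 n).preimage (continuous_apply (A := fun _ : Fin 2 => Z) 1)
    convert ((c0.inter c1).union (c0.compl.inter c1.compl)).isOpen using 1
    ext q
    simp only [W, mem_setOf_eq, mem_union, mem_inter_iff, mem_preimage, mem_compl_iff]
    tauto
  · obtain ⟨U, c1, c2⟩ := h1 _ (finite_singleton q)
    exact ⟨U, c1, c2 rfl⟩
  · rintro ⟨n, c1, c2⟩
    obtain ⟨y, hy⟩ := h.pat {n} fun _ => False
    exact (hy n (by simp)).1 (((w0 n p y).1 (c2 ▸ mem_univ _)).1 c1)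
  let D : Set ℕ := {n | p ∈ C n ∧ W n ∈ 𝓥}
  have h5 : ∀ y, {n ∈ D | y ∈ C n}.Infinite := fun y c => h4.2.1 ![p, y] ((c.image W).subset
    fun U hU => by
      obtain ⟨n, c1, rfl⟩ := h3 hU.1
      exact ⟨n, ⟨⟨c1, hU.1⟩, ((w0 n p y).1 hU.2).1 c1⟩, rfl⟩)
  obtain ⟨a, ha⟩ := h.nop ((h5 p).mono fun _ c => c.1)
  obtain ⟨b, hb⟩ := h.nop (h5 a)
  have h6 : ∀ᶠ n in atTop, b ∈ C n → a ∈ C n := (h.2.2.1.2 a trivial b trivial).resolve_left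
    fun c => by
      obtain ⟨n, c1, c2⟩ := ((Nat.frequently_atTop_iff_infinite.2 hb).and_eventually c).exists
      exact c1.2 (c2 c1.1.2)
  rcases h4.2.2 ![p, a] ![a, b] with c | c
  · exact hb ((c.preimage h2.injOn).subset fun n hn => ⟨hn.1.1.2,
      (w0 n p a).2 (iff_of_true hn.1.1.1 hn.1.2), fun e => hn.2 (((w0 n a b).1 e).1 hn.1.2)⟩)
  · exact Nat.frequently_atTop_iff_infinite.1 ((Nat.frequently_atTop_iff_infinite.2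
      ha).and_eventually h6) ((c.preimage h2.injOn).subset fun n hn => ⟨hn.1.1.2,
        (w0 n a b).2 (iff_of_false hn.1.2 fun e => hn.1.2 (hn.2 e)),
        fun e => hn.1.2 (((w0 n p a).1 e).1 hn.1.1.1)⟩)

end Pool.Agent.Lib.helper32.Tau
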