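import Mathlib

set_option autoImplicit false

namespace Pool.Agent.Lib.helper32.Ufe

open Set Filter

/-- The product of ultrafilters on the positive integers: `A ∈ F · G` iff `{n | A/n ∈ G} ∈ F`. -/
def mul (F G : Ultrafilter ℕ+) : Ultrafilter ℕ+ := F.bind fun n => G.map fun m => n * m

lemma mem_mul (F G : Ultrafilter ℕ+) (A : Set ℕ+) : A ∈ mul F G ↔ {n | {m | n * m ∈ A} ∈ G} ∈ F := Iff.rfl

/-- M-divisibility: `G = H₁ · F · H₂`. -/
def DivM (F G : Ultrafilter ℕ+) : Prop := ∃ H₁ H₂, G = mul (mul H₁ F) H₂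

/-- Multiplicative finite embeddability of sets. -/
def FE (A B : Set ℕ+) : Prop := ∀ S : Set ℕ+, S.Finite → S ⊆ A → ∃ k : ℕ+, ∀ x ∈ S, k * x ∈ B

/-- Multiplicative finite embeddability of ultrafilters. -/
def UFE (F G : Ultrafilter ℕ+) : Prop := ∀ B ∈ G, ∃ A ∈ F, FE A B

noncomputable def pr (k : ℕ) : ℕ+ := ⟨Nat.nth Nat.Prime k, (Nat.prime_nth_prime k).pos⟩
lemma pr_prime (k : ℕ) : (pr k : ℕ).Prime := Nat.prime_nth_prime k
lemma pr_inj {k l : ℕ} (h : (pr k : ℕ) = pr l) : k = l := Nat.nth_injective Nat.infinite_setOf_prime h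
lemma le_pr (k : ℕ) : k ≤ (pr k : ℕ) := Nat.le_nth fun h => absurd h Nat.infinite_setOf_prime

lemma pr_dvd {j k l : ℕ} (h : (pr j : ℕ) ∣ pr k * pr l) : j = k ∨ j = l :=
  ((pr_prime j).dvd_mul.1 h).imp (fun h => pr_inj ((Nat.prime_dvd_prime_iff_eq (pr_prime _) (pr_prime _)).1 h))
    fun h => pr_inj ((Nat.prime_dvd_prime_iff_eq (pr_prime _) (pr_prime _)).1 h)

noncomputable def K : Ultrafilter ℕ := hyperfilter ℕ
lemma K_gt (n : ℕ) : ∀ᶠ k in (K : Filter ℕ), n < k := Nat.hyperfilter_le_atTop (eventually_gt_atTop n)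

noncomputable def F : Ultrafilter ℕ+ := K.map fun k => pr (2 * k)
noncomputable def G : Ultrafilter ℕ+ :=
  K.bind fun i => K.bind fun k => K.map fun l => pr (2 * k) * pr (2 * Nat.pair i l + 1)

lemma mem_G (A : Set ℕ+) : A ∈ G ↔ ∀ᶠ i in (K : Filter ℕ), ∀ᶠ k in (K : Filter ℕ), ∀ᶠ l in (K : Filter ℕ),
    pr (2 * k) * pr (2 * Nat.pair i l + 1) ∈ A := Iff.rfl

lemma G_mem (N : ℕ) : {n | ∃ i k l, N < i ∧ i < k ∧ k < l ∧ n = pr (2 * k) * pr (2 * Nat.pair i l + 1)} ∈ G :=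
  (mem_G _).2 ((K_gt N).mono fun i hi => (K_gt i).mono fun k hk => (K_gt k).mono fun l hl => ⟨i, k, l, hi, hk, hl, rfl⟩)

lemma F_mem : range (fun k => pr (2 * k)) ∈ F := range_mem_map

lemma FG : UFE F G := fun B hB => by
  obtain ⟨i, hi⟩ := ((mem_G B).1 hB).exists
  refine ⟨_, image_mem_map hi, fun S h1 h2 => ?_⟩
  obtain ⟨l, hl⟩ := ((eventually_all_finite h1).2 fun x hx => show ∀ᶠ l in (K : Filter ℕ),
    pr (2 * Nat.pair i l + 1) * x ∈ B by obtain ⟨k, hk, rfl⟩ := h2 hx; exact hk.mono fun l hl => by rwa [mul_comm]).exists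
  exact ⟨_, hl⟩

lemma not_GF : ¬ UFE G F := fun h => by
  obtain ⟨A, a1, a2⟩ := h _ F_mem
  obtain ⟨_, hx, i, k, l, -, -, -, rfl⟩ := Ultrafilter.nonempty_of_mem (inter_mem a1 (G_mem 0))
  obtain ⟨c, hc⟩ := a2 {_} (finite_singleton _) (singleton_subset_iff.2 hx)
  obtain ⟨m, hm⟩ := hc _ rfl
  have := pr_prime (2 * m)
  rw [show pr (2 * m) = _ from hm, ← mul_assoc, PNat.mul_coe, PNat.mul_coe] at this
  exact Nat.not_prime_mul (fun h => (pr_prime _).ne_one (Nat.eq_one_of_mul_eq_one_left h)) (pr_prime _).ne_one this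

lemma ne_one {U : Ultrafilter ℕ+} (h : U ≠ pure 1) : {n | n ≠ 1} ∈ U :=
  Ultrafilter.compl_mem_iff_notMem.2 fun h' => h (Ultrafilter.eq_pure_of_finite_mem (finite_singleton _) h' |>.elim
    fun _ hx => hx.1 ▸ hx.2)

lemma irred {U W : Ultrafilter ℕ+} (h : G = mul U W) : U = pure 1 ∨ W = pure 1 := by
  by_contra! c
  obtain ⟨u, u1, u2⟩ := Ultrafilter.nonempty_of_mem (inter_mem ((mem_mul ..).1 (h ▸ G_mem 0)) (ne_one c.1))
  have h1 : {w : ℕ+ | ∃ j, w = pr j ∧ ((∃ k ≤ (u : ℕ), j = 2 * k) ∨ ∃ i ≤ (u : ℕ), ∃ l, j = 2 * Nat.pair i l + 1)} ∈ W := by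
    filter_upwards [u1, ne_one c.2] with w ⟨i, k, l, _, h2, h3, e⟩ hw
    have e' : (u : ℕ) * w = pr (2 * k) * pr (2 * Nat.pair i l + 1) := by exact_mod_cast congrArg PNat.val e
    have n1 : (u : ℕ) ≠ 1 := fun h => u2 (PNat.eq h)
    have n2 : (w : ℕ) ≠ 1 := fun h => hw (PNat.eq h)
    have p1 := pr_prime (2 * k)
    have p2 := pr_prime (2 * Nat.pair i l + 1)
    rcases p1.dvd_mul.1 ⟨_, e'⟩ with ⟨t, ht⟩ | ⟨t, ht⟩
    · rw [ht, mul_assoc, Nat.mul_right_inj p1.ne_zero] at e'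
      have := (p2.eq_one_or_self_of_dvd w (e' ▸ dvd_mul_left _ _)).resolve_left n2
      have := (le_pr (2 * k)).trans (Nat.le_of_dvd u.pos ⟨t, ht⟩)
      exact ⟨_, PNat.eq ‹_›, Or.inr ⟨i, by omega, l, rfl⟩⟩
    · rw [ht, mul_left_comm, Nat.mul_right_inj p1.ne_zero] at e'
      have a1 := (p2.eq_one_or_self_of_dvd u (e' ▸ dvd_mul_right _ _)).resolve_left n1
      have a2 := le_pr (2 * Nat.pair i l + 1)
      have a3 := Nat.right_le_pair i l
      rw [a1, Nat.mul_eq_left p2.ne_zero] at e'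
      exact ⟨_, PNat.eq (by rw [ht, e', mul_one]), Or.inl ⟨k, by omega, rfl⟩⟩
  obtain ⟨v, hv⟩ := Ultrafilter.nonempty_of_mem ((mem_mul ..).1 (h ▸ G_mem u))
  obtain ⟨_, ⟨i, k, l, b1, b2, -, e⟩, j, rfl, hj⟩ := Ultrafilter.nonempty_of_mem (inter_mem hv h1)
  have e' : (v : ℕ) * pr j = pr (2 * k) * pr (2 * Nat.pair i l + 1) := by exact_mod_cast congrArg PNat.val e
  rcases pr_dvd (e' ▸ dvd_mul_left _ _) with d | d <;> rcases hj with ⟨k', c1, c2⟩ | ⟨i', c1, l', c2⟩ <;>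
    first | omega | skip
  have := (Nat.pair_eq_pair.1 (show Nat.pair i l = Nat.pair i' l' by omega)).1
  omega

lemma one_mul' (U : Ultrafilter ℕ+) : mul (pure 1) U = U := Ultrafilter.ext fun A => by simp [mem_mul]
lemma mul_one' (U : Ultrafilter ℕ+) : mul U (pure 1) = U := Ultrafilter.ext fun A => by simp [mem_mul]

lemma div_G {X : Ultrafilter ℕ+} (h : DivM X G) : X = pure 1 ∨ X = G := by
  obtain ⟨H, H', h⟩ := h
  rcases irred h with c | rfl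
  · refine Or.inl (by_contra fun c' => ?_)
    obtain ⟨n, hn⟩ := Ultrafilter.nonempty_of_mem ((mem_mul H X {1}).1 (by simp [c]))
    obtain ⟨m, h1, h2⟩ := Ultrafilter.nonempty_of_mem (inter_mem hn (ne_one c'))
    exact h2 (PNat.eq (Nat.eq_one_of_mul_eq_one_left (congrArg PNat.val h1)))
  · rw [mul_one'] at h
    rcases irred h with rfl | c
    exacts [Or.inr (by rw [h, one_mul']), Or.inl c]

lemma F_ne : F ≠ pure 1 := fun h => by
  obtain ⟨k, hk⟩ : (1 : ℕ+) ∈ range fun k => pr (2 * k) := Ultrafilter.mem_pure.1 (h ▸ F_mem)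
  exact (pr_prime _).ne_one (congrArg PNat.val hk)

lemma G_ne : G ≠ pure 1 := fun h => by
  obtain ⟨i, k, l, -, -, -, e⟩ := Ultrafilter.mem_pure.1 (h ▸ G_mem 0)
  exact (pr_prime _).ne_one (Nat.eq_one_of_mul_eq_one_left (congrArg PNat.val e.symm))

lemma F_ne_G : F ≠ G := fun h => not_GF (h ▸ h ▸ FG)

end Pool.Agent.Lib.helper32.Ufe
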