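import Mathlib

set_option autoImplicit false

namespace Pool.Agent.Lib.helper32.WPC

open Filter Topology Set

/-- X is G-delta-dense in some Hausdorff compactification. -/
def WeaklyPseudocompact (X : Type) [TopologicalSpace X] : Prop :=
  ∃ (K : Type) (_ : TopologicalSpace K) (_ : CompactSpace K) (_ : T2Space K) (e : X → K),
    IsEmbedding e ∧ DenseRange e ∧ ∀ S : Set K, IsGδ S → S.Nonempty → (S ∩ range e).Nonempty

def Precompact (G : Type) [AddGroup G] [TopologicalSpace G] : Prop :=
  ∀ U ∈ 𝓝 (0 : G), ∃ F : Set G, F.Finite ∧ ∀ g : G, ∃ c ∈ F, ∃ u ∈ U, g = c + u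

def OmegaBounded (G : Type) [AddGroup G] [TopologicalSpace G] : Prop :=
  ∀ U ∈ 𝓝 (0 : G), ∃ C : Set G, C.Countable ∧ ∀ g : G, ∃ c ∈ C, ∃ u ∈ U, g = c + u

def RFactorizable (G : Type) [AddGroup G] [TopologicalSpace G] : Prop :=
  ∀ f : G → ℝ, Continuous f → ∃ (H : Type) (_ : AddGroup H) (_ : TopologicalSpace H)
    (_ : IsTopologicalAddGroup H) (_ : T2Space H) (_ : SecondCountableTopology H)
    (p : G →+ H) (h : H → ℝ),
    Continuous p ∧ Function.Surjective p ∧ Continuous h ∧ f = h ∘ p

abbrev P : Type := ℝ → ZMod 2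

def Sig : AddSubgroup P where
  carrier := {s | (Function.support s).Countable}
  zero_mem' := by simp
  add_mem' ha hb := (ha.union hb).mono (Function.support_add _ _)
  neg_mem' ha := by simpa using ha

abbrev G : Type := ℤ × Sig

open scoped Classical in
noncomputable def ext0 (C : Set ℝ) (hC : C.Countable) (u : C → ZMod 2) : Sig :=
  ⟨fun i => if h : i ∈ C then u ⟨i, h⟩ else 0, hC.mono fun i hi => by
    by_contra h
    simp [h] at hi⟩

theorem ext0_mem (C : Set ℝ) (hC : C.Countable) (u : C → ZMod 2) (i : ℝ) (h : i ∈ C) :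
    (ext0 C hC u : P) i = u ⟨i, h⟩ := by simp [ext0, h]

theorem ext0_cont (C : Set ℝ) (hC : C.Countable) : Continuous (ext0 C hC) := by
  refine Continuous.subtype_mk (continuous_pi fun i => ?_) _
  by_cases h : i ∈ C
  · simp only [h, dif_pos]; exact continuous_apply _
  · simp only [h, dif_neg, not_false_eq_true]; exact continuous_const

theorem nhds_pi' {y : P} {O : Set P} (h : O ∈ 𝓝 y) :
    ∃ I : Set ℝ, I.Finite ∧ ∀ s : P, (∀ i ∈ I, s i = y i) → s ∈ O := by
  rw [nhds_pi, Filter.mem_pi] at h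
  obtain ⟨I, hI, t, ht, hO⟩ := h
  exact ⟨I, hI, fun s hs => hO fun i hi => by rw [hs i hi]; exact mem_of_mem_nhds (ht i)⟩

theorem gd_dense {S : Set P} (hS : IsGδ S) (hne : S.Nonempty) : ∃ s : Sig, (s : P) ∈ S := by
  obtain ⟨y, hy⟩ := hne
  obtain ⟨f, hf, rfl⟩ := hS.eq_iInter_nat
  choose I hI hI2 using fun n => nhds_pi' ((hf n).mem_nhds (mem_iInter.1 hy n))
  have hC : (⋃ n, I n).Countable := countable_iUnion fun n => (hI n).countable
  exact ⟨ext0 _ hC fun i => y i, mem_iInter.2 fun n => hI2 n _ fun i hi =>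
    ext0_mem _ hC _ i (mem_iUnion.2 ⟨n, hi⟩)⟩

theorem sig_ne (s : Sig) : (s : P) ≠ 1 := by
  intro h
  have h1 : (Function.support (s : P)).Countable := s.2
  rw [h] at h1
  exact Set.not_countable_univ (h1.mono fun i _ => by simp)

def K : Set (ℤ → P) := {x | ∀ m n, m ≠ n → x m = 1 ∨ x n = 1}

theorem K_closed : IsClosed K := by
  simp only [K, setOf_forall]
  refine isClosed_iInter fun m => isClosed_iInter fun n => isClosed_iInter fun _ => ?_
  exact (isClosed_eq (continuous_apply m) continuous_const).union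
    (isClosed_eq (continuous_apply n) continuous_const)

def jj (n : ℤ) (y : P) : K :=
  ⟨Function.update 1 n y, fun a b hab => by
    by_cases h : a = n
    · right; rw [Function.update_of_ne (h ▸ hab.symm)]; rfl
    · left; rw [Function.update_of_ne h]; rfl⟩

theorem jj_cont (n : ℤ) : Continuous (jj n) := by
  have h : Continuous fun y : P => Function.update (1 : ℤ → P) n y :=
    continuous_const.update n continuous_id
  exact Continuous.subtype_mk h _

theorem jj_surj (x : K) : ∃ n y, jj n y = x := by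
  by_cases h : ∃ n, x.1 n ≠ 1
  · obtain ⟨n, hn⟩ := h
    refine ⟨n, x.1 n, Subtype.ext (funext fun m => ?_)⟩
    by_cases hm : m = n
    · subst hm; simp [jj]
    · simp only [jj, Function.update_of_ne hm]
      exact ((x.2 m n hm).resolve_right hn).symm
  · push Not at h
    exact ⟨0, 1, Subtype.ext (funext fun m => by simp [jj, h])⟩

theorem wpc : WeaklyPseudocompact G := by
  haveI : CompactSpace K := isCompact_iff_compactSpace.1 K_closed.isCompact
  have hG : ∀ S : Set K, IsGδ S → S.Nonempty →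
      (S ∩ range fun g : G => jj g.1 g.2).Nonempty := by
    rintro S hS ⟨x, hx⟩
    obtain ⟨n, y, rfl⟩ := jj_surj x
    obtain ⟨s, hs⟩ := gd_dense (hS.preimage (jj_cont n)) ⟨y, hx⟩
    exact ⟨_, hs, (n, s), rfl⟩
  have hne : ∀ g g' : G, (jj g.1 g.2).1 g'.1 ≠ 1 → g.1 = g'.1 := by
    intro g g' h
    by_contra hc
    exact h (by simp only [jj, Function.update_of_ne (Ne.symm hc)]; rfl)
  refine ⟨K, inferInstance, inferInstance, inferInstance, fun g => jj g.1 g.2, ⟨⟨?_⟩, ?_⟩,
    dense_iff_inter_open.2 fun U hU hne => hG U hU.isGδ hne, hG⟩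
  · refine le_antisymm (continuous_iff_le_induced.1 ?_) ?_
    · refine continuous_prod_of_discrete_left.2 fun n => ?_
      exact (jj_cont n).comp continuous_subtype_val
    · rw [le_iff_nhds]
      intro g U hU
      rw [nhds_induced]
      obtain ⟨n, s⟩ := g
      have h1 : (fun t : Sig => (n, t)) ⁻¹' U ∈ 𝓝 s :=
        (Continuous.prodMk_right n).continuousAt hU
      rw [nhds_induced] at h1
      obtain ⟨O, hO, hOU⟩ := h1
      have h2 : O ∩ {1}ᶜ ∈ 𝓝 (s : P) := inter_mem hO (isOpen_compl_singleton.mem_nhds (sig_ne s))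
      refine ⟨(fun x : K => x.1 n) ⁻¹' (O ∩ {1}ᶜ), ?_, ?_⟩
      · refine ((continuous_apply n).comp continuous_subtype_val).continuousAt ?_
        simpa [jj] using h2
      · rintro ⟨m, t⟩ ⟨h3, h4⟩
        obtain rfl : m = n := hne (m, t) (n, s) h4
        exact hOU (by simpa [jj] using h3)
  · rintro ⟨m, t⟩ ⟨n, s⟩ h
    have h1 : (jj m t).1 n = (jj n s).1 n := congrArg (fun x : K => x.1 n) h
    obtain rfl : m = n := hne (m, t) (n, s) (by rw [h1]; simpa [jj] using sig_ne s)
    simpa [jj] using h1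

theorem not_precompact : ¬ Precompact G := by
  intro h
  obtain ⟨F, hF, h2⟩ := h (Prod.fst ⁻¹' {0})
    (((isOpen_discrete _).preimage continuous_fst).mem_nhds rfl)
  refine Set.infinite_univ ((hF.image Prod.fst).subset fun n _ => ?_)
  obtain ⟨c, hc, u, hu, e⟩ := h2 (n, 0)
  exact ⟨c, hc, by simpa [show u.1 = 0 from hu] using (congrArg Prod.fst e).symm⟩

theorem omegaBounded : OmegaBounded G := by
  intro U hU
  have h1 : (fun t : Sig => ((0 : ℤ), t)) ⁻¹' U ∈ 𝓝 0 :=
    (Continuous.prodMk_right 0).continuousAt hU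
  rw [nhds_induced] at h1
  obtain ⟨O, hO, hOU⟩ := h1
  obtain ⟨I, hI, hI2⟩ := nhds_pi' hO
  haveI := hI.to_subtype
  refine ⟨range fun q : ℤ × (I → ZMod 2) => (q.1, ext0 I hI.countable q.2), countable_range _,
    fun g => ⟨_, ⟨(g.1, fun i => g.2.1 i), rfl⟩,
      (0, g.2 - ext0 I hI.countable fun i => g.2.1 i), hOU (hI2 _ fun i hi => ?_), by simp⟩⟩
  simp [ext0_mem I hI.countable _ i hi]

theorem unif (f : Sig → ℝ) (hf : Continuous f) {ε : ℝ} (hε : 0 < ε) :
    ∃ I : Set ℝ, I.Finite ∧ ∀ s t : Sig, (∀ i ∈ I, (s : P) i = (t : P) i) → |f s - f t| ≤ ε := by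
  by_contra hc
  push Not at hc
  choose s t hst using hc
  have hen : ∀ (I : Set ℝ) (hI : I.Finite), ∃ c : ℕ → ℝ,
      Function.support (s I hI : P) ∪ Function.support (t I hI : P) ⊆ range c := by
    intro I hI
    have h1 : (insert 0 (Function.support (s I hI : P) ∪
        Function.support (t I hI : P))).Countable :=
      (Set.Countable.union (s I hI).2 (t I hI).2).insert 0
    obtain ⟨c, hc⟩ := h1.exists_eq_range (insert_nonempty _ _)
    exact ⟨c, hc ▸ subset_insert _ _⟩
  choose c hc using hen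
  let T := {q : Set (ℕ → ℝ) // q.Finite}
  let J : ℕ → T → {I : Set ℝ // I.Finite} := fun k q =>
    ⟨image2 (fun d i => d i) q.1 (Iio k), q.2.image2 _ (finite_Iio k)⟩
  let q : ℕ → T := fun k => Nat.rec ⟨∅, finite_empty⟩
    (fun k a => ⟨insert (c (J k a).1 (J k a).2) a.1, a.2.insert _⟩) k
  have hmono : Monotone fun k => (q k).1 := monotone_nat_of_le_succ fun k => subset_insert _ _
  let I : ℕ → {I : Set ℝ // I.Finite} := fun k => J k (q k)
  let S : ℕ → Sig := fun k => s (I k).1 (I k).2
  let S' : ℕ → Sig := fun k => t (I k).1 (I k).2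
  let C : Set ℝ := ⋃ k, range (c (I k).1 (I k).2)
  have hC : C.Countable := countable_iUnion fun k => countable_range _
  obtain ⟨x, -, hx⟩ := isCompact_univ.ultrafilter_le_nhds
    ((hyperfilter ℕ).map fun k => (S k : P)) (by simp)
  have hx0 : ∀ i ∉ C, x i = 0 := by
    intro i hi
    have h1 : Tendsto (fun k => (S k : P) i) (hyperfilter ℕ) (𝓝 (x i)) :=
      ((continuous_apply i).tendsto x).comp hx
    refine tendsto_nhds_unique h1 (tendsto_const_nhds.congr fun k => ?_)
    by_contra h
    exact hi (mem_iUnion.2 ⟨k, hc _ _ (Or.inl (Ne.symm h))⟩)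
  let x' : Sig := ⟨x, hC.mono fun i hi => by_contra fun h => hi (hx0 i h)⟩
  have h1 : Tendsto S (hyperfilter ℕ) (𝓝 x') := tendsto_subtype_rng.2 hx
  have h2 : Tendsto S' (hyperfilter ℕ) (𝓝 x') := by
    refine tendsto_subtype_rng.2 (tendsto_pi_nhds.2 fun i => ?_)
    by_cases hi : i ∈ C
    · obtain ⟨k, j, rfl⟩ := mem_iUnion.1 hi
      refine (((continuous_apply _).tendsto x).comp hx).congr' ?_
      filter_upwards [Nat.hyperfilter_le_atTop (eventually_gt_atTop (max k j))] with m hm
      refine (hst (I m).1 (I m).2).1 _ ⟨c (I k).1 (I k).2, ?_, j, ?_, rfl⟩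
      · exact hmono (show k + 1 ≤ m from (le_max_left k j).trans_lt hm) (mem_insert _ _)
      · exact (le_max_right k j).trans_lt hm
    · change Tendsto _ _ (𝓝 (x i))
      rw [hx0 i hi]
      refine tendsto_const_nhds.congr fun k => ?_
      by_contra h
      exact hi (mem_iUnion.2 ⟨k, hc _ _ (Or.inr (Ne.symm h))⟩)
  have h3 := (((hf.tendsto _).comp h1).sub ((hf.tendsto _).comp h2)).abs
  rw [sub_self, abs_zero] at h3
  exact not_le.2 hε (ge_of_tendsto' h3 fun k => (hst (I k).1 (I k).2).2.le)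

theorem rfact : RFactorizable G := by
  intro f hf
  choose I hI hI2 using fun q : ℤ × ℕ => unif (fun s => f (q.1, s))
    (hf.comp (Continuous.prodMk_right q.1)) (Nat.one_div_pos_of_nat (n := q.2))
  have hC : (⋃ q, I q).Countable := countable_iUnion fun q => (hI q).countable
  set C := ⋃ q, I q with hCd
  haveI := hC.to_subtype
  let p : G →+ ℤ × (C → ZMod 2) :=
    { toFun := fun g => (g.1, fun i => g.2.1 i)
      map_zero' := rfl
      map_add' := fun _ _ => rfl }
  refine ⟨ℤ × (C → ZMod 2), inferInstance, inferInstance, inferInstance, inferInstance,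
    inferInstance, p, fun q => f (q.1, ext0 C hC q.2), ?_, fun q => ⟨(q.1, ext0 C hC q.2), ?_⟩,
    hf.comp (continuous_fst.prodMk ((ext0_cont C hC).comp continuous_snd)), funext fun g => ?_⟩
  · exact continuous_fst.prodMk (continuous_pi fun i =>
      (continuous_apply _).comp (continuous_subtype_val.comp continuous_snd))
  · exact Prod.ext rfl (funext fun i => ext0_mem C hC _ i i.2)
  · refine sub_eq_zero.1 (abs_nonpos_iff.1 ?_)
    refine ge_of_tendsto' tendsto_one_div_add_atTop_nhds_zero_nat fun k => ?_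
    exact hI2 (g.1, k) g.2 _ fun i hi => (ext0_mem C hC (p g).2 i (mem_iUnion.2 ⟨_, hi⟩)).symm

end Pool.Agent.Lib.helper32.WPC
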